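import Pool.Agent.N30.HM.Am

set_option autoImplicit false

/-! Products of shifted zeta functions: Dirichlet series. -/

open Complex MeasureTheory Set Filter Topology

namespace Pool.Agent.N30.SM

open Pool.Agent.W188.QS Pool.Agent.N30.MZ Pool.Agent.N30.OD Pool.Agent.N30.HM
open Pool.Agent.W131.QSJJ (dd dd_nonneg dd_zero dd_cast norm_cp)

/-- the arithmetic function `n^{-ib}` -/
noncomputable def pw (b : ℝ) : ArithmeticFunction ℂ := ⟨fun n => if n = 0 then 0 else (n : ℂ) ^ (-((b : ℂ) * I)), by simp⟩

lemma pw_apply (b : ℝ) {n : ℕ} (hn : n ≠ 0) : pw b n = (n : ℂ) ^ (-((b : ℂ) * I)) := by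
  change (if n = 0 then 0 else (n : ℂ) ^ (-((b : ℂ) * I))) = _
  rw [if_neg hn]

lemma pw_norm (b : ℝ) {n : ℕ} (hn : n ≠ 0) : ‖pw b n‖ = 1 := by
  rw [pw_apply b hn, Complex.norm_natCast_cpow_of_pos (by omega)]
  simp

/-- the coefficients of the product of shifted zeta functions -/
noncomputable def cc {ι : Type} (s : Finset ι) (b : ι → ℝ) : ArithmeticFunction ℂ := ∏ j ∈ s, pw (b j)

lemma cc_le {ι : Type} [DecidableEq ι] (s : Finset ι) (b : ι → ℝ) : ∀ n : ℕ, ‖cc s b n‖ ≤ dd s.card n := by
  induction s using Finset.induction_on with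
  | empty =>
    intro n
    unfold cc dd
    rw [Finset.prod_empty, Finset.card_empty, pow_zero]
    rcases eq_or_ne n 1 with h | h
    · subst h; simp
    · rw [ArithmeticFunction.one_apply_ne h, norm_zero]; positivity
  | insert a s ha ih =>
    intro n
    unfold cc at ih ⊢
    unfold dd at ih ⊢
    rw [Finset.prod_insert ha, Finset.card_insert_of_notMem ha, pow_succ', ArithmeticFunction.mul_apply, ArithmeticFunction.mul_apply]
    push_cast
    refine (norm_sum_le _ _).trans (Finset.sum_le_sum fun x hx => ?_)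
    have hx1 : x.1 ≠ 0 := (Nat.ne_zero_of_mem_divisorsAntidiagonal hx).1
    rw [norm_mul, pw_norm _ hx1, one_mul, ArithmeticFunction.zeta_apply, if_neg hx1]
    push_cast
    rw [one_mul]
    exact ih x.2

/-- the product of shifted zeta functions -/
noncomputable def Fz {ι : Type} (s : Finset ι) (b : ι → ℝ) (w : ℂ) : ℂ := ∏ j ∈ s, riemannZeta (w + (b j : ℂ) * I)

lemma pw_series (b : ℝ) {w : ℂ} (hw : 1 < w.re) : LSeriesSummable (fun n => pw b n) w ∧
    LSeries (fun n => pw b n) w = riemannZeta (w + (b : ℂ) * I) := by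
  have hre : 1 < (w + (b : ℂ) * I).re := by simp; exact hw
  have hterm : ∀ n : ℕ, LSeries.term (fun n => pw b n) w n = 1 / (n : ℂ) ^ (w + (b : ℂ) * I) := by
    intro n
    rcases eq_or_ne n 0 with h | h
    · subst h
      rw [LSeries.term_zero, Nat.cast_zero, Complex.zero_cpow, div_zero]
      intro h0
      rw [h0] at hre
      simp at hre
      linarith
    · rw [LSeries.term_of_ne_zero h, pw_apply b h]
      have hn : (n : ℂ) ≠ 0 := by exact_mod_cast h
      rw [Complex.cpow_neg, Complex.cpow_add _ _ hn]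
      field_simp
  have hs : Summable fun n : ℕ => 1 / (n : ℂ) ^ (w + (b : ℂ) * I) := Complex.summable_one_div_nat_cpow.2 hre
  constructor
  · unfold LSeriesSummable
    have e : LSeries.term (fun n => pw b n) w = fun n : ℕ => 1 / (n : ℂ) ^ (w + (b : ℂ) * I) := funext hterm
    rw [e]
    exact hs
  · unfold LSeries
    rw [zeta_eq_tsum_one_div_nat_cpow hre]
    exact tsum_congr hterm

lemma cc_series {ι : Type} [DecidableEq ι] (s : Finset ι) (b : ι → ℝ) {w : ℂ} (hw : 1 < w.re) :
    LSeriesSummable (fun n => cc s b n) w ∧ LSeries (fun n => cc s b n) w = Fz s b w := by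
  induction s using Finset.induction_on with
  | empty =>
    unfold cc Fz
    rw [Finset.prod_empty, Finset.prod_empty]
    have e : (fun n : ℕ => (1 : ArithmeticFunction ℂ) n) = LSeries.delta := by
      funext n
      rw [ArithmeticFunction.one_apply]
      rfl
    rw [e]
    refine ⟨?_, ?_⟩
    · have h1 : LSeriesSummable (fun n => pw 0 n) w := (pw_series 0 hw).1
      apply Summable.of_norm_bounded h1.norm
      intro n
      rcases eq_or_ne n 0 with h | h
      · subst h; simp
      · rw [LSeries.term_of_ne_zero h, LSeries.term_of_ne_zero h, norm_div, norm_div, pw_norm 0 h]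
        apply div_le_div_of_nonneg_right _ (norm_nonneg _)
        unfold LSeries.delta
        split_ifs <;> simp
    · rw [LSeries_delta]
      rfl
  | insert a s ha ih =>
    unfold cc Fz at ih ⊢
    rw [Finset.prod_insert ha, Finset.prod_insert ha]
    obtain ⟨p1, p2⟩ := pw_series (b a) hw
    refine ⟨ArithmeticFunction.LSeriesSummable_mul p1 ih.1, ?_⟩
    rw [ArithmeticFunction.LSeries_mul' p1 ih.1, p2, ih.2]

lemma cc_tsum {ι : Type} [DecidableEq ι] (s : Finset ι) (b : ι → ℝ) {w : ℂ} (hw : 1 < w.re) :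
    Summable (fun n : ℕ => cc s b n * (n : ℂ) ^ (-w)) ∧ Fz s b w = ∑' n : ℕ, cc s b n * (n : ℂ) ^ (-w) := by
  obtain ⟨h1, h2⟩ := cc_series s b hw
  have e : ∀ n : ℕ, LSeries.term (fun n => cc s b n) w n = cc s b n * (n : ℂ) ^ (-w) := by
    intro n
    rcases eq_or_ne n 0 with h | h
    · subst h
      rw [LSeries.term_zero, ArithmeticFunction.map_zero, zero_mul]
    · rw [LSeries.term_of_ne_zero h, Complex.cpow_neg, div_eq_mul_inv]
  constructor
  · unfold LSeriesSummable at h1
    have e2 : LSeries.term (fun n => cc s b n) w = fun n : ℕ => cc s b n * (n : ℂ) ^ (-w) := funext e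
    rwa [e2] at h1
  · rw [← h2]
    unfold LSeries
    exact tsum_congr e

end Pool.Agent.N30.SM
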