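import Pool.Agent.N30.SM.Ba
import Pool.Agent.H388LH.ZG

set_option autoImplicit false

/-! Products of shifted zeta functions minus their polar parts. -/

open Complex MeasureTheory Set Filter Topology

namespace Pool.Agent.N30.SM

/-- removing finitely many singularities, continuity only -/
lemma ext_cont {f : ℂ → ℂ} {S : Set ℂ} (hS : S.Finite) (hd : ∀ w ∉ S, DifferentiableAt ℂ f w)
    (hl : ∀ w ∈ S, ∃ L, Tendsto f (𝓝[≠] w) (𝓝 L)) : ∃ g : ℂ → ℂ, (∀ w ∉ S, g w = f w) ∧ (∀ w ∉ S, DifferentiableAt ℂ g w) ∧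
      Continuous g := by
  obtain ⟨g, hg⟩ : ∃ g : ℂ → ℂ, g = fun w => limUnder (𝓝[≠] w) f := ⟨_, rfl⟩
  have h1 : ∀ w ∉ S, g w = f w := by
    intro w hw
    rw [hg]
    exact ((hd w hw).continuousAt.tendsto.mono_left nhdsWithin_le_nhds).limUnder_eq
  have h2 : ∀ w ∉ S, g =ᶠ[𝓝 w] f := by
    intro w hw
    filter_upwards [hS.isClosed.isOpen_compl.mem_nhds hw] with v hv
    exact h1 v hv
  have h3 : ∀ w ∉ S, DifferentiableAt ℂ g w := fun w hw => (hd w hw).congr_of_eventuallyEq (h2 w hw)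
  refine ⟨g, h1, h3, ?_⟩
  rw [continuous_iff_continuousAt]
  intro w
  by_cases hw : w ∈ S
  · obtain ⟨L, hL⟩ := hl w hw
    have e1 : g w = L := by rw [hg]; exact hL.limUnder_eq
    rw [continuousAt_iff_punctured_nhds, e1]
    refine hL.congr' ?_
    have h4 : (S \ {w})ᶜ ∈ 𝓝 w := (hS.subset sdiff_subset).isClosed.isOpen_compl.mem_nhds (by simp)
    filter_upwards [mem_nhdsWithin_of_mem_nhds h4, self_mem_nhdsWithin] with v hv1 hv2
    exact (h1 v (fun h => hv1 ⟨h, hv2⟩)).symm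
  · exact (h3 w hw).continuousAt

variable {ι : Type} [DecidableEq ι]

/-- the residues -/
noncomputable def rr (s : Finset ι) (b : ι → ℝ) (j : ι) : ℂ := ∏ i ∈ s.erase j, riemannZeta (1 + ((b i - b j : ℝ) : ℂ) * I)

/-- the polar part -/
noncomputable def Gz (s : Finset ι) (b : ι → ℝ) (w : ℂ) : ℂ := ∑ j ∈ s, rr s b j * (w + (b j : ℂ) * I - 1)⁻¹

/-- the poles -/
def PS (s : Finset ι) (b : ι → ℝ) : Set ℂ := (fun j => (1 : ℂ) - (b j : ℂ) * I) '' (s : Set ι)

omit [DecidableEq ι] in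
lemma PS_finite (s : Finset ι) (b : ι → ℝ) : (PS s b).Finite := s.finite_toSet.image _

omit [DecidableEq ι] in
lemma PS_ne {s : Finset ι} {b : ι → ℝ} {w : ℂ} (hw : w ∉ PS s b) {j : ι} (hj : j ∈ s) : w + (b j : ℂ) * I ≠ 1 := by
  intro h
  apply hw
  refine ⟨j, hj, ?_⟩
  simp only
  rw [← h]
  ring

omit [DecidableEq ι] in
lemma Fz_diff (s : Finset ι) (b : ι → ℝ) {w : ℂ} (hw : ∀ j ∈ s, w + (b j : ℂ) * I ≠ 1) : DifferentiableAt ℂ (Fz s b) w := by
  unfold Fz
  apply DifferentiableAt.fun_finsetProd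
  intro j hj
  exact (differentiableAt_riemannZeta (hw j hj)).comp w ((differentiableAt_id).add_const _)

lemma Gz_diff (s : Finset ι) (b : ι → ℝ) {w : ℂ} (hw : ∀ j ∈ s, w + (b j : ℂ) * I ≠ 1) : DifferentiableAt ℂ (Gz s b) w := by
  unfold Gz
  apply DifferentiableAt.fun_sum
  intro j hj
  apply DifferentiableAt.const_mul
  exact ((differentiableAt_id.add_const _).sub_const _).inv (sub_ne_zero.2 (hw j hj))

/-- the limits at the poles -/
lemma E0_lim {s : Finset ι} {b : ι → ℝ} (hb : Set.InjOn b s) {w : ℂ} (hw : w ∈ PS s b) :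
    ∃ L, Tendsto (fun w => Fz s b w - Gz s b w) (𝓝[≠] w) (𝓝 L) := by
  obtain ⟨j, hj, rfl⟩ := hw
  simp only
  have hj' : j ∈ s := hj
  obtain ⟨w0, hw0⟩ : ∃ w0 : ℂ, w0 = 1 - (b j : ℂ) * I := ⟨_, rfl⟩
  rw [← hw0]
  have hne : ∀ i ∈ s.erase j, w0 + (b i : ℂ) * I ≠ 1 := by
    intro i hi h
    rw [Finset.mem_erase] at hi
    apply hi.1
    apply hb hi.2 hj
    have h1 := congrArg Complex.im h
    rw [hw0] at h1
    simp at h1
    linarith
  have hF : DifferentiableAt ℂ (Fz (s.erase j) b) w0 := Fz_diff _ _ hne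
  have hFw : Fz (s.erase j) b w0 = rr s b j := by
    unfold Fz rr
    apply Finset.prod_congr rfl
    intro i _
    congr 1
    rw [hw0]
    push_cast
    ring
  -- the shifted variable
  have hv : Tendsto (fun w : ℂ => w + (b j : ℂ) * I) (𝓝[≠] w0) (𝓝[≠] 1) := by
    apply tendsto_nhdsWithin_of_tendsto_nhds_of_eventually_within
    · have : Tendsto (fun w : ℂ => w + (b j : ℂ) * I) (𝓝 w0) (𝓝 (w0 + (b j : ℂ) * I)) := by
        apply Continuous.tendsto; fun_prop
      have e : w0 + (b j : ℂ) * I = 1 := by rw [hw0]; ring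
      rw [e] at this
      exact this.mono_left nhdsWithin_le_nhds
    · filter_upwards [self_mem_nhdsWithin] with w hw
      intro h
      apply hw
      rw [mem_singleton_iff] at h ⊢
      rw [hw0, ← h]; ring
  have l1 := tendsto_riemannZeta_sub_one_div.comp hv
  have l2 : Tendsto (Fz (s.erase j) b) (𝓝[≠] w0) (𝓝 (Fz (s.erase j) b w0)) :=
    hF.continuousAt.tendsto.mono_left nhdsWithin_le_nhds
  have l3 := hF.hasDerivAt.tendsto_slope
  have l4 : Tendsto (fun w => ∑ i ∈ s.erase j, rr s b i * (w + (b i : ℂ) * I - 1)⁻¹) (𝓝[≠] w0)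
      (𝓝 (∑ i ∈ s.erase j, rr s b i * (w0 + (b i : ℂ) * I - 1)⁻¹)) := by
    apply tendsto_finsetSum
    intro i hi
    have h1 : ContinuousAt (fun w : ℂ => rr s b i * (w + (b i : ℂ) * I - 1)⁻¹) w0 := by
      apply ContinuousAt.mul continuousAt_const
      apply ContinuousAt.inv₀ (by fun_prop)
      exact sub_ne_zero.2 (hne i hi)
    exact h1.tendsto.mono_left nhdsWithin_le_nhds
  refine ⟨_, (((l1.mul l2).add l3).sub l4).congr' ?_⟩
  filter_upwards [self_mem_nhdsWithin] with w hw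
  have hw1 : w - w0 ≠ 0 := sub_ne_zero.2 hw
  have e1 : w + (b j : ℂ) * I - 1 = w - w0 := by rw [hw0]; ring
  have eF : Fz s b w = riemannZeta (w + (b j : ℂ) * I) * Fz (s.erase j) b w :=
    (Finset.mul_prod_erase s (fun j => riemannZeta (w + (b j : ℂ) * I)) hj').symm
  have eG : Gz s b w = rr s b j * (w + (b j : ℂ) * I - 1)⁻¹ + ∑ i ∈ s.erase j, rr s b i * (w + (b i : ℂ) * I - 1)⁻¹ :=
    (Finset.add_sum_erase s (fun j => rr s b j * (w + (b j : ℂ) * I - 1)⁻¹) hj').symm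
  simp only [Function.comp]
  rw [eF, eG, e1, slope_def_field, hFw]
  field_simp
  ring

end Pool.Agent.N30.SM
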