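import Pool.Agent.N30.SM.Bb

set_option autoImplicit false

/-! Moving the line of integration for the product of shifted zeta functions without its polar part. -/

open Complex MeasureTheory Set Filter Topology

namespace Pool.Agent.N30.SM

/-- vertical shift of a line of integration -/
lemma vshift {g : ℂ → ℂ} {S : Set ℂ} (hS : S.Countable) (hc : Continuous g) (hd : ∀ w ∉ S, DifferentiableAt ℂ g w) {a b : ℝ}
    (hab : a ≤ b) (h1 : Integrable (fun t : ℝ => g ((a : ℂ) + t * I))) (h2 : Integrable (fun t : ℝ => g ((b : ℂ) + t * I)))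
    (M : ℝ → ℝ) (hM : Tendsto M atTop (𝓝 0))
    (hh : ∀ᶠ H : ℝ in atTop, ∀ x ∈ Icc a b, ‖g ((x : ℂ) + (H : ℂ) * I)‖ ≤ M H ∧ ‖g ((x : ℂ) + ((-H : ℝ) : ℂ) * I)‖ ≤ M H) :
    ∫ t : ℝ, g ((a : ℂ) + t * I) = ∫ t : ℝ, g ((b : ℂ) + t * I) := by
  have l1 := intervalIntegral_tendsto_integral h1 tendsto_neg_atTop_atBot tendsto_id
  have l2 := intervalIntegral_tendsto_integral h2 tendsto_neg_atTop_atBot tendsto_id
  have l3 : Tendsto (fun H : ℝ => (∫ t in (-H)..H, g ((b : ℂ) + t * I)) - ∫ t in (-H)..H, g ((a : ℂ) + t * I)) atTop (𝓝 0) := by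
    apply squeeze_zero_norm' (a := fun H => 2 * ((b - a) * M H))
    · filter_upwards [hh] with H hH
      have hrect := Complex.integral_boundary_rect_eq_zero_of_differentiable_on_off_countable g (⟨a, -H⟩ : ℂ) (⟨b, H⟩ : ℂ) S hS
        hc.continuousOn (fun x hx => hd x hx.2)
      simp only [smul_eq_mul] at hrect
      have b1 : ‖∫ x : ℝ in a..b, g ((x : ℂ) + ((-H : ℝ) : ℂ) * I)‖ ≤ M H * |b - a| :=
        intervalIntegral.norm_integral_le_of_norm_le_const fun x hx => by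
          rw [uIoc_of_le hab] at hx
          exact (hH x ⟨hx.1.le, hx.2⟩).2
      have b2 : ‖∫ x : ℝ in a..b, g ((x : ℂ) + (H : ℂ) * I)‖ ≤ M H * |b - a| :=
        intervalIntegral.norm_integral_le_of_norm_le_const fun x hx => by
          rw [uIoc_of_le hab] at hx
          exact (hH x ⟨hx.1.le, hx.2⟩).1
      rw [abs_of_nonneg (by linarith)] at b1 b2
      obtain ⟨A, hA⟩ : ∃ A, A = ∫ x : ℝ in a..b, g ((x : ℂ) + ((-H : ℝ) : ℂ) * I) := ⟨_, rfl⟩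
      obtain ⟨B, hB⟩ : ∃ B, B = ∫ x : ℝ in a..b, g ((x : ℂ) + (H : ℂ) * I) := ⟨_, rfl⟩
      rw [← hA] at b1 hrect
      rw [← hB] at b2 hrect
      obtain ⟨V, hV⟩ : ∃ V, V = (∫ t in (-H)..H, g ((b : ℂ) + t * I)) - ∫ t in (-H)..H, g ((a : ℂ) + t * I) := ⟨_, rfl⟩
      have e1 : I * V = B - A := by rw [hV]; linear_combination hrect
      rw [← hV]
      have e2 : ‖V‖ = ‖B - A‖ := by rw [← e1, norm_mul, norm_I, one_mul]
      rw [e2]
      refine (norm_sub_le _ _).trans ?_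
      linarith
    · have := (hM.const_mul (b - a)).const_mul 2
      simpa using this
  have l4 := l2.sub l1
  have l5 := tendsto_nhds_unique l4 l3
  exact (sub_eq_zero.1 l5).symm

/-- the kernel -/
noncomputable def kk (U Λ : ℝ) (w : ℂ) : ℂ := cexp (w * Real.log U + w ^ 2 / (Λ : ℂ) ^ 2)

lemma kk_norm (U Λ x y : ℝ) : ‖kk U Λ ((x : ℂ) + (y : ℂ) * I)‖ = Real.exp (x * Real.log U + (x ^ 2 - y ^ 2) / Λ ^ 2) := by
  unfold kk
  rw [Complex.norm_exp]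
  congr 1
  have e : ((x : ℂ) + (y : ℂ) * I) * (Real.log U : ℂ) + ((x : ℂ) + (y : ℂ) * I) ^ 2 / (Λ : ℂ) ^ 2 =
      ((x * Real.log U + (x ^ 2 - y ^ 2) / Λ ^ 2 : ℝ) : ℂ) + ((y * Real.log U + 2 * x * y / Λ ^ 2 : ℝ) : ℂ) * I := by
    have hI : I ^ 2 = -1 := I_sq
    push_cast
    linear_combination ((y : ℂ) ^ 2 / (Λ : ℂ) ^ 2) * hI
  rw [e]
  generalize y * Real.log U + 2 * x * y / Λ ^ 2 = v
  generalize x * Real.log U + (x ^ 2 - y ^ 2) / Λ ^ 2 = u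
  simp

lemma kk_diff (U Λ : ℝ) : Differentiable ℂ (kk U Λ) := by
  unfold kk
  fun_prop

/-- polynomials against the Gaussian -/
lemma pexp (K : ℕ) {Λ : ℝ} (hΛ : 1 ≤ Λ) (t : ℝ) : (1 + |t|) ^ K * Real.exp (-(t ^ 2 / Λ ^ 2)) ≤
    (K.factorial * Real.exp (3 / 2) * Λ ^ K) * Real.exp (-(1 / (2 * Λ ^ 2)) * t ^ 2) := by
  have hΛ0 : 0 < Λ := by linarith
  obtain ⟨x, hx⟩ : ∃ x, x = |t| / Λ := ⟨_, rfl⟩
  have hx0 : 0 ≤ x := by rw [hx]; positivity
  have h1 : 1 + |t| ≤ Λ * (1 + x) := by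
    rw [hx, mul_add, mul_one, mul_div_cancel₀ _ hΛ0.ne']
    linarith
  have h2 : (1 + x) ^ K ≤ K.factorial * Real.exp (1 + x) := by
    have := Real.pow_div_factorial_le_exp (1 + x) (by linarith) K
    rw [div_le_iff₀ (by positivity)] at this
    linarith
  have h3 : Real.exp (1 + x) ≤ Real.exp (3 / 2) * Real.exp (x ^ 2 / 2) := by
    rw [← Real.exp_add]
    apply Real.exp_le_exp.2
    nlinarith [sq_nonneg (x - 1)]
  have e1 : t ^ 2 / Λ ^ 2 = x ^ 2 := by rw [hx, div_pow, sq_abs]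
  have e2 : -(1 / (2 * Λ ^ 2)) * t ^ 2 = -(x ^ 2 / 2) := by rw [← e1]; ring
  rw [e1, e2]
  have e3 : Real.exp (x ^ 2 / 2) * Real.exp (-(x ^ 2)) = Real.exp (-(x ^ 2 / 2)) := by
    rw [← Real.exp_add]; congr 1; ring
  calc (1 + |t|) ^ K * Real.exp (-(x ^ 2)) ≤ (Λ * (1 + x)) ^ K * Real.exp (-(x ^ 2)) :=
        mul_le_mul_of_nonneg_right (pow_le_pow_left₀ (by positivity) h1 K) (Real.exp_pos _).le
    _ = Λ ^ K * (1 + x) ^ K * Real.exp (-(x ^ 2)) := by rw [mul_pow]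
    _ ≤ Λ ^ K * (K.factorial * (Real.exp (3 / 2) * Real.exp (x ^ 2 / 2))) * Real.exp (-(x ^ 2)) := by
        apply mul_le_mul_of_nonneg_right _ (Real.exp_pos _).le
        apply mul_le_mul_of_nonneg_left _ (by positivity)
        exact h2.trans (mul_le_mul_of_nonneg_left h3 (by positivity))
    _ = K.factorial * Real.exp (3 / 2) * Λ ^ K * (Real.exp (x ^ 2 / 2) * Real.exp (-(x ^ 2))) := by ring
    _ = _ := by rw [e3]

lemma gauss_int {Λ : ℝ} (hΛ : 0 < Λ) : Integrable (fun t : ℝ => Real.exp (-(1 / (2 * Λ ^ 2)) * t ^ 2)) ∧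
    ∫ t : ℝ, Real.exp (-(1 / (2 * Λ ^ 2)) * t ^ 2) ≤ 3 * Λ := by
  refine ⟨integrable_exp_neg_mul_sq (by positivity), ?_⟩
  rw [integral_gaussian]
  have e : Real.pi / (1 / (2 * Λ ^ 2)) = 2 * Real.pi * Λ ^ 2 := by field_simp
  rw [e]
  apply Real.sqrt_le_iff.2
  refine ⟨by positivity, ?_⟩
  have := Real.pi_lt_d2
  nlinarith [sq_nonneg Λ, sq_pos_of_pos hΛ]

variable {ι : Type} [DecidableEq ι]

/-- a bound for the shifts and the residues -/
noncomputable def MB (s : Finset ι) (b : ι → ℝ) : ℝ := 1 + (∑ j ∈ s, |b j|) + ∑ j ∈ s, ‖rr s b j‖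

lemma MB_pos (s : Finset ι) (b : ι → ℝ) : 1 ≤ MB s b := by
  unfold MB
  have h1 : 0 ≤ ∑ j ∈ s, |b j| := Finset.sum_nonneg fun _ _ => abs_nonneg _
  have h2 : 0 ≤ ∑ j ∈ s, ‖rr s b j‖ := Finset.sum_nonneg fun _ _ => norm_nonneg _
  linarith

lemma MB_b {s : Finset ι} {b : ι → ℝ} {j : ι} (hj : j ∈ s) : 1 + |b j| ≤ MB s b := by
  unfold MB
  have h1 : |b j| ≤ ∑ j ∈ s, |b j| := Finset.single_le_sum (f := fun j => |b j|) (fun _ _ => abs_nonneg _) hj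
  have h2 : 0 ≤ ∑ j ∈ s, ‖rr s b j‖ := Finset.sum_nonneg fun _ _ => norm_nonneg _
  linarith

lemma MB_r (s : Finset ι) (b : ι → ℝ) : ∑ j ∈ s, ‖rr s b j‖ ≤ MB s b := by
  unfold MB
  have h1 : 0 ≤ ∑ j ∈ s, |b j| := Finset.sum_nonneg fun _ _ => abs_nonneg _
  linarith

lemma Gz_bd {s : Finset ι} {b : ι → ℝ} {w : ℂ} {c : ℝ} (hc : 0 < c) (h : ∀ j ∈ s, c ≤ ‖w + (b j : ℂ) * I - 1‖) :
    ‖Gz s b w‖ ≤ MB s b / c := by
  unfold Gz
  refine (norm_sum_le _ _).trans ?_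
  calc ∑ j ∈ s, ‖rr s b j * (w + (b j : ℂ) * I - 1)⁻¹‖ ≤ ∑ j ∈ s, ‖rr s b j‖ * c⁻¹ := by
        apply Finset.sum_le_sum
        intro j hj
        rw [norm_mul, norm_inv]
        exact mul_le_mul_of_nonneg_left (inv_anti₀ hc (h j hj)) (norm_nonneg _)
    _ = (∑ j ∈ s, ‖rr s b j‖) / c := by rw [← Finset.sum_mul]; rfl
    _ ≤ _ := div_le_div_of_nonneg_right (MB_r s b) hc.le

omit [DecidableEq ι] in
lemma Fz_bd {s : Finset ι} {b : ι → ℝ} {w : ℂ} {c : ℝ} (h : ∀ j ∈ s, ‖riemannZeta (w + (b j : ℂ) * I)‖ ≤ c) :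
    ‖Fz s b w‖ ≤ c ^ s.card := by
  unfold Fz
  rw [norm_prod, ← Finset.prod_const]
  exact Finset.prod_le_prod (fun _ _ => norm_nonneg _) h

/-- the bound on the critical line -/
lemma E_half (s : Finset ι) (b : ι → ℝ) (t : ℝ) :
    ‖Fz s b (((1 / 2 : ℝ) : ℂ) + t * I) - Gz s b (((1 / 2 : ℝ) : ℂ) + t * I)‖ ≤ ((9 * MB s b) ^ s.card + 2 * MB s b) * (1 + |t|) ^ s.card := by
  have hM := MB_pos s b
  have h1 : ‖Fz s b (((1 / 2 : ℝ) : ℂ) + t * I)‖ ≤ (9 * MB s b * (1 + |t|)) ^ s.card := by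
    apply Fz_bd
    intro j hj
    have e : (((1 / 2 : ℝ) : ℂ) + t * I) + (b j : ℂ) * I = ((1 / 2 : ℝ) : ℂ) + ((t + b j : ℝ) : ℂ) * I := by push_cast; ring
    rw [e]
    have e1 : (((1 / 2 : ℝ) : ℂ) + ((t + b j : ℝ) : ℂ) * I).re = 1 / 2 := by simp
    have e2 : (((1 / 2 : ℝ) : ℂ) + ((t + b j : ℝ) : ℂ) * I).im = t + b j := by simp
    have h2 := Pool.Agent.H388LH.zeta_growth' (s := ((1 / 2 : ℝ) : ℂ) + ((t + b j : ℝ) : ℂ) * I) (by rw [e1]; norm_num) (by rw [e1]; norm_num)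
    rw [e2] at h2
    refine h2.trans ?_
    have h3 : 1 + |t + b j| ≤ MB s b * (1 + |t|) := by
      have h4 := MB_b (b := b) hj
      have h5 := abs_add_le t (b j)
      have h6 : 0 ≤ |b j| := abs_nonneg _
      have h7 : 0 ≤ |t| := abs_nonneg _
      nlinarith
    nlinarith
  have h2 : ‖Gz s b (((1 / 2 : ℝ) : ℂ) + t * I)‖ ≤ MB s b / (1 / 2) := by
    apply Gz_bd (by norm_num)
    intro j hj
    have h3 := Complex.abs_re_le_norm ((((1 / 2 : ℝ) : ℂ) + t * I) + (b j : ℂ) * I - 1)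
    have e : ((((1 / 2 : ℝ) : ℂ) + t * I) + (b j : ℂ) * I - 1).re = -(1 / 2) := by simp; norm_num
    rw [e, abs_neg, abs_of_pos (by norm_num)] at h3
    exact h3
  have h3 : 1 ≤ (1 + |t|) ^ s.card := one_le_pow₀ (by linarith [abs_nonneg t])
  rw [mul_pow] at h1
  have h4 : MB s b / (1 / 2) = 2 * MB s b * 1 := by ring
  rw [h4] at h2
  have h5 : 2 * MB s b * 1 ≤ 2 * MB s b * (1 + |t|) ^ s.card := mul_le_mul_of_nonneg_left h3 (by linarith)
  refine (norm_sub_le _ _).trans ?_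
  rw [add_mul]
  linarith

/-- the bound on horizontal segments -/
lemma E_hor (s : Finset ι) (b : ι → ℝ) {x y : ℝ} (hx : 1 / 2 ≤ x) (hx2 : x ≤ 2) (hy : MB s b ≤ |y|) :
    ‖Fz s b ((x : ℂ) + (y : ℂ) * I) - Gz s b ((x : ℂ) + (y : ℂ) * I)‖ ≤ ((24 * MB s b) ^ s.card + MB s b) * (1 + |y|) ^ s.card := by
  have hM := MB_pos s b
  have him : ∀ j ∈ s, 1 ≤ |y + b j| := by
    intro j hj
    have h1 := MB_b (b := b) hj
    have h2 := abs_sub_abs_le_abs_sub y (-b j)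
    rw [abs_neg, sub_neg_eq_add] at h2
    linarith
  have h1 : ‖Fz s b ((x : ℂ) + (y : ℂ) * I)‖ ≤ (24 * MB s b * (1 + |y|)) ^ s.card := by
    apply Fz_bd
    intro j hj
    have e : ((x : ℂ) + (y : ℂ) * I) + (b j : ℂ) * I = (x : ℂ) + ((y + b j : ℝ) : ℂ) * I := by push_cast; ring
    rw [e]
    obtain ⟨v, hv⟩ : ∃ v : ℝ, v = y + b j := ⟨_, rfl⟩
    have hv1 : 1 ≤ |v| := by rw [hv]; exact him j hj
    rw [← hv]
    have h2 : ‖riemannZeta ((x : ℂ) + (v : ℂ) * I)‖ ≤ 6 * ‖(x : ℂ) + (v : ℂ) * I‖ := by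
      rcases le_total 0 v with h | h
      · rw [abs_of_nonneg h] at hv1
        exact Pool.Agent.H388LH.zeta_growth (by simp; linarith) (by simpa using hv1)
      · rw [abs_of_nonpos h] at hv1
        have e2 : ((x : ℂ) + (v : ℂ) * I) = (starRingEnd ℂ) ((x : ℂ) + ((-v : ℝ) : ℂ) * I) := by
          apply Complex.ext <;> simp
        rw [e2, riemannZeta_conj, RCLike.norm_conj, RCLike.norm_conj]
        exact Pool.Agent.H388LH.zeta_growth (by simp; linarith) (by simpa using hv1)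
    refine h2.trans ?_
    have h3 : ‖(x : ℂ) + (v : ℂ) * I‖ ≤ 2 + |v| := by
      refine (norm_add_le _ _).trans ?_
      rw [norm_mul, norm_I, mul_one, Complex.norm_real, Complex.norm_real, Real.norm_eq_abs, Real.norm_eq_abs, abs_of_nonneg (by linarith)]
      linarith
    have h4 : 2 + |v| ≤ 4 * (MB s b * (1 + |y|)) := by
      have h5 := MB_b (b := b) hj
      have h6 := abs_add_le y (b j)
      rw [← hv] at h6
      have h7 : 0 ≤ |b j| := abs_nonneg _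
      have h8 : 0 ≤ |y| := abs_nonneg _
      nlinarith
    nlinarith
  have h2 : ‖Gz s b ((x : ℂ) + (y : ℂ) * I)‖ ≤ MB s b / 1 := by
    apply Gz_bd (by norm_num)
    intro j hj
    have h3 := Complex.abs_im_le_norm (((x : ℂ) + (y : ℂ) * I) + (b j : ℂ) * I - 1)
    have e : (((x : ℂ) + (y : ℂ) * I) + (b j : ℂ) * I - 1).im = y + b j := by simp
    rw [e] at h3
    exact (him j hj).trans h3
  have h3 : 1 ≤ (1 + |y|) ^ s.card := one_le_pow₀ (by linarith [abs_nonneg y])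
  rw [mul_pow] at h1
  have h5 : MB s b * 1 ≤ MB s b * (1 + |y|) ^ s.card := mul_le_mul_of_nonneg_left h3 (by linarith)
  refine (norm_sub_le _ _).trans ?_
  rw [add_mul]
  linarith

/-- the bound on the line `Re w = 2` -/
lemma E_two (s : Finset ι) (b : ι → ℝ) (t : ℝ) :
    ‖Fz s b (((2 : ℝ) : ℂ) + t * I)‖ ≤ 2 ^ s.card ∧ ‖Gz s b (((2 : ℝ) : ℂ) + t * I)‖ ≤ MB s b := by
  constructor
  · apply Fz_bd
    intro j hj
    apply Pool.Agent.W188.Ray.norm_zeta_le_two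
    simp
  · rw [← div_one (MB s b)]
    apply Gz_bd (by norm_num)
    intro j hj
    have h3 := Complex.abs_re_le_norm ((((2 : ℝ) : ℂ) + t * I) + (b j : ℂ) * I - 1)
    have e : ((((2 : ℝ) : ℂ) + t * I) + (b j : ℂ) * I - 1).re = 1 := by simp; norm_num
    rw [e, abs_one] at h3
    exact h3

/-- **the shift**, with the bound on the critical line -/
theorem E_shift {s : Finset ι} {b : ι → ℝ} (hb : Set.InjOn b s) : ∃ C : ℝ, 0 ≤ C ∧ ∀ U Λ : ℝ, 1 ≤ U → 1 ≤ Λ →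
    Integrable (fun t : ℝ => (Fz s b (((2 : ℝ) : ℂ) + t * I) - Gz s b (((2 : ℝ) : ℂ) + t * I)) * kk U Λ (((2 : ℝ) : ℂ) + t * I)) ∧
    ‖∫ t : ℝ, (Fz s b (((2 : ℝ) : ℂ) + t * I) - Gz s b (((2 : ℝ) : ℂ) + t * I)) * kk U Λ (((2 : ℝ) : ℂ) + t * I)‖ ≤
      C * (U ^ (1 / 2 : ℝ) * Λ ^ (s.card + 1)) := by
  obtain ⟨K, hK⟩ : ∃ K, K = s.card := ⟨_, rfl⟩
  have hM := MB_pos s b
  obtain ⟨g, hg1, hg2, hg3⟩ := ext_cont (f := fun w => Fz s b w - Gz s b w) (PS_finite s b)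
    (fun w hw => (Fz_diff s b fun j hj => PS_ne hw hj).sub (Gz_diff s b fun j hj => PS_ne hw hj)) (fun w hw => E0_lim hb hw)
  obtain ⟨D, hD⟩ : ∃ D, D = (9 * MB s b) ^ s.card + 2 * MB s b := ⟨_, rfl⟩
  have hD0 : 0 ≤ D := by rw [hD]; positivity
  obtain ⟨D2, hD2⟩ : ∃ D2, D2 = (24 * MB s b) ^ s.card + MB s b := ⟨_, rfl⟩
  have hD20 : 0 ≤ D2 := by rw [hD2]; positivity
  obtain ⟨cK, hcK⟩ : ∃ cK : ℝ, cK = K.factorial * Real.exp (3 / 2) := ⟨_, rfl⟩
  have hcK0 : 0 ≤ cK := by rw [hcK]; positivity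
  refine ⟨D * (cK * Real.exp 1 * 3), by positivity, fun U Λ hU hΛ => ?_⟩
  have hU0 : 0 < U := by linarith
  have hΛ0 : 0 < Λ := by linarith
  have hLU : 0 ≤ Real.log U := Real.log_nonneg hU
  -- points of the lines are not poles
  have hline : ∀ (x t : ℝ), x ≠ 1 → ((x : ℂ) + t * I) ∉ PS s b := by
    intro x t hx
    rintro ⟨j, -, hj⟩
    have := congrArg Complex.re hj
    simp at this
    exact hx this.symm
  have hgl : ∀ (x t : ℝ), x ≠ 1 → g ((x : ℂ) + t * I) = Fz s b ((x : ℂ) + t * I) - Gz s b ((x : ℂ) + t * I) := fun x t hx =>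
    hg1 _ (hline x t hx)
  have hline2 : ∀ y x : ℝ, MB s b ≤ |y| → ((x : ℂ) + (y : ℂ) * I) ∉ PS s b := by
    intro y x hy
    rintro ⟨j, hj, h⟩
    have h1 := congrArg Complex.im h
    simp at h1
    have h2 := MB_b (b := b) (s := s) hj
    rw [← h1, abs_neg] at hy
    linarith
  -- exponent bounds
  have hq : ∀ x : ℝ, 1 / 2 ≤ x → x ≤ 2 → ∀ y : ℝ, ‖kk U Λ ((x : ℂ) + (y : ℂ) * I)‖ ≤ Real.exp (x * Real.log U + 4) * Real.exp (-(y ^ 2 / Λ ^ 2)) := by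
    intro x hx hx2 y
    rw [kk_norm, ← Real.exp_add]
    apply Real.exp_le_exp.2
    have h1 : x ^ 2 / Λ ^ 2 ≤ 4 := by
      rw [div_le_iff₀ (by positivity)]
      have h2 : 1 ≤ Λ ^ 2 := one_le_pow₀ hΛ
      nlinarith
    rw [sub_div]
    linarith
  have hhalf : ∀ y : ℝ, ‖kk U Λ (((1 / 2 : ℝ) : ℂ) + (y : ℂ) * I)‖ ≤ U ^ (1 / 2 : ℝ) * Real.exp 1 * Real.exp (-(y ^ 2 / Λ ^ 2)) := by
    intro y
    rw [kk_norm, Real.rpow_def_of_pos hU0, ← Real.exp_add, ← Real.exp_add]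
    apply Real.exp_le_exp.2
    have h1 : (1 / 2 : ℝ) ^ 2 / Λ ^ 2 ≤ 1 := by
      rw [div_le_iff₀ (by positivity)]
      have h2 : 1 ≤ Λ ^ 2 := one_le_pow₀ hΛ
      linarith
    rw [sub_div]
    linarith
  obtain ⟨hGi, hGb⟩ := gauss_int hΛ0
  have hcont : Continuous fun w => g w * kk U Λ w := hg3.mul (kk_diff U Λ).continuous
  have hbh : ∀ t : ℝ, ‖g (((1 / 2 : ℝ) : ℂ) + t * I) * kk U Λ (((1 / 2 : ℝ) : ℂ) + t * I)‖ ≤
      D * (U ^ (1 / 2 : ℝ) * Real.exp 1) * ((cK * Λ ^ K) * Real.exp (-(1 / (2 * Λ ^ 2)) * t ^ 2)) := by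
    intro t
    rw [norm_mul, hgl _ _ (by norm_num)]
    have h1 := E_half s b t
    rw [← hD, ← hK] at h1
    have h2 := pexp K hΛ t
    rw [← hcK] at h2
    calc _ ≤ (D * (1 + |t|) ^ K) * (U ^ (1 / 2 : ℝ) * Real.exp 1 * Real.exp (-(t ^ 2 / Λ ^ 2))) :=
          mul_le_mul h1 (hhalf t) (norm_nonneg _) (by positivity)
      _ = D * (U ^ (1 / 2 : ℝ) * Real.exp 1) * ((1 + |t|) ^ K * Real.exp (-(t ^ 2 / Λ ^ 2))) := by ring
      _ ≤ _ := mul_le_mul_of_nonneg_left h2 (by positivity)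
  have hi1 : Integrable (fun t : ℝ => g (((1 / 2 : ℝ) : ℂ) + t * I) * kk U Λ (((1 / 2 : ℝ) : ℂ) + t * I)) := by
    refine Integrable.mono' ((hGi.const_mul (cK * Λ ^ K)).const_mul (D * (U ^ (1 / 2 : ℝ) * Real.exp 1))) ?_ (Eventually.of_forall hbh)
    exact (hcont.comp (by fun_prop : Continuous fun t : ℝ => (((1 / 2 : ℝ) : ℂ) + t * I))).aestronglyMeasurable
  have hi2 : Integrable (fun t : ℝ => g (((2 : ℝ) : ℂ) + t * I) * kk U Λ (((2 : ℝ) : ℂ) + t * I)) := by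
    refine Integrable.mono' (hGi.const_mul ((2 ^ s.card + MB s b) * Real.exp (2 * Real.log U + 4))) ?_ (Eventually.of_forall fun t => ?_)
    · exact (hcont.comp (by fun_prop : Continuous fun t : ℝ => (((2 : ℝ) : ℂ) + t * I))).aestronglyMeasurable
    · rw [norm_mul, hgl _ _ (by norm_num)]
      obtain ⟨h1, h2⟩ := E_two s b t
      have h3 : ‖Fz s b (((2 : ℝ) : ℂ) + t * I) - Gz s b (((2 : ℝ) : ℂ) + t * I)‖ ≤ 2 ^ s.card + MB s b :=
        (norm_sub_le _ _).trans (add_le_add h1 h2)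
      have h4 := hq 2 (by norm_num) le_rfl t
      have h5 : Real.exp (-(t ^ 2 / Λ ^ 2)) ≤ Real.exp (-(1 / (2 * Λ ^ 2)) * t ^ 2) := by
        apply Real.exp_le_exp.2
        have h6 : t ^ 2 / Λ ^ 2 = 1 / Λ ^ 2 * t ^ 2 := by ring
        have h7 : -(1 / (2 * Λ ^ 2)) * t ^ 2 = -(1 / Λ ^ 2 * t ^ 2) / 2 := by field_simp
        rw [h6, h7]
        have : 0 ≤ 1 / Λ ^ 2 * t ^ 2 := by positivity
        linarith
      calc _ ≤ (2 ^ s.card + MB s b) * (Real.exp (2 * Real.log U + 4) * Real.exp (-(t ^ 2 / Λ ^ 2))) :=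
            mul_le_mul h3 h4 (norm_nonneg _) (by positivity)
        _ ≤ (2 ^ s.card + MB s b) * (Real.exp (2 * Real.log U + 4) * Real.exp (-(1 / (2 * Λ ^ 2)) * t ^ 2)) := by
            apply mul_le_mul_of_nonneg_left _ (by positivity)
            exact mul_le_mul_of_nonneg_left h5 (Real.exp_pos _).le
        _ = _ := by ring
  have hshift := vshift (g := fun w => g w * kk U Λ w) (PS_finite s b).countable hcont
    (fun w hw => (hg2 w hw).mul (kk_diff U Λ w)) (a := 1 / 2) (b := 2) (by norm_num) hi1 hi2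
    (fun H => D2 * Real.exp (2 * Real.log U + 4) * (cK * Λ ^ K) * Real.exp (-(1 / (2 * Λ ^ 2)) * H ^ 2)) (by
      have h1 : Tendsto (fun H : ℝ => -(1 / (2 * Λ ^ 2)) * H ^ 2) atTop atBot :=
        (tendsto_pow_atTop (by norm_num)).const_mul_atTop_of_neg (by
          have : 0 < 1 / (2 * Λ ^ 2) := by positivity
          linarith)
      have h2 := (Real.tendsto_exp_atBot.comp h1).const_mul (D2 * Real.exp (2 * Real.log U + 4) * (cK * Λ ^ K))
      rwa [mul_zero] at h2) (by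
      filter_upwards [eventually_ge_atTop (MB s b)] with H hH x hx
      have hHa : MB s b ≤ |H| := hH.trans (le_abs_self _)
      have key : ∀ y : ℝ, |y| = |H| → ‖g ((x : ℂ) + (y : ℂ) * I) * kk U Λ ((x : ℂ) + (y : ℂ) * I)‖ ≤
          D2 * Real.exp (2 * Real.log U + 4) * (cK * Λ ^ K) * Real.exp (-(1 / (2 * Λ ^ 2)) * H ^ 2) := by
        intro y hy
        have hy1 : MB s b ≤ |y| := by rw [hy]; exact hHa
        rw [norm_mul, hg1 _ (hline2 y x hy1)]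
        have h1 := E_hor s b hx.1 hx.2 hy1
        rw [← hD2, ← hK] at h1
        have h2 := hq x hx.1 hx.2 y
        have h3 : Real.exp (x * Real.log U + 4) ≤ Real.exp (2 * Real.log U + 4) := by
          apply Real.exp_le_exp.2
          have := mul_le_mul_of_nonneg_right hx.2 hLU
          linarith
        have h4 := pexp K hΛ y
        rw [← hcK] at h4
        have hsq : y ^ 2 = H ^ 2 := by rw [← sq_abs y, hy, sq_abs]
        calc _ ≤ (D2 * (1 + |y|) ^ K) * (Real.exp (2 * Real.log U + 4) * Real.exp (-(y ^ 2 / Λ ^ 2))) := by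
              apply mul_le_mul h1 _ (norm_nonneg _) (by positivity)
              exact h2.trans (mul_le_mul_of_nonneg_right h3 (Real.exp_pos _).le)
          _ = D2 * Real.exp (2 * Real.log U + 4) * ((1 + |y|) ^ K * Real.exp (-(y ^ 2 / Λ ^ 2))) := by ring
          _ ≤ D2 * Real.exp (2 * Real.log U + 4) * ((cK * Λ ^ K) * Real.exp (-(1 / (2 * Λ ^ 2)) * y ^ 2)) :=
              mul_le_mul_of_nonneg_left h4 (by positivity)
          _ = _ := by rw [hsq]; ring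
      exact ⟨key H rfl, key (-H) (by rw [abs_neg])⟩)
  have e2 : (fun t : ℝ => g (((2 : ℝ) : ℂ) + t * I) * kk U Λ (((2 : ℝ) : ℂ) + t * I)) =
      fun t : ℝ => (Fz s b (((2 : ℝ) : ℂ) + t * I) - Gz s b (((2 : ℝ) : ℂ) + t * I)) * kk U Λ (((2 : ℝ) : ℂ) + t * I) := by
    funext t
    rw [hgl _ _ (by norm_num)]
  rw [e2] at hi2 hshift
  refine ⟨hi2, ?_⟩
  rw [← hshift]
  refine (norm_integral_le_of_norm_le ((hGi.const_mul (cK * Λ ^ K)).const_mul (D * (U ^ (1 / 2 : ℝ) * Real.exp 1)))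
    (Eventually.of_forall hbh)).trans ?_
  rw [integral_const_mul, integral_const_mul]
  calc D * (U ^ (1 / 2 : ℝ) * Real.exp 1) * (cK * Λ ^ K * ∫ t : ℝ, Real.exp (-(1 / (2 * Λ ^ 2)) * t ^ 2)) ≤
      D * (U ^ (1 / 2 : ℝ) * Real.exp 1) * (cK * Λ ^ K * (3 * Λ)) := by
        apply mul_le_mul_of_nonneg_left _ (by positivity)
        exact mul_le_mul_of_nonneg_left hGb (by positivity)
    _ = _ := by rw [← hK, pow_succ]; ring

end Pool.Agent.N30.SM
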