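import Pool.Agent.N30.SM.Bc

set_option autoImplicit false

/-! Smoothed sums of the coefficients of products of shifted zeta functions. -/

open Complex MeasureTheory Set Filter Topology

namespace Pool.Agent.N30.SM

/-- the Gaussian in the logarithm -/
noncomputable def gl (U Λ u : ℝ) : ℝ := Real.exp (-(Λ ^ 2 * Real.log (U / u) ^ 2 / 4))

lemma gl_pos (U Λ u : ℝ) : 0 < gl U Λ u := Real.exp_pos _

lemma line_int {Λ : ℝ} (hΛ : 0 < Λ) (x : ℝ) :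
    ∫ t : ℝ, cexp ((((2 : ℝ) : ℂ) + t * I) * x + (((2 : ℝ) : ℂ) + t * I) ^ 2 / (Λ : ℂ) ^ 2) =
      ((√Real.pi * Λ * Real.exp (-(Λ ^ 2 * x ^ 2 / 4)) : ℝ) : ℂ) := by
  have hΛ' : (Λ : ℂ) ≠ 0 := by exact_mod_cast hΛ.ne'
  have h := integral_cexp_quadratic (b := ((-(1 / Λ ^ 2) : ℝ) : ℂ)) (by
    rw [Complex.ofReal_re]
    have : 0 < 1 / Λ ^ 2 := by positivity
    linarith) (I * (x + 4 / (Λ : ℂ) ^ 2)) (2 * x + 4 / (Λ : ℂ) ^ 2)
  have hI : I ^ 2 = -1 := I_sq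
  have e1 : (fun t : ℝ => cexp ((((2 : ℝ) : ℂ) + t * I) * x + (((2 : ℝ) : ℂ) + t * I) ^ 2 / (Λ : ℂ) ^ 2)) =
      fun t : ℝ => cexp (((-(1 / Λ ^ 2) : ℝ) : ℂ) * (t : ℂ) ^ 2 + I * (x + 4 / (Λ : ℂ) ^ 2) * t + (2 * x + 4 / (Λ : ℂ) ^ 2)) := by
    funext t
    congr 1
    push_cast
    linear_combination ((t : ℂ) ^ 2 / (Λ : ℂ) ^ 2) * hI
  rw [e1, h]
  have e2 : (Real.pi : ℂ) / -((-(1 / Λ ^ 2) : ℝ) : ℂ) = ((Real.pi * Λ ^ 2 : ℝ) : ℂ) := by
    push_cast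
    field_simp
  have e3 : ((Real.pi * Λ ^ 2 : ℝ) : ℂ) ^ (1 / 2 : ℂ) = ((√Real.pi * Λ : ℝ) : ℂ) := by
    have : (1 / 2 : ℂ) = ((1 / 2 : ℝ) : ℂ) := by push_cast; rfl
    rw [this, ← Complex.ofReal_cpow (by positivity), ← Real.sqrt_eq_rpow, Real.sqrt_mul Real.pi_pos.le, Real.sqrt_sq hΛ.le]
  have e4 : (2 * (x : ℂ) + 4 / (Λ : ℂ) ^ 2) - (I * (x + 4 / (Λ : ℂ) ^ 2)) ^ 2 / (4 * ((-(1 / Λ ^ 2) : ℝ) : ℂ)) =
      ((-(Λ ^ 2 * x ^ 2 / 4) : ℝ) : ℂ) := by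
    push_cast
    rw [mul_pow, hI]
    field_simp
    ring
  rw [e2, e3, e4, ← Complex.ofReal_exp, ← Complex.ofReal_mul]

lemma kk_cpow {U : ℝ} (hU : 0 < U) (Λ : ℝ) {u : ℝ} (hu : 0 < u) (w : ℂ) :
    (u : ℂ) ^ (-w) * kk U Λ w = cexp (w * ((Real.log (U / u) : ℝ) : ℂ) + w ^ 2 / (Λ : ℂ) ^ 2) := by
  unfold kk
  have hu' : (u : ℂ) ≠ 0 := by exact_mod_cast hu.ne'
  rw [Complex.cpow_def_of_ne_zero hu', ← Complex.exp_add, Real.log_div hU.ne' hu.ne', ← Complex.ofReal_log hu.le]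
  congr 1
  push_cast
  ring

lemma term_int {U Λ : ℝ} (hU : 0 < U) (hΛ : 0 < Λ) {u : ℝ} (hu : 0 < u) :
    ∫ t : ℝ, (u : ℂ) ^ (-(((2 : ℝ) : ℂ) + t * I)) * kk U Λ (((2 : ℝ) : ℂ) + t * I) = ((√Real.pi * Λ * gl U Λ u : ℝ) : ℂ) := by
  simp only [kk_cpow hU Λ hu]
  rw [line_int hΛ]
  rfl

lemma kl_norm (U Λ : ℝ) {u : ℝ} (hu : 0 < u) (t : ℝ) :
    ‖(u : ℂ) ^ (-(((2 : ℝ) : ℂ) + t * I)) * kk U Λ (((2 : ℝ) : ℂ) + t * I)‖ =
      u ^ (-(2 : ℝ)) * (Real.exp (2 * Real.log U + 4 / Λ ^ 2) * Real.exp (-(1 / Λ ^ 2) * t ^ 2)) := by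
  rw [norm_mul, kk_norm, Complex.norm_cpow_eq_rpow_re_of_pos hu, ← Real.exp_add]
  have e1 : (-(((2 : ℝ) : ℂ) + t * I)).re = -2 := by simp
  rw [e1]
  congr 2
  ring

lemma kl_cont (U Λ : ℝ) {u : ℝ} (hu : 0 < u) :
    Continuous fun t : ℝ => (u : ℂ) ^ (-(((2 : ℝ) : ℂ) + t * I)) * kk U Λ (((2 : ℝ) : ℂ) + t * I) := by
  apply Continuous.mul
  · apply Continuous.const_cpow (by fun_prop)
    left
    exact_mod_cast hu.ne'
  · exact (kk_diff U Λ).continuous.comp (by fun_prop)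

lemma gau_int {Λ : ℝ} (hΛ : 0 < Λ) : Integrable (fun t : ℝ => Real.exp (-(1 / Λ ^ 2) * t ^ 2)) :=
  integrable_exp_neg_mul_sq (by positivity)

lemma kl_int {U Λ : ℝ} (hΛ : 0 < Λ) {u : ℝ} (hu : 0 < u) :
    Integrable fun t : ℝ => (u : ℂ) ^ (-(((2 : ℝ) : ℂ) + t * I)) * kk U Λ (((2 : ℝ) : ℂ) + t * I) := by
  refine Integrable.mono' (((gau_int hΛ).const_mul (Real.exp (2 * Real.log U + 4 / Λ ^ 2))).const_mul (u ^ (-(2 : ℝ))))
    (kl_cont U Λ hu).aestronglyMeasurable (Eventually.of_forall fun t => ?_)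
  rw [kl_norm U Λ hu]

variable {ι : Type} [DecidableEq ι]

/-- the Dirichlet series against the kernel -/
lemma F_int (s : Finset ι) (b : ι → ℝ) {U Λ : ℝ} (hU : 0 < U) (hΛ : 0 < Λ) :
    ∫ t : ℝ, Fz s b (((2 : ℝ) : ℂ) + t * I) * kk U Λ (((2 : ℝ) : ℂ) + t * I) =
      ((√Real.pi * Λ : ℝ) : ℂ) * ∑' n : ℕ, cc s b n * ((gl U Λ n : ℝ) : ℂ) := by
  obtain ⟨R, hR⟩ : ∃ R : ℝ, R = ∫ t : ℝ, Real.exp (2 * Real.log U + 4 / Λ ^ 2) * Real.exp (-(1 / Λ ^ 2) * t ^ 2) := ⟨_, rfl⟩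
  obtain ⟨F, hF⟩ : ∃ F : ℕ → ℝ → ℂ, F = fun (n : ℕ) (t : ℝ) => cc s b n *
      ((n : ℂ) ^ (-(((2 : ℝ) : ℂ) + t * I)) * kk U Λ (((2 : ℝ) : ℂ) + t * I)) := ⟨_, rfl⟩
  have hFi : ∀ n, Integrable (F n) := by
    intro n
    rw [hF]
    rcases Nat.eq_zero_or_pos n with h | h
    · subst h
      simp only [ArithmeticFunction.map_zero, zero_mul]
      exact integrable_zero _ _ _
    · have h0 : (0 : ℝ) < n := by exact_mod_cast h
      have := (kl_int (U := U) hΛ h0).const_mul (cc s b n)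
      simpa only [Complex.ofReal_natCast] using this
  have hFn : ∀ n, ∫ t : ℝ, ‖F n t‖ = ‖cc s b n‖ * (n : ℝ) ^ (-(2 : ℝ)) * R := by
    intro n
    rw [hF]
    rcases Nat.eq_zero_or_pos n with h | h
    · subst h
      simp
    · have h0 : (0 : ℝ) < n := by exact_mod_cast h
      rw [hR, ← integral_const_mul]
      apply integral_congr_ae (Eventually.of_forall fun t => ?_)
      simp only
      rw [norm_mul, ← Complex.ofReal_natCast, kl_norm U Λ h0]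
      ring
  have hs2 : Summable fun n : ℕ => ‖cc s b n‖ * (n : ℝ) ^ (-(2 : ℝ)) := by
    have h := (cc_tsum s b (w := 2) (by norm_num)).1.norm
    refine h.congr fun n => ?_
    rw [norm_mul]
    rcases Nat.eq_zero_or_pos n with h | h
    · subst h
      simp
    · rw [Complex.norm_natCast_cpow_of_pos h]
      norm_num
  have hsum : Summable fun n => ∫ t : ℝ, ‖F n t‖ := by
    simp only [hFn]
    exact hs2.mul_right R
  have h := (hasSum_integral_of_summable_integral_norm hFi hsum).tsum_eq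
  have e1 : ∀ t : ℝ, ∑' n : ℕ, F n t = Fz s b (((2 : ℝ) : ℂ) + t * I) * kk U Λ (((2 : ℝ) : ℂ) + t * I) := by
    intro t
    rw [(cc_tsum s b (w := ((2 : ℝ) : ℂ) + t * I) (by simp)).2, hF, ← tsum_mul_right]
    exact tsum_congr fun n => by ring
  simp only [e1] at h
  rw [← h, ← tsum_mul_left]
  refine tsum_congr fun n => ?_
  rw [hF]
  rcases Nat.eq_zero_or_pos n with h | h
  · subst h
    simp
  · have h0 : (0 : ℝ) < n := by exact_mod_cast h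
    simp only
    rw [integral_const_mul]
    have := term_int hU hΛ h0
    rw [Complex.ofReal_natCast] at this
    rw [this]
    push_cast
    ring

/-- one pole against the kernel -/
lemma P_int (β : ℝ) {U Λ : ℝ} (hU : 0 < U) (hΛ : 0 < Λ) :
    Integrable (fun t : ℝ => ((((2 : ℝ) : ℂ) + t * I) + (β : ℂ) * I - 1)⁻¹ * kk U Λ (((2 : ℝ) : ℂ) + t * I)) ∧
    ∫ t : ℝ, ((((2 : ℝ) : ℂ) + t * I) + (β : ℂ) * I - 1)⁻¹ * kk U Λ (((2 : ℝ) : ℂ) + t * I) =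
      ((√Real.pi * Λ : ℝ) : ℂ) * ∫ u in Ioi (1 : ℝ), (u : ℂ) ^ (-((β : ℂ) * I)) * ((gl U Λ u : ℝ) : ℂ) := by
  obtain ⟨f, hf⟩ : ∃ f : ℝ → ℝ → ℂ, f = fun (t u : ℝ) => (u : ℂ) ^ (-((β : ℂ) * I)) *
      ((u : ℂ) ^ (-(((2 : ℝ) : ℂ) + t * I)) * kk U Λ (((2 : ℝ) : ℂ) + t * I)) := ⟨_, rfl⟩
  have hprod : Integrable (Function.uncurry f) (volume.prod (volume.restrict (Ioi (1 : ℝ)))) := by
    have h1 : Integrable (fun t : ℝ => Real.exp (2 * Real.log U + 4 / Λ ^ 2) * Real.exp (-(1 / Λ ^ 2) * t ^ 2)) :=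
      (gau_int hΛ).const_mul _
    have h2 : Integrable (fun u : ℝ => u ^ (-(2 : ℝ))) (volume.restrict (Ioi (1 : ℝ))) :=
      integrableOn_Ioi_rpow_of_lt (by norm_num) one_pos
    refine Integrable.mono' (h1.mul_prod h2) ?_ ?_
    · rw [hf]
      apply Measurable.aestronglyMeasurable
      unfold Function.uncurry kk
      apply Measurable.mul
      · exact (Measurable.pow (Complex.measurable_ofReal.comp measurable_snd) measurable_const)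
      · apply Measurable.mul
        · apply Measurable.pow (Complex.measurable_ofReal.comp measurable_snd)
          fun_prop
        · fun_prop
    · have h3 : ∀ᵐ p : ℝ × ℝ ∂(volume.prod (volume.restrict (Ioi (1 : ℝ)))), p.2 ∈ Ioi (1 : ℝ) :=
        Measure.ae_prod_mem_iff_ae_ae_mem (measurableSet_Ioi.preimage measurable_snd) |>.2 (Eventually.of_forall fun t => by
          exact ae_restrict_mem measurableSet_Ioi)
      filter_upwards [h3] with p hp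
      have hp0 : 0 < p.2 := lt_trans one_pos hp
      rw [hf]
      unfold Function.uncurry
      simp only
      rw [norm_mul, kl_norm U Λ hp0, Complex.norm_cpow_eq_rpow_re_of_pos hp0]
      have e1 : (-((β : ℂ) * I)).re = 0 := by simp
      rw [e1, Real.rpow_zero, one_mul, mul_comm]
  have hswap := integral_integral_swap hprod
  have e1 : ∀ t : ℝ, ∫ u in Ioi (1 : ℝ), f t u = ((((2 : ℝ) : ℂ) + t * I) + (β : ℂ) * I - 1)⁻¹ * kk U Λ (((2 : ℝ) : ℂ) + t * I) := by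
    intro t
    obtain ⟨a, ha⟩ : ∃ a : ℂ, a = -((((2 : ℝ) : ℂ) + t * I) + (β : ℂ) * I) := ⟨_, rfl⟩
    have hare : a.re < -1 := by rw [ha]; simp
    have h4 := integral_Ioi_cpow_of_lt hare one_pos
    have h5 : ∀ u ∈ Ioi (1 : ℝ), f t u = (u : ℂ) ^ a * kk U Λ (((2 : ℝ) : ℂ) + t * I) := by
      intro u hu
      have hu0 : 0 < u := lt_trans one_pos hu
      have hu' : (u : ℂ) ≠ 0 := by exact_mod_cast hu0.ne'
      rw [hf]
      simp only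
      rw [← mul_assoc, ← Complex.cpow_add _ _ hu', ha]
      congr 2
      ring
    rw [setIntegral_congr_fun measurableSet_Ioi h5, integral_mul_const, h4]
    congr 1
    rw [Complex.ofReal_one, Complex.one_cpow, ha]
    have hne : (((2 : ℝ) : ℂ) + t * I) + (β : ℂ) * I - 1 ≠ 0 := by
      intro h
      have := congrArg Complex.re h
      simp at this
      norm_num at this
    obtain ⟨z, hz⟩ : ∃ z : ℂ, z = (((2 : ℝ) : ℂ) + t * I) + (β : ℂ) * I - 1 := ⟨_, rfl⟩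
    have e5 : -((((2 : ℝ) : ℂ) + t * I) + (β : ℂ) * I) + 1 = -z := by rw [hz]; ring
    rw [← hz] at hne ⊢
    rw [e5, neg_div_neg_eq, one_div]
  have e2 : ∀ u ∈ Ioi (1 : ℝ), ∫ t : ℝ, f t u = ((√Real.pi * Λ : ℝ) : ℂ) * ((u : ℂ) ^ (-((β : ℂ) * I)) * ((gl U Λ u : ℝ) : ℂ)) := by
    intro u hu
    have hu0 : 0 < u := lt_trans one_pos hu
    rw [hf]
    simp only
    rw [integral_const_mul, term_int hU hΛ hu0]
    push_cast
    ring
  constructor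
  · have := hprod.integral_prod_left
    unfold Function.uncurry at this
    simp only [e1] at this
    exact this
  · rw [setIntegral_congr_fun measurableSet_Ioi e2, integral_const_mul] at hswap
    rw [← hswap]
    simp only [e1]

/-- **smoothed sums of the coefficients** -/
theorem sum_gl {s : Finset ι} {b : ι → ℝ} (hb : Set.InjOn b s) : ∃ C : ℝ, 0 ≤ C ∧ ∀ U Λ : ℝ, 1 ≤ U → 1 ≤ Λ →
    ‖(∑' n : ℕ, cc s b n * ((gl U Λ n : ℝ) : ℂ)) -
      ∑ j ∈ s, rr s b j * ∫ u in Ioi (1 : ℝ), (u : ℂ) ^ (-((b j : ℂ) * I)) * ((gl U Λ u : ℝ) : ℂ)‖ ≤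
      C * (U ^ (1 / 2 : ℝ) * Λ ^ s.card) := by
  obtain ⟨C, hC, h⟩ := E_shift hb
  refine ⟨C, hC, fun U Λ hU hΛ => ?_⟩
  have hU0 : 0 < U := by linarith
  have hΛ0 : 0 < Λ := by linarith
  obtain ⟨h1, h2⟩ := h U Λ hU hΛ
  have hG : Integrable (fun t : ℝ => Gz s b (((2 : ℝ) : ℂ) + t * I) * kk U Λ (((2 : ℝ) : ℂ) + t * I)) ∧
      ∫ t : ℝ, Gz s b (((2 : ℝ) : ℂ) + t * I) * kk U Λ (((2 : ℝ) : ℂ) + t * I) =
      ((√Real.pi * Λ : ℝ) : ℂ) * ∑ j ∈ s, rr s b j * ∫ u in Ioi (1 : ℝ), (u : ℂ) ^ (-((b j : ℂ) * I)) * ((gl U Λ u : ℝ) : ℂ) := by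
    have e : (fun t : ℝ => Gz s b (((2 : ℝ) : ℂ) + t * I) * kk U Λ (((2 : ℝ) : ℂ) + t * I)) =
        fun t : ℝ => ∑ j ∈ s, rr s b j * (((((2 : ℝ) : ℂ) + t * I) + (b j : ℂ) * I - 1)⁻¹ * kk U Λ (((2 : ℝ) : ℂ) + t * I)) := by
      funext t
      unfold Gz
      rw [Finset.sum_mul]
      exact Finset.sum_congr rfl fun j _ => by ring
    rw [e]
    constructor
    · exact integrable_finsetSum _ fun j _ => (P_int (b j) hU0 hΛ0).1.const_mul _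
    · rw [integral_finsetSum _ fun j _ => (P_int (b j) hU0 hΛ0).1.const_mul _, Finset.mul_sum]
      apply Finset.sum_congr rfl
      intro j _
      rw [integral_const_mul, (P_int (b j) hU0 hΛ0).2]
      ring
  have hFi : Integrable (fun t : ℝ => Fz s b (((2 : ℝ) : ℂ) + t * I) * kk U Λ (((2 : ℝ) : ℂ) + t * I)) := by
    have := h1.add hG.1
    refine this.congr (Eventually.of_forall fun t => ?_)
    simp only [Pi.add_apply]
    ring
  have hsub : ∫ t : ℝ, (Fz s b (((2 : ℝ) : ℂ) + t * I) - Gz s b (((2 : ℝ) : ℂ) + t * I)) * kk U Λ (((2 : ℝ) : ℂ) + t * I) =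
      ((√Real.pi * Λ : ℝ) : ℂ) * ((∑' n : ℕ, cc s b n * ((gl U Λ n : ℝ) : ℂ)) -
      ∑ j ∈ s, rr s b j * ∫ u in Ioi (1 : ℝ), (u : ℂ) ^ (-((b j : ℂ) * I)) * ((gl U Λ u : ℝ) : ℂ)) := by
    rw [mul_sub, ← F_int s b hU0 hΛ0, ← hG.2, ← integral_sub hFi hG.1]
    apply integral_congr_ae (Eventually.of_forall fun t => ?_)
    ring
  rw [hsub, norm_mul, Complex.norm_real, Real.norm_of_nonneg (by positivity)] at h2
  obtain ⟨N, hN⟩ : ∃ N, N = ‖(∑' n : ℕ, cc s b n * ((gl U Λ n : ℝ) : ℂ)) -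
      ∑ j ∈ s, rr s b j * ∫ u in Ioi (1 : ℝ), (u : ℂ) ^ (-((b j : ℂ) * I)) * ((gl U Λ u : ℝ) : ℂ)‖ := ⟨_, rfl⟩
  rw [← hN] at h2 ⊢
  have hN0 : 0 ≤ N := by rw [hN]; exact norm_nonneg _
  have hp : 1 ≤ √Real.pi := by
    rw [Real.one_le_sqrt]
    linarith [Real.pi_gt_three]
  have h3 : Λ * N ≤ √Real.pi * Λ * N := by
    have : 1 * (Λ * N) ≤ √Real.pi * (Λ * N) := mul_le_mul_of_nonneg_right hp (by positivity)
    linarith
  have h4 : Λ * N ≤ Λ * (C * (U ^ (1 / 2 : ℝ) * Λ ^ s.card)) := by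
    calc Λ * N ≤ √Real.pi * Λ * N := h3
      _ ≤ C * (U ^ (1 / 2 : ℝ) * Λ ^ (s.card + 1)) := h2
      _ = _ := by rw [pow_succ]; ring
  exact le_of_mul_le_mul_left h4 hΛ0

end Pool.Agent.N30.SM
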