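import Pool.Agent.N30.SM.Bd
import Pool.Agent.N30.HM.An

set_option autoImplicit false

/-! Comparison of the two Gaussians. -/

open Complex MeasureTheory Set Filter Topology

namespace Pool.Agent.N30.SM

open Pool.Agent.W188.QS Pool.Agent.N30.MZ Pool.Agent.N30.OD Pool.Agent.N30.HM
open Pool.Agent.W131.QSJJ (dd dd_nonneg dd_zero dd_cast norm_cp)

lemma exp_sub_le {a b m : ℝ} (ha : m ≤ a) (hb : m ≤ b) : |Real.exp (-a) - Real.exp (-b)| ≤ |a - b| * Real.exp (-m) := by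
  have key : ∀ x y : ℝ, m ≤ x → x ≤ y → |Real.exp (-x) - Real.exp (-y)| ≤ |x - y| * Real.exp (-m) := by
    intro x y hx hxy
    have h1 : Real.exp (-y) = Real.exp (-x) * Real.exp (-(y - x)) := by rw [← Real.exp_add]; congr 1; ring
    have h2 := Real.add_one_le_exp (-(y - x))
    have h3 : Real.exp (-x) ≤ Real.exp (-m) := Real.exp_le_exp.2 (by linarith)
    have h4 : 0 ≤ Real.exp (-x) - Real.exp (-y) := sub_nonneg.2 (Real.exp_le_exp.2 (by linarith))
    rw [abs_of_nonneg h4, abs_of_nonpos (by linarith), h1]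
    have h5 : Real.exp (-x) - Real.exp (-x) * Real.exp (-(y - x)) = Real.exp (-x) * (1 - Real.exp (-(y - x))) := by ring
    rw [h5]
    calc Real.exp (-x) * (1 - Real.exp (-(y - x))) ≤ Real.exp (-x) * (y - x) :=
          mul_le_mul_of_nonneg_left (by linarith) (Real.exp_pos _).le
      _ ≤ Real.exp (-m) * (y - x) := mul_le_mul_of_nonneg_right h3 (by linarith)
      _ = _ := by ring
  rcases le_total a b with h | h
  · exact key a b ha h
  · rw [abs_sub_comm, abs_sub_comm a b]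
    exact key b a hb h

lemma cube_exp {x : ℝ} (hx : 0 ≤ x) : x ^ 3 * Real.exp (-(x ^ 2 / 4)) ≤ 25 * Real.exp (-(x ^ 2 / 16)) := by
  have h1 := Real.pow_div_factorial_le_exp x hx 3
  have e1 : ((Nat.factorial 3 : ℕ) : ℝ) = 6 := by norm_num [Nat.factorial]
  rw [e1, div_le_iff₀ (by norm_num)] at h1
  have h2 : Real.exp x * Real.exp (-(x ^ 2 / 4)) ≤ 4 * Real.exp (-(x ^ 2 / 16)) := by
    have h3 : Real.exp (4 / 3) ≤ 4 := by
      have h4 := Real.exp_one_lt_d9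
      have h5 : Real.exp (4 / 3) ^ 3 = Real.exp 1 ^ 4 := by
        rw [← Real.exp_nat_mul, ← Real.exp_nat_mul]; norm_num
      have h6 : Real.exp 1 ^ 4 ≤ 4 ^ 3 := by
        calc Real.exp 1 ^ 4 ≤ 2.7182818286 ^ 4 := pow_le_pow_left₀ (Real.exp_pos _).le h4.le 4
          _ ≤ _ := by norm_num
      rw [← h5] at h6
      exact le_of_pow_le_pow_left₀ (by norm_num) (by norm_num) h6
    calc Real.exp x * Real.exp (-(x ^ 2 / 4)) = Real.exp (x - x ^ 2 / 4) := by rw [← Real.exp_add]; congr 1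
      _ ≤ Real.exp (4 / 3 + -(x ^ 2 / 16)) := by
          apply Real.exp_le_exp.2
          nlinarith [sq_nonneg (x - 8 / 3)]
      _ = Real.exp (4 / 3) * Real.exp (-(x ^ 2 / 16)) := Real.exp_add _ _
      _ ≤ _ := mul_le_mul_of_nonneg_right h3 (Real.exp_pos _).le
  have h7 := Real.exp_pos (-(x ^ 2 / 16))
  calc x ^ 3 * Real.exp (-(x ^ 2 / 4)) ≤ (Real.exp x * 6) * Real.exp (-(x ^ 2 / 4)) :=
        mul_le_mul_of_nonneg_right h1 (Real.exp_pos _).le
    _ = 6 * (Real.exp x * Real.exp (-(x ^ 2 / 4))) := by ring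
    _ ≤ 6 * (4 * Real.exp (-(x ^ 2 / 16))) := mul_le_mul_of_nonneg_left h2 (by norm_num)
    _ ≤ _ := by linarith

/-- the pointwise comparison near the centre -/
lemma cmp_near {A v : ℝ} (hA : 0 < A) (h1 : 1 / 2 ≤ v) (h2 : v ≤ 3 / 2) :
    |Real.exp (-(A * (1 - v)) ^ 2) - Real.exp (-(A ^ 2 * Real.log v ^ 2))| ≤ 150 / A * Real.exp (-(A * (1 - v) / 4) ^ 2) := by
  have hv : 0 < v := by linarith
  obtain ⟨l, hl⟩ : ∃ l, l = Real.log v := ⟨_, rfl⟩
  obtain ⟨d, hd⟩ : ∃ d, d = v - 1 := ⟨_, rfl⟩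
  have hl1 : l ≤ d := by rw [hl, hd]; exact Real.log_le_sub_one_of_pos hv
  have hl2 : d / v ≤ l := by
    have := Real.one_sub_inv_le_log_of_pos hv
    rw [hl, hd, sub_div, div_self hv.ne', one_div]
    exact this
  have hdl : d - d ^ 2 / v = d / v := by rw [hd]; field_simp; ring
  have hd2 : d ^ 2 / v ≤ 2 * d ^ 2 := by
    rw [div_le_iff₀ hv]
    nlinarith [sq_nonneg d]
  have hld : |l - d| ≤ 2 * |d| ^ 2 := by
    rw [sq_abs, abs_le]
    constructor <;> nlinarith [sq_nonneg d]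
  have hla : |l| ≤ 2 * |d| := by
    rcases le_total 0 d with h | h
    · have h3 : 0 ≤ l := (div_nonneg h hv.le).trans hl2
      rw [abs_of_nonneg h, abs_of_nonneg h3]
      linarith
    · have h3 : l ≤ 0 := hl1.trans h
      rw [abs_of_nonpos h, abs_of_nonpos h3]
      have h4 : 2 * d ≤ d / v := by
        rw [le_div_iff₀ hv]
        nlinarith
      linarith
  have hlb : d ^ 2 / 4 ≤ l ^ 2 := by
    rcases le_total 0 d with h | h
    · have h3 : d / 2 ≤ l := by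
        refine le_trans ?_ hl2
        apply div_le_div_of_nonneg_left h hv (by linarith)
      have h4 : 0 ≤ d / 2 := by linarith
      nlinarith
    · nlinarith
  obtain ⟨x, hx⟩ : ∃ x, x = A * |d| := ⟨_, rfl⟩
  have hx0 : 0 ≤ x := by rw [hx]; positivity
  have ed : (A * (1 - v)) ^ 2 = x ^ 2 := by
    rw [hx, mul_pow, mul_pow, sq_abs, hd]; ring
  have ed2 : (A * (1 - v) / 4) ^ 2 = x ^ 2 / 16 := by rw [div_pow, ed]; norm_num
  have e0 : -(A * (1 - v)) ^ 2 = -((A * (1 - v)) ^ 2) := rfl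
  have e00 : -(A * (1 - v) / 4) ^ 2 = -((A * (1 - v) / 4) ^ 2) := rfl
  rw [← hl, ed, ed2]
  have hm1 : x ^ 2 / 4 ≤ x ^ 2 := by nlinarith [sq_nonneg x]
  have hm2 : x ^ 2 / 4 ≤ A ^ 2 * l ^ 2 := by
    rw [hx, mul_pow, sq_abs]
    have := mul_le_mul_of_nonneg_left hlb (sq_nonneg A)
    linarith
  have h3 := exp_sub_le hm1 hm2
  have h4 : |x ^ 2 - A ^ 2 * l ^ 2| ≤ 6 * x ^ 3 / A := by
    have e3 : x ^ 2 - A ^ 2 * l ^ 2 = A ^ 2 * ((d - l) * (d + l)) := by rw [hx, mul_pow, sq_abs]; ring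
    rw [e3, abs_mul, abs_mul, abs_of_nonneg (sq_nonneg A), abs_sub_comm d l]
    have h5 : |d + l| ≤ 3 * |d| := (abs_add_le _ _).trans (by linarith)
    have e4 : 6 * x ^ 3 / A = A ^ 2 * (2 * |d| ^ 2 * (3 * |d|)) := by rw [hx]; field_simp; ring
    rw [e4]
    apply mul_le_mul_of_nonneg_left _ (sq_nonneg A)
    exact mul_le_mul hld h5 (abs_nonneg _) (by positivity)
  calc _ ≤ |x ^ 2 - A ^ 2 * l ^ 2| * Real.exp (-(x ^ 2 / 4)) := h3
    _ ≤ (6 * x ^ 3 / A) * Real.exp (-(x ^ 2 / 4)) := mul_le_mul_of_nonneg_right h4 (Real.exp_pos _).le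
    _ = 6 / A * (x ^ 3 * Real.exp (-(x ^ 2 / 4))) := by ring
    _ ≤ 6 / A * (25 * Real.exp (-(x ^ 2 / 16))) := mul_le_mul_of_nonneg_left (cube_exp hx0) (by positivity)
    _ = _ := by ring

/-- the pointwise comparison away from the centre -/
lemma cmp_far {A v : ℝ} (hv : 0 < v) (h : v ≤ 1 / 2 ∨ 3 / 2 ≤ v) :
    |Real.exp (-(A * (1 - v)) ^ 2) - Real.exp (-(A ^ 2 * Real.log v ^ 2))| ≤ Real.exp (-(A ^ 2 / 9)) := by
  have h1 : 1 / 9 ≤ (1 - v) ^ 2 := by rcases h with h | h <;> nlinarith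
  have h2 : 1 / 9 ≤ Real.log v ^ 2 := by
    rcases h with h | h
    · have h3 := Real.log_le_sub_one_of_pos hv
      nlinarith
    · have h3 := Real.one_sub_inv_le_log_of_pos hv
      have h4 : v⁻¹ ≤ 2 / 3 := by
        rw [inv_le_comm₀ hv (by norm_num)]
        norm_num
        linarith
      nlinarith
  have h3 : Real.exp (-(A * (1 - v)) ^ 2) ≤ Real.exp (-(A ^ 2 / 9)) := by
    apply Real.exp_le_exp.2
    have := mul_le_mul_of_nonneg_left h1 (sq_nonneg A)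
    rw [mul_pow]
    linarith
  have h4 : Real.exp (-(A ^ 2 * Real.log v ^ 2)) ≤ Real.exp (-(A ^ 2 / 9)) := by
    apply Real.exp_le_exp.2
    have := mul_le_mul_of_nonneg_left h2 (sq_nonneg A)
    linarith
  have h5 := Real.exp_pos (-(A * (1 - v)) ^ 2)
  have h6 := Real.exp_pos (-(A ^ 2 * Real.log v ^ 2))
  rw [abs_le]
  constructor <;> linarith

lemma ge_v {T Δ : ℝ} (hT : 0 < T) (hΔ : 0 < Δ) (u : ℝ) : ge T Δ u = Real.exp (-(T / Δ * (1 - 2 * Real.pi * u / T)) ^ 2) := by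
  unfold ge
  congr 3
  field_simp

lemma gl_v {T Δ u : ℝ} (hT : 0 < T) (hu : 0 < u) :
    gl (T / (2 * Real.pi)) (2 * T / Δ) u = Real.exp (-((T / Δ) ^ 2 * Real.log (2 * Real.pi * u / T) ^ 2)) := by
  unfold gl
  have hp := Real.pi_pos
  have e : T / (2 * Real.pi) / u = (2 * Real.pi * u / T)⁻¹ := by field_simp
  rw [e, Real.log_inv]
  congr 2
  ring

lemma gl_far {T Δ u : ℝ} (hT : 20 ≤ T) (hΔ : 0 < Δ) (hA : 400 * Real.log T ≤ (T / Δ) ^ 2) (hL : 1 ≤ Real.log T) (hu : 2 * T < u) :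
    gl (T / (2 * Real.pi)) (2 * T / Δ) u ≤ T ^ (-(16 : ℝ)) * u ^ (-(4 : ℝ)) := by
  have hT0 : 0 < T := by linarith
  have hu0 : 0 < u := by linarith
  have hp := Real.pi_gt_three
  rw [gl_v hT0 hu0, Real.rpow_def_of_pos hT0, Real.rpow_def_of_pos hu0, ← Real.exp_add]
  apply Real.exp_le_exp.2
  obtain ⟨L, hLd⟩ : ∃ L, L = Real.log T := ⟨_, rfl⟩
  obtain ⟨w, hw⟩ : ∃ w, w = Real.log (2 * Real.pi * u / T) := ⟨_, rfl⟩
  have hv : 12 ≤ 2 * Real.pi * u / T := by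
    rw [le_div_iff₀ hT0]
    nlinarith
  have hw1 : 1 ≤ w := by
    rw [hw, Real.le_log_iff_exp_le (by linarith)]
    have := Real.exp_one_lt_d9
    linarith
  have hu1 : Real.log u ≤ w + L := by
    rw [hw, hLd, ← Real.log_mul (by positivity) hT0.ne']
    apply Real.log_le_log hu0
    rw [div_mul_cancel₀ _ hT0.ne']
    nlinarith
  rw [← hLd] at hA hL ⊢
  rw [← hw]
  have h1 : 400 * L * w ^ 2 ≤ (T / Δ) ^ 2 * w ^ 2 := mul_le_mul_of_nonneg_right hA (sq_nonneg w)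
  have h2 : 400 * L * w ≤ 400 * L * w ^ 2 := by
    apply mul_le_mul_of_nonneg_left _ (by positivity)
    nlinarith
  nlinarith

/-- the full pointwise comparison -/
lemma cmp_all {T Δ u : ℝ} (hT : 20 ≤ T) (hΔ : 0 < Δ) (hA : 400 * Real.log T ≤ (T / Δ) ^ 2) (hL : 1 ≤ Real.log T) (hu : 1 ≤ u) :
    |gl (T / (2 * Real.pi)) (2 * T / Δ) u - ge T Δ u| ≤ 150 * (Δ / T) * ge T (4 * Δ) u + 16 * T ^ (-(16 : ℝ)) * u ^ (-(4 : ℝ)) := by
  have hT0 : 0 < T := by linarith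
  have hu0 : 0 < u := by linarith
  have hp := Real.pi_gt_three
  have hg4 : 0 < ge T (4 * Δ) u := Real.exp_pos _
  rcases lt_or_ge (2 * T) u with h | h
  · have h1 := gl_far hT hΔ hA hL h
    have h2 : ge T Δ u ≤ gl (T / (2 * Real.pi)) (2 * T / Δ) u := by
      rw [ge_v hT0 hΔ, gl_v hT0 hu0]
      apply Real.exp_le_exp.2
      have hv : 1 ≤ 2 * Real.pi * u / T := by
        rw [le_div_iff₀ hT0]
        nlinarith
      have h3 := Real.log_le_sub_one_of_pos (by linarith : 0 < 2 * Real.pi * u / T)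
      have h4 := Real.log_nonneg hv
      rw [mul_pow]
      have h5 : Real.log (2 * Real.pi * u / T) ^ 2 ≤ (1 - 2 * Real.pi * u / T) ^ 2 := by nlinarith
      have := mul_le_mul_of_nonneg_left h5 (sq_nonneg (T / Δ))
      linarith
    have h3 : 0 < ge T Δ u := Real.exp_pos _
    rw [abs_of_nonneg (by linarith)]
    have h4 : 0 ≤ 150 * (Δ / T) * ge T (4 * Δ) u := by positivity
    have h5 : 0 ≤ T ^ (-(16 : ℝ)) * u ^ (-(4 : ℝ)) := by positivity
    linarith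
  · have hfar : Real.exp (-((T / Δ) ^ 2 / 9)) ≤ 16 * T ^ (-(16 : ℝ)) * u ^ (-(4 : ℝ)) := by
      have h1 : Real.exp (-((T / Δ) ^ 2 / 9)) ≤ T ^ (-(20 : ℝ)) := by
        rw [Real.rpow_def_of_pos hT0]
        apply Real.exp_le_exp.2
        linarith
      have h2 : T ^ (-(20 : ℝ)) = 16 * T ^ (-(16 : ℝ)) * (2 * T) ^ (-(4 : ℝ)) := by
        rw [Real.mul_rpow (by norm_num) hT0.le]
        have e1 : T ^ (-(20 : ℝ)) = T ^ (-(16 : ℝ)) * T ^ (-(4 : ℝ)) := by rw [← Real.rpow_add hT0]; norm_num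
        have e2 : (2 : ℝ) ^ (-(4 : ℝ)) = 1 / 16 := by
          rw [Real.rpow_neg (by norm_num)]
          have : (2 : ℝ) ^ (4 : ℝ) = 16 := by
            rw [show (4 : ℝ) = ((4 : ℕ) : ℝ) by norm_num, Real.rpow_natCast]; norm_num
          rw [this]; norm_num
        rw [e1, e2]; ring
      have h3 : (2 * T) ^ (-(4 : ℝ)) ≤ u ^ (-(4 : ℝ)) := Real.rpow_le_rpow_of_nonpos hu0 h (by norm_num)
      rw [h2] at h1
      exact h1.trans (mul_le_mul_of_nonneg_left h3 (by positivity))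
    have h4 : 0 ≤ 16 * T ^ (-(16 : ℝ)) * u ^ (-(4 : ℝ)) := by positivity
    rw [abs_sub_comm, ge_v hT0 hΔ u, gl_v hT0 hu0]
    have hv0 : 0 < 2 * Real.pi * u / T := by positivity
    by_cases hv : 1 / 2 ≤ 2 * Real.pi * u / T ∧ 2 * Real.pi * u / T ≤ 3 / 2
    · have h5 := cmp_near (A := T / Δ) (by positivity) hv.1 hv.2
      have e1 : 150 / (T / Δ) * Real.exp (-(T / Δ * (1 - 2 * Real.pi * u / T) / 4) ^ 2) = 150 * (Δ / T) * ge T (4 * Δ) u := by
        rw [ge_v hT0 (by positivity : 0 < 4 * Δ)]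
        have e2 : T / Δ * (1 - 2 * Real.pi * u / T) / 4 = T / (4 * Δ) * (1 - 2 * Real.pi * u / T) := by field_simp
        rw [e2]
        field_simp
      rw [e1] at h5
      linarith
    · have h5 := cmp_far (A := T / Δ) hv0 (by
        by_contra hcon
        rw [not_or, not_le, not_le] at hcon
        exact hv ⟨hcon.1.le, hcon.2.le⟩)
      have h6 : 0 ≤ 150 * (Δ / T) * ge T (4 * Δ) u := by positivity
      linarith

end Pool.Agent.N30.SM
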