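import Pool.Agent.N30.SM.Be

set_option autoImplicit false

/-! Sums of the coefficients against the Gaussian. -/

open Complex MeasureTheory Set Filter Topology

namespace Pool.Agent.N30.SM

open Pool.Agent.W188.QS Pool.Agent.N30.MZ Pool.Agent.N30.OD Pool.Agent.N30.HM
open Pool.Agent.W131.QSJJ (dd dd_nonneg dd_zero dd_cast norm_cp)

lemma ge_cont (T : ℝ) {Δ : ℝ} (hΔ : 0 < Δ) : Continuous (ge T Δ) := continuous_iff_continuousAt.2 fun t => (ge_deriv T hΔ t).continuousAt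

lemma gl_meas (U Λ : ℝ) : Measurable (gl U Λ) := by
  unfold gl
  fun_prop

variable {ι : Type} [DecidableEq ι]

/-- **sums of the coefficients against the Gaussian** -/
theorem sum_ge {s : Finset ι} {b : ι → ℝ} (hs : 2 ≤ s.card) (hb : Set.InjOn b s) : ∃ C δ T₀ : ℝ, 0 ≤ C ∧ 0 < δ ∧ δ ≤ 1 / 8 ∧
    ∀ T Δ : ℝ, T₀ ≤ T → T ^ (1 - δ) ≤ Δ → 20 * Δ * √(Real.log T) ≤ T →
    ‖(∑ n ∈ Finset.Icc 1 ⌊2 * T⌋₊, cc s b n * ((ge T Δ n : ℝ) : ℂ)) -
      ∑ j ∈ s, rr s b j * ∫ u in Ioi (1 : ℝ), (u : ℂ) ^ (-((b j : ℂ) * I)) * ((ge T Δ u : ℝ) : ℂ)‖ ≤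
      C * (Δ * T ^ (-δ) + Δ / T * Δ * Real.log T ^ (s.card - 1)) := by
  obtain ⟨K, hKd⟩ : ∃ K, K = s.card := ⟨_, rfl⟩
  have hK2 : 2 ≤ K := by rw [hKd]; exact hs
  obtain ⟨C1, hC1, h1⟩ := sum_gl hb
  obtain ⟨Cd, hCd, hsum, hbd, hz⟩ := Pool.Agent.W32.QS.qs_div K (by omega)
  have hbd' : ∀ n : ℕ, dd K n ≤ Cd * (n : ℝ) ^ 2 := hbd
  obtain ⟨K0, δ0, hK0, hδ0, hgs⟩ := gs (K - 1) (by omega)
  have eK : K - 1 + 1 = K := by omega
  rw [eK] at hgs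
  rw [← hKd] at h1 ⊢
  obtain ⟨M, hM⟩ : ∃ M, M = MB s b := ⟨_, rfl⟩
  have hM1 : 1 ≤ M := by rw [hM]; exact MB_pos s b
  obtain ⟨S, hS⟩ : ∃ S : ℝ, S = ∑' n : ℕ, (n : ℝ) ^ (-(2 : ℝ)) := ⟨_, rfl⟩
  have hS0 : 0 ≤ S := by rw [hS]; exact tsum_nonneg fun n => by positivity
  have hSs : Summable fun n : ℕ => (n : ℝ) ^ (-(2 : ℝ)) := Real.summable_nat_rpow.2 (by norm_num)
  obtain ⟨δ, hδd⟩ : ∃ δ, δ = min δ0 (1 / (8 * K)) := ⟨_, rfl⟩
  have hK0' : (0 : ℝ) < K := by exact_mod_cast (by omega : 0 < K)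
  have hδ : 0 < δ := by rw [hδd]; exact lt_min hδ0 (by positivity)
  have hδ00 : δ ≤ δ0 := by rw [hδd]; exact min_le_left _ _
  have hδK : δ * K ≤ 1 / 8 := by
    have : δ ≤ 1 / (8 * K) := by rw [hδd]; exact min_le_right _ _
    rw [le_div_iff₀ (by positivity)] at this
    linarith
  have hδ1 : δ ≤ 1 / 8 := by
    have h2 : (1 : ℝ) ≤ K := by exact_mod_cast (by omega : 1 ≤ K)
    nlinarith
  obtain ⟨P, hP⟩ : ∃ P : ℝ, P = 150 * (2 + 2 * K0 + 2 * K0) := ⟨_, rfl⟩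
  refine ⟨C1 * 2 ^ K + (16 * Cd * S + 16 * M) + (4 * P + 300 * M), δ, 20, by rw [hP]; positivity, hδ, hδ1, fun T Δ hT hΔ1 hBT => ?_⟩
  have hT0 : 0 < T := by linarith
  obtain ⟨L, hLd⟩ : ∃ L, L = Real.log T := ⟨_, rfl⟩
  have hL1 : 1 ≤ L := by
    rw [hLd, Real.le_log_iff_exp_le hT0]
    have := Real.exp_one_lt_d9
    linarith
  have hs1 : 1 ≤ √L := by rw [Real.one_le_sqrt]; exact hL1
  have hΔ78 : T ^ (7 / 8 : ℝ) ≤ Δ := (Real.rpow_le_rpow_of_exponent_le (by linarith) (by linarith)).trans hΔ1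
  have hΔ11 : 1 ≤ Δ := (Real.one_le_rpow (by linarith) (by norm_num)).trans hΔ78
  have hΔ0 : 0 < Δ := by linarith
  have hp := Real.pi_gt_three
  have hp2 := Real.pi_lt_d2
  have hA : 400 * Real.log T ≤ (T / Δ) ^ 2 := by
    rw [div_pow, le_div_iff₀ (by positivity)]
    have h2 : (20 * Δ * √(Real.log T)) ^ 2 ≤ T ^ 2 := pow_le_pow_left₀ (by positivity) hBT 2
    rw [mul_pow, Real.sq_sqrt (by rw [← hLd]; linarith)] at h2
    linarith
  have hL1' : 1 ≤ Real.log T := by rw [← hLd]; exact hL1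
  have h20T : 20 * Δ ≤ T := by
    have : 20 * Δ * 1 ≤ 20 * Δ * √(Real.log T) := mul_le_mul_of_nonneg_left (by rw [← hLd]; exact hs1) (by positivity)
    linarith
  have hfl : (⌊2 * T⌋₊ : ℝ) ≤ 2 * T := Nat.floor_le (by linarith)
  -- abbreviations
  obtain ⟨g, hg⟩ : ∃ g : ℝ → ℝ, g = gl (T / (2 * Real.pi)) (2 * T / Δ) := ⟨_, rfl⟩
  have hcmp : ∀ u : ℝ, 1 ≤ u → |g u - ge T Δ u| ≤ 150 * (Δ / T) * ge T (4 * Δ) u + 16 * T ^ (-(16 : ℝ)) * u ^ (-(4 : ℝ)) := by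
    intro u hu
    rw [hg]
    exact cmp_all (by linarith) hΔ0 hA hL1' hu
  have hh1 := h1 (T / (2 * Real.pi)) (2 * T / Δ) (by rw [le_div_iff₀ (by positivity)]; linarith)
    (by rw [le_div_iff₀ hΔ0]; linarith)
  rw [← hg] at hh1
  -- the first error
  have E1 : C1 * ((T / (2 * Real.pi)) ^ (1 / 2 : ℝ) * (2 * T / Δ) ^ K) ≤ C1 * 2 ^ K * (Δ * T ^ (-δ)) := by
    rw [mul_assoc]
    apply mul_le_mul_of_nonneg_left _ hC1
    have e1 : (T / (2 * Real.pi)) ^ (1 / 2 : ℝ) ≤ T ^ (1 / 2 : ℝ) := by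
      apply Real.rpow_le_rpow (by positivity) _ (by norm_num)
      exact div_le_self hT0.le (by linarith)
    have e2 : T / Δ ≤ T ^ δ := by
      rw [div_le_iff₀ hΔ0]
      calc T = T ^ δ * T ^ (1 - δ) := by rw [← Real.rpow_add hT0]; norm_num
        _ ≤ _ := mul_le_mul_of_nonneg_left hΔ1 (by positivity)
    have e3 : (2 * T / Δ) ^ K ≤ 2 ^ K * T ^ (1 / 8 : ℝ) := by
      rw [mul_div_assoc, mul_pow]
      apply mul_le_mul_of_nonneg_left _ (by positivity)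
      calc (T / Δ) ^ K ≤ (T ^ δ) ^ K := pow_le_pow_left₀ (by positivity) e2 K
        _ = T ^ (δ * K) := by rw [← Real.rpow_natCast, ← Real.rpow_mul hT0.le]
        _ ≤ _ := Real.rpow_le_rpow_of_exponent_le (by linarith) hδK
    calc (T / (2 * Real.pi)) ^ (1 / 2 : ℝ) * (2 * T / Δ) ^ K ≤ T ^ (1 / 2 : ℝ) * (2 ^ K * T ^ (1 / 8 : ℝ)) :=
          mul_le_mul e1 e3 (by positivity) (by positivity)
      _ = 2 ^ K * (T ^ (5 / 8 : ℝ)) := by
          have : T ^ (5 / 8 : ℝ) = T ^ (1 / 2 : ℝ) * T ^ (1 / 8 : ℝ) := by rw [← Real.rpow_add hT0]; norm_num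
          rw [this]; ring
      _ ≤ 2 ^ K * (T ^ (7 / 8 : ℝ) * T ^ (-δ)) := by
          apply mul_le_mul_of_nonneg_left _ (by positivity)
          rw [← Real.rpow_add hT0]
          exact Real.rpow_le_rpow_of_exponent_le (by linarith) (by linarith)
      _ ≤ _ := by
          apply mul_le_mul_of_nonneg_left _ (by positivity)
          exact mul_le_mul_of_nonneg_right hΔ78 (by positivity)
  -- the second error
  have h4B : 4 * (4 * Δ) * √(Real.log T) ≤ T := by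
    refine le_trans ?_ hBT
    apply mul_le_mul_of_nonneg_right _ (Real.sqrt_nonneg _)
    linarith
  have hgs4 := hgs T (4 * Δ) (by linarith) (by linarith) h4B
  have hT1δ : T ^ (1 - δ0) ≤ Δ := (Real.rpow_le_rpow_of_exponent_le (by linarith) (by linarith)).trans hΔ1
  have hLp : ∀ m : ℕ, 1 ≤ L ^ m := fun m => one_le_pow₀ hL1
  have hsum4 : ∑ n ∈ Finset.Icc 1 ⌊2 * T⌋₊, dd K n * ge T (4 * Δ) n ≤ 4 * (2 + 2 * K0 + 2 * K0) * (Δ * L ^ (K - 1)) := by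
    have h2 := (abs_le.1 hgs4).2
    rw [← hLd] at h2
    have h3 : 4 * Δ / (2 * √Real.pi) * (L ^ (K - 1) / ((K - 1).factorial : ℝ)) ≤ 4 * Δ * L ^ (K - 1) := by
      have h4 : 4 * Δ / (2 * √Real.pi) ≤ 4 * Δ := div_le_self (by positivity) (by
        have : 1 ≤ √Real.pi := by rw [Real.one_le_sqrt]; linarith
        linarith)
      have h5 : L ^ (K - 1) / ((K - 1).factorial : ℝ) ≤ L ^ (K - 1) := div_le_self (by positivity) (by
        exact_mod_cast Nat.factorial_pos _)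
      exact mul_le_mul h4 h5 (by positivity) (by positivity)
    have h4 : L ^ (K - 1 - 1) ≤ L ^ (K - 1) := pow_le_pow_right₀ hL1 (by omega)
    have h5 : T ^ (1 - δ0) ≤ Δ * L ^ (K - 1) := by
      have : Δ * 1 ≤ Δ * L ^ (K - 1) := mul_le_mul_of_nonneg_left (hLp _) hΔ0.le
      linarith
    have h6 : K0 * (4 * Δ * L ^ (K - 1 - 1) + T ^ (1 - δ0)) ≤ K0 * (4 * (Δ * L ^ (K - 1)) + Δ * L ^ (K - 1)) := by
      apply mul_le_mul_of_nonneg_left _ hK0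
      have : 4 * Δ * L ^ (K - 1 - 1) ≤ 4 * (Δ * L ^ (K - 1)) := by
        rw [mul_assoc]
        apply mul_le_mul_of_nonneg_left _ (by norm_num)
        exact mul_le_mul_of_nonneg_left h4 hΔ0.le
      linarith
    have h7 : 0 ≤ K0 * (Δ * L ^ (K - 1)) := by positivity
    have h8 : 0 ≤ Δ * L ^ (K - 1) := by positivity
    nlinarith
  -- the sum
  obtain ⟨J, hJ⟩ : ∃ J : ℕ → ℂ, J = fun n => if n ∈ Finset.Icc 1 ⌊2 * T⌋₊ then cc s b n * ((ge T Δ n : ℝ) : ℂ) else 0 := ⟨_, rfl⟩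
  have hJs : HasSum J (∑ n ∈ Finset.Icc 1 ⌊2 * T⌋₊, cc s b n * ((ge T Δ n : ℝ) : ℂ)) := by
    have : HasSum J (∑ n ∈ Finset.Icc 1 ⌊2 * T⌋₊, J n) := hasSum_sum_of_ne_finset_zero (fun n hn => by rw [hJ]; exact if_neg hn)
    convert this using 1
    apply Finset.sum_congr rfl
    intro n hn
    rw [hJ]
    simp only [if_pos hn]
  have hT16 : T ^ (-(16 : ℝ)) ≤ T ^ (-δ) := Real.rpow_le_rpow_of_exponent_le (by linarith) (by linarith)
  have hDn : ∀ n : ℕ, ‖cc s b n * ((g n : ℝ) : ℂ) - J n‖ ≤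
      (if n ∈ Finset.Icc 1 ⌊2 * T⌋₊ then 150 * (Δ / T) * (dd K n * ge T (4 * Δ) n) else 0) + 16 * Cd * T ^ (-(16 : ℝ)) * (n : ℝ) ^ (-(2 : ℝ)) := by
    intro n
    rcases Nat.eq_zero_or_pos n with h | h
    · subst h
      rw [hJ]
      simp
    have hn0 : (0 : ℝ) < n := by exact_mod_cast h
    have hn1 : (1 : ℝ) ≤ n := by exact_mod_cast h
    have hcc : ‖cc s b n‖ ≤ dd K n := by rw [hKd]; exact cc_le s b n
    have e24 : (n : ℝ) ^ 2 * (n : ℝ) ^ (-(4 : ℝ)) = (n : ℝ) ^ (-(2 : ℝ)) := by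
      rw [← Real.rpow_natCast, ← Real.rpow_add hn0]
      norm_num
    by_cases hn : n ∈ Finset.Icc 1 ⌊2 * T⌋₊
    · rw [hJ]
      simp only [if_pos hn]
      rw [← mul_sub, norm_mul, ← Complex.ofReal_sub, Complex.norm_real, Real.norm_eq_abs]
      calc ‖cc s b n‖ * |g n - ge T Δ n| ≤ dd K n * (150 * (Δ / T) * ge T (4 * Δ) n + 16 * T ^ (-(16 : ℝ)) * (n : ℝ) ^ (-(4 : ℝ))) :=
            mul_le_mul hcc (hcmp n hn1) (abs_nonneg _) (dd_nonneg _ _)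
        _ = 150 * (Δ / T) * (dd K n * ge T (4 * Δ) n) + dd K n * (16 * T ^ (-(16 : ℝ)) * (n : ℝ) ^ (-(4 : ℝ))) := by ring
        _ ≤ 150 * (Δ / T) * (dd K n * ge T (4 * Δ) n) + Cd * (n : ℝ) ^ 2 * (16 * T ^ (-(16 : ℝ)) * (n : ℝ) ^ (-(4 : ℝ))) := by
            have := mul_le_mul_of_nonneg_right (hbd' n) (by positivity : 0 ≤ 16 * T ^ (-(16 : ℝ)) * (n : ℝ) ^ (-(4 : ℝ)))
            linarith
        _ = _ := by rw [← e24]; ring
    · have hn2 : 2 * T < n := by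
        rw [Finset.mem_Icc, not_and, not_le] at hn
        exact Nat.lt_of_floor_lt (hn h)
      rw [hJ]
      simp only [if_neg hn]
      rw [sub_zero, zero_add, norm_mul, Complex.norm_real, Real.norm_of_nonneg (by rw [hg]; exact (gl_pos _ _ _).le)]
      have h2 : g n ≤ T ^ (-(16 : ℝ)) * (n : ℝ) ^ (-(4 : ℝ)) := by
        rw [hg]
        exact gl_far (by linarith) hΔ0 hA hL1' hn2
      have h3 : 0 ≤ T ^ (-(16 : ℝ)) * (n : ℝ) ^ (-(4 : ℝ)) := by positivity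
      calc ‖cc s b n‖ * g n ≤ (Cd * (n : ℝ) ^ 2) * (T ^ (-(16 : ℝ)) * (n : ℝ) ^ (-(4 : ℝ))) :=
            mul_le_mul (hcc.trans (hbd' n)) h2 (by rw [hg]; exact (gl_pos _ _ _).le) (by positivity)
        _ = Cd * T ^ (-(16 : ℝ)) * ((n : ℝ) ^ 2 * (n : ℝ) ^ (-(4 : ℝ))) := by ring
        _ ≤ _ := by
            rw [e24]
            have : 0 ≤ Cd * T ^ (-(16 : ℝ)) * (n : ℝ) ^ (-(2 : ℝ)) := by positivity
            linarith
  have hbs : HasSum (fun n : ℕ => (if n ∈ Finset.Icc 1 ⌊2 * T⌋₊ then 150 * (Δ / T) * (dd K n * ge T (4 * Δ) n) else 0) +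
      16 * Cd * T ^ (-(16 : ℝ)) * (n : ℝ) ^ (-(2 : ℝ)))
      (150 * (Δ / T) * (∑ n ∈ Finset.Icc 1 ⌊2 * T⌋₊, dd K n * ge T (4 * Δ) n) + 16 * Cd * T ^ (-(16 : ℝ)) * S) := by
    apply HasSum.add
    · have : HasSum (fun n : ℕ => if n ∈ Finset.Icc 1 ⌊2 * T⌋₊ then 150 * (Δ / T) * (dd K n * ge T (4 * Δ) n) else 0)
          (∑ n ∈ Finset.Icc 1 ⌊2 * T⌋₊, if n ∈ Finset.Icc 1 ⌊2 * T⌋₊ then 150 * (Δ / T) * (dd K n * ge T (4 * Δ) n) else 0) :=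
        hasSum_sum_of_ne_finset_zero (fun n hn => if_neg hn)
      convert this using 1
      rw [Finset.mul_sum]
      apply Finset.sum_congr rfl
      intro n hn
      rw [if_pos hn]
    · rw [hS]
      exact hSs.hasSum.mul_left _
  have hDs : Summable fun n : ℕ => cc s b n * ((g n : ℝ) : ℂ) - J n := Summable.of_norm_bounded hbs.summable hDn
  have hgs' : Summable fun n : ℕ => cc s b n * ((g n : ℝ) : ℂ) := by
    have := hDs.add hJs.summable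
    refine this.congr fun n => ?_
    ring
  have hdiff : (∑' n : ℕ, cc s b n * ((g n : ℝ) : ℂ)) - ∑ n ∈ Finset.Icc 1 ⌊2 * T⌋₊, cc s b n * ((ge T Δ n : ℝ) : ℂ) =
      ∑' n : ℕ, (cc s b n * ((g n : ℝ) : ℂ) - J n) := by
    rw [hgs'.tsum_sub hJs.summable, hJs.tsum_eq]
  have hE2 := tsum_of_norm_bounded hbs hDn
  rw [← hdiff] at hE2
  -- the integrals
  have hu4 : IntegrableOn (fun u : ℝ => u ^ (-(4 : ℝ))) (Ioi 1) := integrableOn_Ioi_rpow_of_lt (by norm_num) one_pos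
  have hu4v : ∫ u in Ioi (1 : ℝ), u ^ (-(4 : ℝ)) ≤ 1 := by
    rw [integral_Ioi_rpow_of_lt (by norm_num) one_pos]
    norm_num
  have hgei : Integrable (ge T (4 * Δ)) := ge_int T (by positivity)
  have hgev : ∫ u in Ioi (1 : ℝ), ge T (4 * Δ) u ≤ 2 * Δ := by
    refine (setIntegral_le_integral hgei (Eventually.of_forall fun t => (Real.exp_pos _).le)).trans ?_
    rw [ge_total T (by positivity : 0 < 4 * Δ), div_le_iff₀ (by positivity)]
    have : 1 ≤ √Real.pi := by rw [Real.one_le_sqrt]; linarith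
    nlinarith
  have hint : ∀ β : ℝ, ‖(∫ u in Ioi (1 : ℝ), (u : ℂ) ^ (-((β : ℂ) * I)) * ((g u : ℝ) : ℂ)) -
      ∫ u in Ioi (1 : ℝ), (u : ℂ) ^ (-((β : ℂ) * I)) * ((ge T Δ u : ℝ) : ℂ)‖ ≤ 300 * (Δ / T * Δ) + 16 * T ^ (-(16 : ℝ)) := by
    intro β
    have hnorm : ∀ u ∈ Ioi (1 : ℝ), ‖(u : ℂ) ^ (-((β : ℂ) * I))‖ = 1 := by
      intro u hu
      have hu0 : 0 < u := lt_trans one_pos hu
      rw [Complex.norm_cpow_eq_rpow_re_of_pos hu0]
      simp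
    have hmeas : Measurable fun u : ℝ => (u : ℂ) ^ (-((β : ℂ) * I)) := Measurable.pow Complex.measurable_ofReal measurable_const
    have hi1 : IntegrableOn (fun u : ℝ => (u : ℂ) ^ (-((β : ℂ) * I)) * ((ge T Δ u : ℝ) : ℂ)) (Ioi 1) := by
      refine Integrable.mono' (ge_int T hΔ0).integrableOn
        (hmeas.mul (Complex.measurable_ofReal.comp (ge_cont T hΔ0).measurable)).aestronglyMeasurable ?_
      filter_upwards [ae_restrict_mem measurableSet_Ioi] with u hu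
      have hge0 : 0 ≤ ge T Δ u := (Real.exp_pos _).le
      rw [norm_mul, hnorm u hu, one_mul, Complex.norm_real, Real.norm_of_nonneg hge0]
    have hbdi : IntegrableOn (fun u : ℝ => 150 * (Δ / T) * ge T (4 * Δ) u + 16 * T ^ (-(16 : ℝ)) * u ^ (-(4 : ℝ))) (Ioi 1) :=
      (hgei.integrableOn.const_mul _).add (hu4.const_mul _)
    have hptw : ∀ u ∈ Ioi (1 : ℝ), ‖(u : ℂ) ^ (-((β : ℂ) * I)) * ((g u : ℝ) : ℂ) - (u : ℂ) ^ (-((β : ℂ) * I)) * ((ge T Δ u : ℝ) : ℂ)‖ ≤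
        150 * (Δ / T) * ge T (4 * Δ) u + 16 * T ^ (-(16 : ℝ)) * u ^ (-(4 : ℝ)) := by
      intro u hu
      rw [← mul_sub, norm_mul, hnorm u hu, one_mul, ← Complex.ofReal_sub, Complex.norm_real, Real.norm_eq_abs]
      exact hcmp u (le_of_lt hu)
    have hi2 : IntegrableOn (fun u : ℝ => (u : ℂ) ^ (-((β : ℂ) * I)) * ((g u : ℝ) : ℂ)) (Ioi 1) := by
      have h3 : IntegrableOn (fun u : ℝ => (u : ℂ) ^ (-((β : ℂ) * I)) * ((g u : ℝ) : ℂ) - (u : ℂ) ^ (-((β : ℂ) * I)) * ((ge T Δ u : ℝ) : ℂ)) (Ioi 1) := by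
        refine Integrable.mono' hbdi ?_ ((ae_restrict_mem measurableSet_Ioi).mono hptw)
        apply Measurable.aestronglyMeasurable
        rw [hg]
        exact (hmeas.mul (Complex.measurable_ofReal.comp (gl_meas _ _))).sub
          (hmeas.mul (Complex.measurable_ofReal.comp (ge_cont T hΔ0).measurable))
      have := h3.add hi1
      refine this.congr (Eventually.of_forall fun u => ?_)
      simp
    rw [← integral_sub hi2 hi1]
    refine (norm_integral_le_of_norm_le hbdi ((ae_restrict_mem measurableSet_Ioi).mono hptw)).trans ?_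
    rw [integral_add (hgei.integrableOn.const_mul _) (hu4.const_mul _), integral_const_mul, integral_const_mul]
    have h5 := mul_le_mul_of_nonneg_left hgev (by positivity : 0 ≤ 150 * (Δ / T))
    have h6 := mul_le_mul_of_nonneg_left hu4v (by positivity : 0 ≤ 16 * T ^ (-(16 : ℝ)))
    calc _ ≤ 150 * (Δ / T) * (2 * Δ) + 16 * T ^ (-(16 : ℝ)) * 1 := add_le_add h5 h6
      _ = _ := by ring
  have hE3 : ‖(∑ j ∈ s, rr s b j * ∫ u in Ioi (1 : ℝ), (u : ℂ) ^ (-((b j : ℂ) * I)) * ((g u : ℝ) : ℂ)) -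
      ∑ j ∈ s, rr s b j * ∫ u in Ioi (1 : ℝ), (u : ℂ) ^ (-((b j : ℂ) * I)) * ((ge T Δ u : ℝ) : ℂ)‖ ≤
      M * (300 * (Δ / T * Δ) + 16 * T ^ (-(16 : ℝ))) := by
    rw [← Finset.sum_sub_distrib]
    refine (norm_sum_le _ _).trans ?_
    calc _ ≤ ∑ j ∈ s, ‖rr s b j‖ * (300 * (Δ / T * Δ) + 16 * T ^ (-(16 : ℝ))) := by
          apply Finset.sum_le_sum
          intro j _
          rw [← mul_sub, norm_mul]
          exact mul_le_mul_of_nonneg_left (hint (b j)) (norm_nonneg _)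
      _ = (∑ j ∈ s, ‖rr s b j‖) * (300 * (Δ / T * Δ) + 16 * T ^ (-(16 : ℝ))) := by rw [Finset.sum_mul]
      _ ≤ _ := by
          apply mul_le_mul_of_nonneg_right _ (by positivity)
          rw [hM]
          exact MB_r s b
  -- conclusion
  obtain ⟨X1, hX1⟩ : ∃ X1, X1 = ∑ n ∈ Finset.Icc 1 ⌊2 * T⌋₊, cc s b n * ((ge T Δ n : ℝ) : ℂ) := ⟨_, rfl⟩
  obtain ⟨X2, hX2⟩ : ∃ X2, X2 = ∑' n : ℕ, cc s b n * ((g n : ℝ) : ℂ) := ⟨_, rfl⟩
  obtain ⟨X3, hX3⟩ : ∃ X3, X3 = ∑ j ∈ s, rr s b j * ∫ u in Ioi (1 : ℝ), (u : ℂ) ^ (-((b j : ℂ) * I)) * ((g u : ℝ) : ℂ) := ⟨_, rfl⟩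
  obtain ⟨X4, hX4⟩ : ∃ X4, X4 = ∑ j ∈ s, rr s b j * ∫ u in Ioi (1 : ℝ), (u : ℂ) ^ (-((b j : ℂ) * I)) * ((ge T Δ u : ℝ) : ℂ) := ⟨_, rfl⟩
  rw [← hX1, ← hX2] at hE2
  rw [← hX3, ← hX4] at hE3
  rw [← hX2, ← hX3] at hh1
  rw [← hX1, ← hX4]
  have e : X1 - X4 = -(X2 - X1) + (X2 - X3) + (X3 - X4) := by ring
  rw [e]
  refine (norm_add_le _ _).trans ((add_le_add ((norm_add_le _ _).trans (add_le_add ((norm_neg (X2 - X1)).le.trans hE2) (hh1.trans E1))) hE3).trans ?_)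
  have h7 : 150 * (Δ / T) * (∑ n ∈ Finset.Icc 1 ⌊2 * T⌋₊, dd K n * ge T (4 * Δ) n) ≤ 4 * P * (Δ / T * Δ * L ^ (K - 1)) := by
    have := mul_le_mul_of_nonneg_left hsum4 (by positivity : 0 ≤ 150 * (Δ / T))
    refine this.trans (le_of_eq ?_)
    rw [hP]; ring
  have h8 : T ^ (-(16 : ℝ)) ≤ Δ * T ^ (-δ) := by
    have : 1 * T ^ (-δ) ≤ Δ * T ^ (-δ) := mul_le_mul_of_nonneg_right hΔ11 (by positivity)
    linarith
  have h9 : Δ / T * Δ ≤ Δ / T * Δ * L ^ (K - 1) := le_mul_of_one_le_right (by positivity) (hLp _)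
  rw [← hLd]
  have h10 : 16 * Cd * T ^ (-(16 : ℝ)) * S ≤ 16 * Cd * S * (Δ * T ^ (-δ)) := by
    have := mul_le_mul_of_nonneg_left h8 (by positivity : 0 ≤ 16 * Cd * S)
    linarith
  have h11 : M * (300 * (Δ / T * Δ) + 16 * T ^ (-(16 : ℝ))) ≤ 300 * M * (Δ / T * Δ * L ^ (K - 1)) + 16 * M * (Δ * T ^ (-δ)) := by
    have := mul_le_mul_of_nonneg_left h8 (by positivity : 0 ≤ 16 * M)
    have := mul_le_mul_of_nonneg_left h9 (by positivity : 0 ≤ 300 * M)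
    linarith
  have hP0 : 0 ≤ P := by rw [hP]; positivity
  have h12 : 0 ≤ (C1 * 2 ^ K + (16 * Cd * S + 16 * M)) * (Δ / T * Δ * L ^ (K - 1)) := by positivity
  have h13 : 0 ≤ (4 * P + 300 * M) * (Δ * T ^ (-δ)) := by positivity
  calc _ ≤ (4 * P * (Δ / T * Δ * L ^ (K - 1)) + 16 * Cd * S * (Δ * T ^ (-δ))) + C1 * 2 ^ K * (Δ * T ^ (-δ)) +
        (300 * M * (Δ / T * Δ * L ^ (K - 1)) + 16 * M * (Δ * T ^ (-δ))) := by linarith
    _ ≤ _ := by linarith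

end Pool.Agent.N30.SM
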