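import Pool.Agent.N30.SM.Bf

set_option autoImplicit false

/-! The integral of the product of shifted zeta functions times `X` on the line `Re s = 4`. -/

open Complex MeasureTheory Set Filter Topology

namespace Pool.Agent.N30.SM

open Pool.Agent.W188.QS Pool.Agent.N30.MZ Pool.Agent.N30.OD Pool.Agent.N30.HM
open Pool.Agent.W131.QSJJ (dd dd_nonneg dd_zero dd_cast norm_cp series In_le2)
open Pool.Agent.W885.QS (norm_zeta_le_two gg_integrable gg_integral gg_pos GG_norm fp_re fp_im fp_cont GG_cont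
  zeta_cont zeta_bd bound_int bound_compl tail_pt)

variable {ι : Type} [DecidableEq ι]

theorem series_c (s : Finset ι) (b : ι → ℝ) (Cd : ℝ) (hbd : ∀ n : ℕ, dd s.card n ≤ Cd * (n : ℝ) ^ 2)
    (T Δ : ℝ) (hI : ∀ n : ℕ, 1 ≤ n → Integrable (fun t : ℝ => (n : ℂ) ^ (-fp t) * XX (fp t) * GG T Δ (fp t))) :
    ∫ t : ℝ, Fz s b (fp t) * XX (fp t) * GG T Δ (fp t) = ∑' n : ℕ, cc s b n * In T Δ n := by
  have hFint : ∀ n : ℕ, Integrable (fun t : ℝ => cc s b n * ((n : ℂ) ^ (-fp t) * XX (fp t) * GG T Δ (fp t))) := by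
    intro n
    rcases Nat.eq_zero_or_pos n with h | h
    · subst h
      simp only [ArithmeticFunction.map_zero, zero_mul]
      exact integrable_zero _ _ _
    · exact (hI n h).const_mul _
  have hK : ∀ n : ℕ, ∫ t : ℝ, ‖cc s b n * ((n : ℂ) ^ (-fp t) * XX (fp t) * GG T Δ (fp t))‖ =
      ‖cc s b n‖ * ((n : ℝ) ^ (-(4 : ℝ)) * ∫ t : ℝ, ‖XX (fp t) * GG T Δ (fp t)‖) := by
    intro n
    rcases Nat.eq_zero_or_pos n with h | h
    · subst h
      simp only [ArithmeticFunction.map_zero, zero_mul, norm_zero, integral_zero]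
    · rw [← integral_const_mul, ← integral_const_mul]
      refine integral_congr_ae (Filter.Eventually.of_forall fun t => ?_)
      change ‖cc s b n * ((n : ℂ) ^ (-fp t) * XX (fp t) * GG T Δ (fp t))‖ =
        ‖cc s b n‖ * ((n : ℝ) ^ (-(4 : ℝ)) * ‖XX (fp t) * GG T Δ (fp t)‖)
      rw [norm_mul, mul_assoc, norm_mul, norm_cp n h]
  have hK0 : 0 ≤ ∫ t : ℝ, ‖XX (fp t) * GG T Δ (fp t)‖ := integral_nonneg fun t => norm_nonneg _
  have hsum : Summable fun n : ℕ => ∫ t : ℝ, ‖cc s b n * ((n : ℂ) ^ (-fp t) * XX (fp t) * GG T Δ (fp t))‖ := by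
    have hs : Summable fun n : ℕ => (Cd * ∫ t : ℝ, ‖XX (fp t) * GG T Δ (fp t)‖) * (n : ℝ) ^ (-(2 : ℝ)) :=
      (Real.summable_nat_rpow.2 (by norm_num)).mul_left _
    refine Summable.of_nonneg_of_le (fun n => integral_nonneg fun t => norm_nonneg _) (fun n => ?_) hs
    rw [hK n]
    rcases Nat.eq_zero_or_pos n with h | h
    · subst h
      rw [ArithmeticFunction.map_zero, norm_zero, zero_mul, Nat.cast_zero, Real.zero_rpow (by norm_num), mul_zero]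
    · have hn : (0 : ℝ) < n := Nat.cast_pos.2 h
      have e : (n : ℝ) ^ 2 * (n : ℝ) ^ (-(4 : ℝ)) = (n : ℝ) ^ (-(2 : ℝ)) := by
        rw [← Real.rpow_natCast, ← Real.rpow_add hn]
        norm_num
      calc ‖cc s b n‖ * ((n : ℝ) ^ (-(4 : ℝ)) * ∫ t : ℝ, ‖XX (fp t) * GG T Δ (fp t)‖)
          ≤ (Cd * (n : ℝ) ^ 2) * ((n : ℝ) ^ (-(4 : ℝ)) * ∫ t : ℝ, ‖XX (fp t) * GG T Δ (fp t)‖) :=
            mul_le_mul_of_nonneg_right ((cc_le s b n).trans (hbd n)) (by positivity)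
        _ = (Cd * ∫ t : ℝ, ‖XX (fp t) * GG T Δ (fp t)‖) * ((n : ℝ) ^ 2 * (n : ℝ) ^ (-(4 : ℝ))) := by ring
        _ = _ := by rw [e]
  have h := (hasSum_integral_of_summable_integral_norm hFint hsum).tsum_eq
  have e1 : ∀ t : ℝ, ∑' n : ℕ, cc s b n * ((n : ℂ) ^ (-fp t) * XX (fp t) * GG T Δ (fp t)) =
      Fz s b (fp t) * XX (fp t) * GG T Δ (fp t) := by
    intro t
    rw [(cc_tsum s b (w := fp t) (by rw [fp_re]; norm_num)).2, ← tsum_mul_right, ← tsum_mul_right]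
    refine tsum_congr fun n => ?_
    ring
  simp only [e1] at h
  rw [← h]
  refine tsum_congr fun n => ?_
  unfold In
  rw [integral_const_mul]

/-- replacing the divisor function by smaller coefficients -/
lemma cc_dd (s : Finset ι) (b : ι → ℝ) (X : ℕ → ℂ) : ∃ X' : ℕ → ℂ, (∀ n, ‖X' n‖ ≤ ‖X n‖) ∧ ∀ n, ((dd s.card n : ℝ) : ℂ) * X' n = cc s b n * X n := by
  refine ⟨fun n => cc s b n / ((dd s.card n : ℝ) : ℂ) * X n, fun n => ?_, fun n => ?_⟩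
  · simp only
    rw [norm_mul]
    have h1 : ‖cc s b n / ((dd s.card n : ℝ) : ℂ)‖ ≤ 1 := by
      rw [norm_div, Complex.norm_real, Real.norm_of_nonneg (dd_nonneg _ _)]
      exact div_le_one_of_le₀ (cc_le s b n) (dd_nonneg _ _)
    calc _ ≤ 1 * ‖X n‖ := mul_le_mul_of_nonneg_right h1 (norm_nonneg _)
      _ = _ := one_mul _
  · simp only
    rcases eq_or_ne (dd s.card n) 0 with h | h
    · have h2 : cc s b n = 0 := by
        have := cc_le s b n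
        rw [h] at this
        exact norm_le_zero_iff.1 this
      rw [h, h2]
      simp
    · have h2 : ((dd s.card n : ℝ) : ℂ) ≠ 0 := by exact_mod_cast h
      rw [← mul_assoc, mul_div_cancel₀ _ h2]

theorem Jc {s : Finset ι} {b : ι → ℝ} (hs : 2 ≤ s.card) (hb : Set.InjOn b s) : ∃ C δ B T₀ : ℝ, 0 ≤ C ∧ 0 < δ ∧ δ ≤ 1 / 8 ∧ 20 ≤ B ∧
    ∀ T Δ : ℝ, T₀ ≤ T → T ^ (1 - δ) ≤ Δ → B * Δ * √(Real.log T) ≤ T →
    ‖(∫ t : ℝ, Fz s b (fp t) * XX (fp t) * GG T Δ (fp t)) -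
      2 * Real.pi * ∑ j ∈ s, rr s b j * ∫ u in Ioi (1 : ℝ), (u : ℂ) ^ (-((b j : ℂ) * I)) * ((ge T Δ u : ℝ) : ℂ)‖ ≤
      C * (Δ * T ^ (-δ) + Δ / T * Δ * Real.log T ^ (s.card - 1)) := by
  obtain ⟨j, hj⟩ : ∃ j, j = s.card := ⟨_, rfl⟩
  have hj2 : 2 ≤ j := by rw [hj]; exact hs
  obtain ⟨_, B0, T1, hB0, h2b⟩ := Pool.Agent.W975.QSKe.qs_ke
  obtain ⟨C3, -, h3b⟩ := Pool.Agent.W253.QS.qs_i3
  obtain ⟨Cd, hCd, hsum, hbd, hz⟩ := Pool.Agent.W32.QS.qs_div j (by omega)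
  have hbd' : ∀ n : ℕ, dd j n ≤ Cd * (n : ℝ) ^ 2 := hbd
  obtain ⟨K0, δ0, T4, hK0, hδ0, hδ08, hgs⟩ := sum_ge hs hb
  rw [← hj] at hgs ⊢
  have hmel := Pool.Agent.W372.QS.qs_mel
  have hC3 : 0 ≤ C3 := by
    have := (norm_nonneg _).trans (h3b 1 1 le_rfl le_rfl 1 le_rfl).2
    simpa using this
  obtain ⟨δ, hδd⟩ : ∃ δ, δ = δ0 := ⟨_, rfl⟩
  rw [← hδd] at hδ0 hδ08 hgs
  obtain ⟨C1, hC1⟩ : ∃ C1, C1 = Cd * 2 * 2 ^ (j - 1) := ⟨_, rfl⟩
  obtain ⟨C2, hC2⟩ : ∃ C2, C2 = √Real.pi * 2 * Cd * 10 ^ (j - 1) +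
        Cd * C3 * ∑' n : ℕ, (n : ℝ) ^ (-(3 / 2 : ℝ)) := ⟨_, rfl⟩
  have hSn0 : 0 ≤ ∑' n : ℕ, (n : ℝ) ^ (-(3 / 2 : ℝ)) :=
    tsum_nonneg fun n => Real.rpow_nonneg (Nat.cast_nonneg _) _
  have hC10 : 0 ≤ C1 := by rw [hC1]; positivity
  have hC20 : 0 ≤ C2 := by rw [hC2]; positivity
  obtain ⟨T2, hT2⟩ := eventually_atTop.1 ((isLittleO_log_rpow_atTop (by norm_num : (0:ℝ) < 1 / 8)).bound (by norm_num : (0:ℝ) < 1))
  obtain ⟨T3, hT3⟩ := eventually_atTop.1 ((isLittleO_log_rpow_atTop (by positivity : (0:ℝ) < 1 / (8 * (j - 1 + 1 : ℕ)))).bound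
    (by norm_num : (0:ℝ) < 1))
  refine ⟨C1 * 40000 + C2 + 2 * Real.pi * K0, δ, max B0 20, max (max T1 T2) (max (max 20 T3) T4), by positivity, hδ0, hδ08,
    le_max_right _ _, fun T Δ hT hΔ1 hBT => ?_⟩
  have hTT1 : T1 ≤ T := ((le_max_left _ _).trans (le_max_left _ _)).trans hT
  have hTT2 : T2 ≤ T := ((le_max_right _ _).trans (le_max_left _ _)).trans hT
  have hT20 : 20 ≤ T := ((le_max_left _ _).trans ((le_max_left _ _).trans (le_max_right _ _))).trans hT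
  have hTT3 : T3 ≤ T := ((le_max_right _ _).trans ((le_max_left _ _).trans (le_max_right _ _))).trans hT
  have hTT4 : T4 ≤ T := ((le_max_right _ _).trans (le_max_right _ _)).trans hT
  have hT0 : 0 < T := by linarith
  obtain ⟨L, hLd⟩ : ∃ L, L = Real.log T := ⟨_, rfl⟩
  have hL1 : 1 ≤ L := by
    rw [hLd, Real.le_log_iff_exp_le hT0]
    have := Real.exp_one_lt_d9
    linarith
  have hLT : L ≤ T ^ (1 / 8 : ℝ) := by
    have := hT2 T hTT2
    rw [Real.norm_of_nonneg (by rw [← hLd]; linarith), Real.norm_of_nonneg (by positivity), one_mul, ← hLd] at this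
    exact this
  have hΔ78 : T ^ (7 / 8 : ℝ) ≤ Δ := (Real.rpow_le_rpow_of_exponent_le (by linarith) (by linarith)).trans hΔ1
  have hΔ34 : T ^ (3 / 4 : ℝ) ≤ Δ := (Real.rpow_le_rpow_of_exponent_le (by linarith) (by linarith)).trans hΔ1
  have hLΔ : L ≤ Δ := hLT.trans ((Real.rpow_le_rpow_of_exponent_le (by linarith) (by norm_num)).trans hΔ34)
  have hΔ4 : 4 ≤ Δ := by
    have h1 : (4:ℝ) = 16 ^ (1 / 2 : ℝ) := by
      rw [← Real.sqrt_eq_rpow, show (16:ℝ) = 4 ^ 2 by norm_num, Real.sqrt_sq (by norm_num)]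
    rw [h1]
    calc (16:ℝ) ^ (1 / 2 : ℝ) ≤ T ^ (1 / 2 : ℝ) := Real.rpow_le_rpow (by norm_num) (by linarith) (by norm_num)
      _ ≤ T ^ (3 / 4 : ℝ) := Real.rpow_le_rpow_of_exponent_le (by linarith) (by norm_num)
      _ ≤ Δ := hΔ34
  have hΔ0 : 0 < Δ := by linarith
  have hs1 : 1 ≤ √L := by rw [Real.one_le_sqrt]; exact hL1
  have hB0T : B0 * Δ * √(Real.log T) ≤ T := by
    refine le_trans ?_ hBT
    apply mul_le_mul_of_nonneg_right _ (Real.sqrt_nonneg _)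
    exact mul_le_mul_of_nonneg_right (le_max_left _ _) hΔ0.le
  have h20T : 20 * Δ * √(Real.log T) ≤ T := by
    refine le_trans ?_ hBT
    apply mul_le_mul_of_nonneg_right _ (Real.sqrt_nonneg _)
    exact mul_le_mul_of_nonneg_right (le_max_right _ _) hΔ0.le
  have h4T : 4 * Δ * √(Real.log T) ≤ T := by
    refine le_trans ?_ h20T
    apply mul_le_mul_of_nonneg_right _ (Real.sqrt_nonneg _)
    linarith
  have h4T' : 4 * Δ ≤ T := by
    have : 4 * Δ * 1 ≤ 4 * Δ * √(Real.log T) := mul_le_mul_of_nonneg_left (by rw [← hLd]; exact hs1) (by positivity)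
    linarith
  have hΔT : Δ ≤ T := by linarith
  obtain ⟨J, hJ⟩ : ∃ J : ℕ → ℂ, J = fun n => if n ∈ Finset.Icc 1 ⌊2 * T⌋₊ then ((2 * Real.pi * ge T Δ n : ℝ) : ℂ) else 0 := ⟨_, rfl⟩
  obtain ⟨η, hη⟩ : ∃ η, η = 40000 * (T / Δ ^ 2) := ⟨_, rfl⟩
  have hη0 : 0 ≤ η := by rw [hη]; positivity
  have hfl : (⌊2 * T⌋₊ : ℝ) ≤ 2 * T := Nat.floor_le (by linarith)
  have hI1 : ∀ n : ℕ, 1 ≤ n → n ≤ ⌊2 * T⌋₊ → ‖In T Δ n - J n‖ ≤ η := by
    intro n hn hn2
    have hn2' : (n : ℝ) ≤ 2 * T := le_trans (by exact_mod_cast hn2) hfl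
    have h1 := In_asym hmel T hΔ4 n hn
    have hJn : J n = ((2 * Real.pi * ge T Δ n : ℝ) : ℂ) := by rw [hJ]; exact if_pos (Finset.mem_Icc.2 ⟨hn, hn2⟩)
    rw [hJn]
    have e : In T Δ n - ((2 * Real.pi * ge T Δ n : ℝ) : ℂ) = (In T Δ n - ((2 * Real.pi * (ge T Δ n + ge T Δ (-n)) : ℝ) : ℂ)) +
        ((2 * Real.pi * ge T Δ (-n) : ℝ) : ℂ) := by push_cast; ring
    rw [e]
    have h2 : ge T Δ (-n) ≤ T ^ (-(1 : ℝ)) := by
      rw [ge_def, Real.rpow_def_of_pos hT0]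
      apply Real.exp_le_exp.2
      have h3 : Real.log T ≤ (uu T Δ (-n)) ^ 2 := by
        unfold uu
        rw [div_pow, le_div_iff₀ (by positivity)]
        have h4 : (4 * Δ * √(Real.log T)) ^ 2 ≤ T ^ 2 := pow_le_pow_left₀ (by positivity) h4T 2
        rw [mul_pow, Real.sq_sqrt (by rw [← hLd]; linarith)] at h4
        have h5 : T ^ 2 ≤ (T - 2 * Real.pi * (-(n : ℝ))) ^ 2 := by
          apply pow_le_pow_left₀ hT0.le
          have : 0 ≤ 2 * Real.pi * n := by positivity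
          linarith
        have h6 : 0 ≤ Real.log T * Δ ^ 2 := by rw [← hLd]; positivity
        nlinarith
      linarith
    have h3 : 2 * Real.pi * ge T Δ (-n) ≤ 8 * (T / Δ ^ 2) := by
      have h4 : T ^ (-(1 : ℝ)) ≤ T / Δ ^ 2 := by
        rw [Real.rpow_neg_one, inv_eq_one_div, div_le_div_iff₀ hT0 (by positivity)]
        nlinarith
      have h5 := Real.pi_lt_d2
      have h6 : 0 ≤ ge T Δ (-n) := by rw [ge_def]; exact (Real.exp_pos _).le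
      have h7 : 0 ≤ T / Δ ^ 2 := by positivity
      nlinarith
    have h4 : ‖((2 * Real.pi * ge T Δ (-n) : ℝ) : ℂ)‖ ≤ 8 * (T / Δ ^ 2) := by
      rw [Complex.norm_real, Real.norm_of_nonneg]
      · exact h3
      · have h6 : 0 ≤ ge T Δ (-n) := by rw [ge_def]; exact (Real.exp_pos _).le
        positivity
    refine (norm_add_le _ _).trans ((add_le_add h1 h4).trans ?_)
    have h5 : 4 / Δ ≤ T / Δ ^ 2 := by
      rw [div_le_div_iff₀ hΔ0 (by positivity)]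
      nlinarith
    have h6 : 128 * n / Δ ^ 2 ≤ 256 * (T / Δ ^ 2) := by
      rw [mul_div_assoc', div_le_div_iff_of_pos_right (by positivity)]
      linarith
    rw [hη]
    have h7 : 0 ≤ T / Δ ^ 2 := by positivity
    linarith
  have hJ0 : ∀ n : ℕ, 2 * T < n → J n = 0 := by
    intro n hn
    rw [hJ]
    apply if_neg
    rw [Finset.mem_Icc, not_and]
    intro _ h
    have : (n : ℝ) ≤ 2 * T := le_trans (by exact_mod_cast h) hfl
    linarith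
  obtain ⟨X', hX1, hX2⟩ := cc_dd s b (fun n => In T Δ n - J n)
  rw [← hj] at hX2
  have hfin := final' j Cd C3 η hCd hC3 hη0 hsum hbd T Δ (by linarith) (by rw [← hLd]; exact hL1) hΔT (by linarith)
    X' (fun n hn hn2 => (hX1 n).trans (hI1 n hn hn2))
    (fun n hn hn2 => by
      refine (hX1 n).trans ?_
      show ‖In T Δ n - J n‖ ≤ _
      rw [hJ0 n hn2, sub_zero]
      exact In_le2 hmel T Δ (by linarith) n hn _ (fun ε σ hε hσ => h2b T Δ ε σ hTT1 (by rw [← hLd]; exact hLΔ) hB0T hε hσ n hn2.le))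
    (fun n hn hn2 => by
      refine (hX1 n).trans ?_
      show ‖In T Δ n - J n‖ ≤ _
      rw [hJ0 n hn2, sub_zero]
      exact (h3b T Δ (by linarith) hΔT n hn).2)
  rw [tsum_congr hX2] at hfin
  rw [series_c s b Cd (by rw [← hj]; exact hbd') T Δ (fun n hn => (h3b T Δ (by linarith) hΔT n hn).1)]
  have hccd : ∀ n, ‖cc s b n‖ ≤ dd j n := by intro n; rw [hj]; exact cc_le s b n
  have hJsum : Summable (fun n : ℕ => cc s b n * J n) := by
    apply summable_of_ne_finset_zero (s := Finset.Icc 1 ⌊2 * T⌋₊)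
    intro n hn
    rw [hJ]
    simp only [if_neg hn, mul_zero]
  have hIsum : Summable (fun n : ℕ => cc s b n * In T Δ n) := by
    have hs : Summable fun n : ℕ => (Cd * C3 * T ^ 5) * (n : ℝ) ^ (-(2 : ℝ)) :=
      (Real.summable_nat_rpow.2 (by norm_num)).mul_left _
    refine Summable.of_norm_bounded hs fun n => ?_
    rw [norm_mul]
    rcases Nat.eq_zero_or_pos n with h | h
    · subst h
      rw [ArithmeticFunction.map_zero, norm_zero, zero_mul]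
      positivity
    · have hn : (0 : ℝ) < n := Nat.cast_pos.2 h
      have e : (n : ℝ) ^ 2 * (n : ℝ) ^ (-(4 : ℝ)) = (n : ℝ) ^ (-(2 : ℝ)) := by
        rw [← Real.rpow_natCast, ← Real.rpow_add hn]
        norm_num
      calc ‖cc s b n‖ * ‖In T Δ n‖ ≤ (Cd * (n : ℝ) ^ 2) * (C3 * (n : ℝ) ^ (-(4 : ℝ)) * T ^ 5) :=
            mul_le_mul ((hccd n).trans (hbd n)) (h3b T Δ (by linarith) hΔT n h).2 (norm_nonneg _) (by positivity)
        _ = Cd * C3 * T ^ 5 * ((n : ℝ) ^ 2 * (n : ℝ) ^ (-(4 : ℝ))) := by ring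
        _ = _ := by rw [e]
  have hJval : ∑' n : ℕ, cc s b n * J n = 2 * Real.pi * ∑ n ∈ Finset.Icc 1 ⌊2 * T⌋₊, cc s b n * ((ge T Δ n : ℝ) : ℂ) := by
    rw [tsum_eq_sum (s := Finset.Icc 1 ⌊2 * T⌋₊)]
    · rw [Finset.mul_sum]
      apply Finset.sum_congr rfl
      intro n hn
      rw [hJ]
      simp only [if_pos hn]
      push_cast
      ring
    · intro n hn
      rw [hJ]
      simp only [if_neg hn, mul_zero]
  have hsub : ∑' n : ℕ, cc s b n * (In T Δ n - J n) = (∑' n : ℕ, cc s b n * In T Δ n) - ∑' n : ℕ, cc s b n * J n := by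
    rw [← hIsum.tsum_sub hJsum]
    exact tsum_congr fun n => by ring
  rw [hsub, hJval, ← hLd, ← hC1, ← hC2] at hfin
  have hg := hgs T Δ hTT4 hΔ1 h20T
  obtain ⟨S, hS⟩ : ∃ S, S = ∑ n ∈ Finset.Icc 1 ⌊2 * T⌋₊, cc s b n * ((ge T Δ n : ℝ) : ℂ) := ⟨_, rfl⟩
  rw [← hS] at hg hfin
  obtain ⟨N, hN⟩ : ∃ N, N = ∑ j ∈ s, rr s b j * ∫ u in Ioi (1 : ℝ), (u : ℂ) ^ (-((b j : ℂ) * I)) * ((ge T Δ u : ℝ) : ℂ) := ⟨_, rfl⟩
  rw [← hN] at hg ⊢
  obtain ⟨A, hA⟩ : ∃ A : ℂ, A = ∑' n : ℕ, cc s b n * In T Δ n := ⟨_, rfl⟩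
  rw [← hA] at hfin ⊢
  have e2 : A - 2 * Real.pi * N = (A - 2 * Real.pi * S) + 2 * Real.pi * (S - N) := by ring
  rw [e2]
  obtain ⟨R, hR⟩ : ∃ R, R = Δ * T ^ (-δ) + Δ / T * Δ * L ^ (j - 1) := ⟨_, rfl⟩
  rw [← hLd, ← hR] at hg
  rw [← hLd, ← hR]
  have h1 : ‖2 * (Real.pi : ℂ) * (S - N)‖ ≤ 2 * Real.pi * (K0 * R) := by
    rw [norm_mul, norm_mul, Complex.norm_real, Real.norm_of_nonneg Real.pi_pos.le, Complex.norm_ofNat]
    exact mul_le_mul_of_nonneg_left hg (by positivity)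
  have hRR : Δ * T ^ (-δ) ≤ R := by
    rw [hR]
    have : 0 ≤ Δ / T * Δ * L ^ (j - 1) := by positivity
    linarith
  have hLj : L ^ (j - 1) ≤ T ^ (1 / 8 : ℝ) := by
    have h3 := hT3 T hTT3
    rw [Real.norm_of_nonneg (by rw [← hLd]; linarith), Real.norm_of_nonneg (by positivity), one_mul, ← hLd] at h3
    calc L ^ (j - 1) ≤ L ^ (j - 1 + 1) := pow_le_pow_right₀ hL1 (by omega)
      _ ≤ (T ^ (1 / (8 * ((j - 1 + 1 : ℕ) : ℝ)))) ^ (j - 1 + 1) := pow_le_pow_left₀ (by linarith) h3 _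
      _ = T ^ (1 / 8 : ℝ) := by
        rw [← Real.rpow_natCast, ← Real.rpow_mul hT0.le]
        congr 1
        field_simp
  have h3 : T ^ 2 * T ^ (1 / 8 : ℝ) ≤ Δ ^ 3 * T ^ (-δ) := by
    have h31 : T ^ 2 * T ^ (1 / 8 : ℝ) ≤ T ^ (21 / 8 - δ : ℝ) := by
      rw [← Real.rpow_natCast, ← Real.rpow_add hT0]
      apply Real.rpow_le_rpow_of_exponent_le (by linarith)
      push_cast
      linarith
    have h33 : T ^ (21 / 8 - δ : ℝ) = (T ^ (7 / 8 : ℝ)) ^ 3 * T ^ (-δ) := by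
      rw [← Real.rpow_natCast, ← Real.rpow_mul hT0.le, ← Real.rpow_add hT0]
      congr 1
      push_cast
      ring
    rw [h33] at h31
    exact h31.trans (mul_le_mul_of_nonneg_right (pow_le_pow_left₀ (by positivity) hΔ78 3) (by positivity))
  have h4 : η * C1 * T * L ^ (j - 1) ≤ C1 * 40000 * (Δ * T ^ (-δ)) := by
    rw [hη]
    have h5 : T / Δ ^ 2 * T * L ^ (j - 1) ≤ Δ * T ^ (-δ) := by
      rw [div_mul_eq_mul_div, div_mul_eq_mul_div, div_le_iff₀ (by positivity)]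
      calc T * T * L ^ (j - 1) ≤ T * T * T ^ (1 / 8 : ℝ) := mul_le_mul_of_nonneg_left hLj (by positivity)
        _ = T ^ 2 * T ^ (1 / 8 : ℝ) := by ring
        _ ≤ Δ ^ 3 * T ^ (-δ) := h3
        _ = Δ * T ^ (-δ) * Δ ^ 2 := by ring
    calc 40000 * (T / Δ ^ 2) * C1 * T * L ^ (j - 1) = C1 * 40000 * (T / Δ ^ 2 * T * L ^ (j - 1)) := by ring
      _ ≤ _ := mul_le_mul_of_nonneg_left h5 (by positivity)
  have h5 : C2 * L ^ (j - 1) ≤ C2 * (Δ * T ^ (-δ)) := by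
    apply mul_le_mul_of_nonneg_left _ hC20
    calc L ^ (j - 1) ≤ T ^ (1 / 8 : ℝ) := hLj
      _ ≤ T ^ (7 / 8 + -δ : ℝ) := Real.rpow_le_rpow_of_exponent_le (by linarith) (by linarith)
      _ = T ^ (7 / 8 : ℝ) * T ^ (-δ) := Real.rpow_add hT0 _ _
      _ ≤ _ := mul_le_mul_of_nonneg_right hΔ78 (by positivity)
  refine (norm_add_le _ _).trans ((add_le_add hfin h1).trans ?_)
  have h6 : (C1 * 40000 + C2) * (Δ * T ^ (-δ)) ≤ (C1 * 40000 + C2) * R := mul_le_mul_of_nonneg_left hRR (by positivity)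
  calc _ ≤ C1 * 40000 * (Δ * T ^ (-δ)) + C2 * (Δ * T ^ (-δ)) + 2 * Real.pi * (K0 * R) := by linarith
    _ = (C1 * 40000 + C2) * (Δ * T ^ (-δ)) + 2 * Real.pi * K0 * R := by ring
    _ ≤ (C1 * 40000 + C2) * R + 2 * Real.pi * K0 * R := by linarith
    _ = _ := by ring

end Pool.Agent.N30.SM
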