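import Pool.Agent.N30.SM.Bg

set_option autoImplicit false

/-! Gaussian windows for the product of shifted zeta functions with one conjugate. -/

open Complex MeasureTheory Set Filter Topology

namespace Pool.Agent.N30.SM

open Pool.Agent.W188.QS Pool.Agent.N30.MZ Pool.Agent.N30.OD Pool.Agent.N30.HM
open Pool.Agent.W131.QSJJ (dd dd_nonneg dd_zero dd_cast norm_cp series In_le2)
open Pool.Agent.W885.QS (norm_zeta_le_two gg_integrable gg_integral gg_pos GG_norm fp_re fp_im fp_cont GG_cont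
  zeta_cont zeta_bd bound_int bound_compl tail_pt)

variable {ι : Type} [DecidableEq ι]

/-- the weighted integrand -/
noncomputable def HS (s : Finset ι) (b : ι → ℝ) (T Δ : ℝ) (w : ℂ) : ℂ := Fz s b w * XX w * GG T Δ w

/-- the moment in a window -/
noncomputable def MS (s : Finset ι) (b : ι → ℝ) (T Δ : ℝ) : ℂ :=
  ∫ t in (T / 2)..(3 * T / 2), Fz s b (cp t) * XX (cp t) * ((gg T Δ t : ℝ) : ℂ)

omit [DecidableEq ι] in
lemma noPole {s : Finset ι} {b : ι → ℝ} {w : ℂ} (h : ∀ j ∈ s, |b j| < w.im) : ∀ j ∈ s, w + (b j : ℂ) * I ≠ 1 := by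
  intro j hj h1
  have h2 := congrArg Complex.im h1
  simp at h2
  have h3 := h j hj
  have h4 := neg_le_abs (b j)
  linarith

lemma XX_up {K x y : ℝ} (hX : ∀ s : ℂ, 1 / 2 ≤ s.re → s.re ≤ 4 → 1 ≤ s.im →
    Real.exp (-K) * s.im ^ (s.re - 1 / 2) ≤ ‖XX s‖ ∧ ‖XX s‖ ≤ Real.exp K * s.im ^ (s.re - 1 / 2))
    (hx1 : 1 / 2 ≤ x) (hx2 : x ≤ 4) (hy : 1 ≤ y) : ‖XX (⟨x, y⟩ : ℂ)‖ ≤ Real.exp K * y ^ 4 := by
  have h1 := (hX (⟨x, y⟩ : ℂ) hx1 hx2 hy).2
  simp only at h1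
  refine h1.trans (mul_le_mul_of_nonneg_left ?_ (Real.exp_pos K).le)
  calc y ^ (x - 1 / 2) ≤ y ^ (4 : ℝ) := Real.rpow_le_rpow_of_exponent_le hy (by linarith)
    _ = y ^ 4 := by rw [show (4 : ℝ) = ((4 : ℕ) : ℝ) by norm_num, Real.rpow_natCast]

/-- shift of the line of integration -/
theorem shift_s (s : Finset ι) (b : ι → ℝ) : ∃ B T₀ : ℝ, 1 ≤ B ∧ 100 ≤ T₀ ∧ ∀ T Δ : ℝ, T₀ ≤ T → 1 ≤ Δ →
    B * Δ * √(Real.log T) ≤ T → ‖MS s b T Δ - ∫ t in (T / 2)..(3 * T / 2), HS s b T Δ (fp t)‖ ≤ 7 * T ^ (-(3 : ℝ)) := by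
  obtain ⟨-, -, -, -, hGG, -, -, -, ⟨K, hK, hX⟩, -⟩ := a_line
  obtain ⟨m, hm⟩ : ∃ m : ℕ, m = s.card := ⟨_, rfl⟩
  obtain ⟨B, T₀, hB, hT₀, hE⟩ := Pool.Agent.W723.QS.qs_edge a_line 0 (3 + 2 * m + 5)
  have hM := MB_pos s b
  refine ⟨B, max T₀ (max (4 * MB s b) (16 * Real.exp K)), hB, hT₀.trans (le_max_left _ _), fun T Δ hT hΔ hBT => ?_⟩
  have hTT : T₀ ≤ T := (le_max_left _ _).trans hT
  have hTM : 4 * MB s b ≤ T := ((le_max_left _ _).trans (le_max_right _ _)).trans hT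
  have hTK : 16 * Real.exp K ≤ T := ((le_max_right _ _).trans (le_max_right _ _)).trans hT
  have hT100 : 100 ≤ T := hT₀.trans hTT
  have hT0 : 0 < T := by linarith
  have hEd := hE T Δ hTT hΔ hBT
  have hab : T / 2 ≤ 3 * T / 2 := by linarith
  have hbj : ∀ j ∈ s, |b j| ≤ T / 4 := by
    intro j hj
    have := MB_b (b := b) hj
    linarith
  have hrect := Complex.integral_boundary_rect_eq_zero_of_differentiableOn (HS s b T Δ) (⟨1 / 2, T / 2⟩ : ℂ)
    (⟨4, 3 * T / 2⟩ : ℂ) (by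
      intro w hw
      rw [mem_reProdIm] at hw
      simp only at hw
      have him : w.im ∈ Icc (T / 2) (3 * T / 2) := by rw [← uIcc_of_le hab]; exact hw.2
      obtain ⟨h1, h2, h3, -⟩ := Pool.Agent.W22.QS.qs_basic w (by linarith [him.1])
      have hF : DifferentiableAt ℂ (Fz s b) w := Fz_diff s b (noPole fun j hj => by
        have := hbj j hj
        linarith [him.1])
      have hG : DifferentiableAt ℂ (GG T Δ) w := by
        unfold GG
        fun_prop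
      exact ((hF.mul h1).mul hG).differentiableWithinAt)
  simp only [smul_eq_mul] at hrect
  have e1 : ∫ y : ℝ in (T / 2)..(3 * T / 2), HS s b T Δ (((1 / 2 : ℝ) : ℂ) + y * I) = MS s b T Δ := by
    unfold MS
    apply intervalIntegral.integral_congr
    intro t ht
    have e : (((1 / 2 : ℝ) : ℂ) + t * I) = cp t := by unfold cp; push_cast; ring
    simp only
    rw [e]
    unfold HS
    rw [hGG T Δ t]
  have e2 : ∫ y : ℝ in (T / 2)..(3 * T / 2), HS s b T Δ (((4 : ℝ) : ℂ) + y * I) =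
      ∫ t in (T / 2)..(3 * T / 2), HS s b T Δ (fp t) := by
    apply intervalIntegral.integral_congr
    intro t _
    simp only
    unfold fp
    push_cast
    rfl
  rw [e1, e2] at hrect
  have hhor : ∀ y : ℝ, (y = T / 2 ∨ y = 3 * T / 2) →
      ‖∫ x : ℝ in (1 / 2 : ℝ)..4, HS s b T Δ ((x : ℂ) + (y : ℂ) * I)‖ ≤ 7 / 2 * T ^ (-(3 : ℝ)) := by
    intro y hy
    have hy50 : 50 ≤ y := by rcases hy with h | h <;> rw [h] <;> linarith
    have hyT : T / 2 ≤ y := by rcases hy with h | h <;> rw [h] <;> linarith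
    have hy32 : y ≤ 3 * T / 2 := by rcases hy with h | h <;> rw [h] <;> linarith
    have hb : ∀ x ∈ uIoc (1 / 2 : ℝ) 4, ‖HS s b T Δ ((x : ℂ) + (y : ℂ) * I)‖ ≤ T ^ (-(3 : ℝ)) := by
      intro x hx
      rw [uIoc_of_le (by norm_num)] at hx
      have e : ((x : ℂ) + (y : ℂ) * I) = (⟨x, y⟩ : ℂ) := by apply Complex.ext <;> simp
      rw [e]
      unfold HS
      have h1 : ‖GG T Δ (⟨x, y⟩ : ℂ)‖ ≤ T ^ (-(3 + 2 * (m : ℝ) + 5)) := by
        have := hEd y (by
          rcases hy with h | h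
          · left; rw [h]; simp
          · right; rw [h]; simp) x hx.1.le hx.2
        unfold FF at this
        simpa using this
      have h2 : ‖XX (⟨x, y⟩ : ℂ)‖ ≤ T ^ (5 : ℝ) := by
        refine (XX_up hX hx.1.le hx.2 (by linarith)).trans ?_
        have h3 : y ^ 4 ≤ (2 * T) ^ 4 := pow_le_pow_left₀ (by linarith) (by linarith) 4
        have h4 : 0 ≤ T ^ 4 := by positivity
        calc Real.exp K * y ^ 4 ≤ Real.exp K * (2 * T) ^ 4 := mul_le_mul_of_nonneg_left h3 (Real.exp_pos K).le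
          _ = 16 * Real.exp K * T ^ 4 := by ring
          _ ≤ T * T ^ 4 := mul_le_mul_of_nonneg_right hTK h4
          _ = T ^ (5 : ℝ) := by
              rw [show (5 : ℝ) = ((5 : ℕ) : ℝ) by norm_num, Real.rpow_natCast]; ring
      have h3 : ‖Fz s b (⟨x, y⟩ : ℂ)‖ ≤ T ^ (2 * (m : ℝ)) := by
        have h4 : ‖Fz s b (⟨x, y⟩ : ℂ)‖ ≤ (T ^ 2) ^ s.card := by
          apply Fz_bd
          intro j hj
          have e3 : (⟨x, y⟩ : ℂ) + (b j : ℂ) * I = (⟨x, y + b j⟩ : ℂ) := by apply Complex.ext <;> simp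
          rw [e3]
          have h5 := abs_le.1 (hbj j hj)
          exact zeta_hor hT100 hx.1.le hx.2 (by linarith) (by linarith)
        refine h4.trans (le_of_eq ?_)
        rw [← pow_mul, ← Real.rpow_natCast, hm]
        push_cast
        rfl
      rw [norm_mul, norm_mul]
      calc _ ≤ T ^ (2 * (m : ℝ)) * T ^ (5 : ℝ) * T ^ (-(3 + 2 * (m : ℝ) + 5)) :=
            mul_le_mul (mul_le_mul h3 h2 (norm_nonneg _) (by positivity)) h1 (norm_nonneg _) (by positivity)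
        _ = T ^ (-(3 : ℝ)) := by
            rw [← Real.rpow_add hT0, ← Real.rpow_add hT0]
            congr 1
            ring
    have := intervalIntegral.norm_integral_le_of_norm_le_const hb
    rw [show |(4 : ℝ) - 1 / 2| = 7 / 2 by norm_num] at this
    linarith
  have h1 := hhor (T / 2) (Or.inl rfl)
  have h2 := hhor (3 * T / 2) (Or.inr rfl)
  obtain ⟨a1, ha1⟩ : ∃ a1, a1 = ∫ x : ℝ in (1 / 2 : ℝ)..4, HS s b T Δ ((x : ℂ) + ((T / 2 : ℝ) : ℂ) * I) := ⟨_, rfl⟩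
  obtain ⟨a2, ha2⟩ : ∃ a2, a2 = ∫ x : ℝ in (1 / 2 : ℝ)..4, HS s b T Δ ((x : ℂ) + ((3 * T / 2 : ℝ) : ℂ) * I) := ⟨_, rfl⟩
  rw [← ha1] at h1
  rw [← ha2] at h2
  rw [← ha1, ← ha2] at hrect
  obtain ⟨W, hW⟩ : ∃ W, W = ∫ t in (T / 2)..(3 * T / 2), HS s b T Δ (fp t) := ⟨_, rfl⟩
  rw [← hW] at hrect ⊢
  have h3 : I * (MS s b T Δ - W) = a1 - a2 := by linear_combination -hrect
  have h4 : ‖MS s b T Δ - W‖ = ‖a1 - a2‖ := by
    rw [← h3, norm_mul, norm_I, one_mul]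
  rw [h4]
  refine (norm_sub_le _ _).trans ((add_le_add h1 h2).trans (le_of_eq ?_))
  ring

/-- one term of the main term -/
noncomputable def em (β t : ℝ) : ℂ := ((t / (2 * Real.pi) : ℝ) : ℂ) ^ (-((β : ℂ) * I))

lemma em_norm (β : ℝ) {t : ℝ} (ht : 0 < t) : ‖em β t‖ = 1 := by
  unfold em
  have hp := Real.pi_pos
  rw [Complex.norm_cpow_eq_rpow_re_of_pos (by positivity)]
  simp

lemma em_meas (β : ℝ) : Measurable (em β) := by
  unfold em
  exact Measurable.pow (Complex.measurable_ofReal.comp (by fun_prop)) measurable_const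

lemma gg_two {T Δ t : ℝ} (hΔ : 0 < Δ) : gg T Δ t ≤ gg T (2 * Δ) t := by
  unfold gg
  apply Real.exp_le_exp.2
  have e1 : ((t - T) / (2 * Δ)) ^ 2 = ((t - T) / Δ) ^ 2 / 4 := by field_simp; ring
  rw [e1]
  have := sq_nonneg ((t - T) / Δ)
  linarith

/-- the main term in the variable `t` -/
lemma main_t (β : ℝ) {B T Δ : ℝ} (hB : 20 ≤ B) (hT : 100 ≤ T) (hΔ : 1 ≤ Δ) (hBT : B * Δ * √(Real.log T) ≤ T) :
    ‖2 * Real.pi * (∫ u in Ioi (1 : ℝ), (u : ℂ) ^ (-((β : ℂ) * I)) * ((ge T Δ u : ℝ) : ℂ)) -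
      ∫ t in (T / 2)..(3 * T / 2), em β t * ((gg T Δ t : ℝ) : ℂ)‖ ≤ T ^ (-(2 : ℝ)) * (√Real.pi * (4 * Δ)) := by
  have hp := Real.pi_pos
  have hp2 := Real.pi_lt_d2
  have hT0 : 0 < T := by linarith
  have hΔ0 : 0 < Δ := by linarith
  have hL1 : 1 ≤ Real.log T := by
    rw [Real.le_log_iff_exp_le hT0]
    have := Real.exp_one_lt_d9
    linarith
  obtain ⟨F, hF⟩ : ∃ F : ℝ → ℂ, F = fun t => em β t * ((gg T Δ t : ℝ) : ℂ) := ⟨_, rfl⟩
  have hsub := integral_comp_mul_left_Ioi (fun u : ℝ => (u : ℂ) ^ (-((β : ℂ) * I)) * ((ge T Δ u : ℝ) : ℂ)) (2 * Real.pi)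
    (b := 1 / (2 * Real.pi)) (by positivity)
  have e1 : 1 / (2 * Real.pi) * (2 * Real.pi) = 1 := by field_simp
  rw [e1] at hsub
  have e2 : (fun x : ℝ => (((1 / (2 * Real.pi) * x : ℝ)) : ℂ) ^ (-((β : ℂ) * I)) * ((ge T Δ (1 / (2 * Real.pi) * x) : ℝ) : ℂ)) = F := by
    funext x
    rw [hF]
    simp only
    have e3 : 1 / (2 * Real.pi) * x = x / (2 * Real.pi) := by ring
    have e4 : ge T Δ (x / (2 * Real.pi)) = gg T Δ x := by
      unfold ge gg
      congr 1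
      have : 2 * Real.pi * (x / (2 * Real.pi)) = x := by field_simp
      rw [this, ← neg_sub x T, neg_div, neg_sq]
    rw [e3, e4]
    rfl
  rw [e2] at hsub
  have e5 : 2 * (Real.pi : ℂ) * (∫ u in Ioi (1 : ℝ), (u : ℂ) ^ (-((β : ℂ) * I)) * ((ge T Δ u : ℝ) : ℂ)) = ∫ x in Ioi (2 * Real.pi), F x := by
    rw [hsub]
    rw [one_div, inv_inv, Complex.real_smul]
    push_cast
    ring
  rw [e5]
  have hFm : Measurable F := by
    rw [hF]
    apply (em_meas β).mul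
    apply Complex.measurable_ofReal.comp
    unfold gg
    fun_prop
  have hFb : ∀ t ∈ Ioi (2 * Real.pi), ‖F t‖ ≤ gg T Δ t := by
    intro t ht
    have ht0 : 0 < t := lt_trans (by positivity) ht
    rw [hF]
    simp only
    have hg0 : 0 ≤ gg T Δ t := (Real.exp_pos _).le
    rw [norm_mul, em_norm β ht0, one_mul, Complex.norm_real, Real.norm_of_nonneg hg0]
  have hFi : IntegrableOn F (Ioi (2 * Real.pi)) := by
    refine Integrable.mono' (gg_integrable T Δ hΔ0).integrableOn hFm.aestronglyMeasurable ?_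
    exact (ae_restrict_mem measurableSet_Ioi).mono hFb
  have hss : Ioc (T / 2) (3 * T / 2) ⊆ Ioi (2 * Real.pi) := by
    intro t ht
    rw [mem_Ioi]
    linarith [ht.1]
  rw [intervalIntegral.integral_of_le (by linarith)]
  have e6 : (∫ x in Ioi (2 * Real.pi), F x) - ∫ x in Ioc (T / 2) (3 * T / 2), F x = ∫ x in Ioi (2 * Real.pi) \ Ioc (T / 2) (3 * T / 2), F x := by
    rw [setIntegral_sdiff measurableSet_Ioc hFi hss]
  have e7 : (∫ t in Ioc (T / 2) (3 * T / 2), em β t * ((gg T Δ t : ℝ) : ℂ)) = ∫ x in Ioc (T / 2) (3 * T / 2), F x := by rw [hF]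
  rw [e7, e6]
  have hgi := (gg_integrable T (4 * Δ) (by linarith)).const_mul (T ^ (-(2 : ℝ)))
  have hms : MeasurableSet (Ioi (2 * Real.pi) \ Ioc (T / 2) (3 * T / 2)) := measurableSet_Ioi.diff measurableSet_Ioc
  have h1 : ‖∫ x in Ioi (2 * Real.pi) \ Ioc (T / 2) (3 * T / 2), F x‖ ≤
      ∫ x in Ioi (2 * Real.pi) \ Ioc (T / 2) (3 * T / 2), T ^ (-(2 : ℝ)) * gg T (4 * Δ) x := by
    apply norm_integral_le_of_norm_le hgi.integrableOn
    filter_upwards [ae_restrict_mem hms] with t ht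
    have h3 : T / 2 ≤ |t - T| := by
      have h4 := ht.2
      rw [mem_Ioc, not_and_or, not_lt, not_le] at h4
      rcases h4 with h | h
      · rw [abs_of_nonpos (by linarith)]; linarith
      · rw [abs_of_nonneg (by linarith)]; linarith
    exact (hFb t ht.1).trans ((gg_two hΔ0).trans (gg_tail hB hL1 hT0 hΔ hBT h3))
  refine h1.trans ((setIntegral_le_integral hgi (Eventually.of_forall fun t => ?_)).trans ?_)
  · have := gg_pos T (4 * Δ) t
    simp only [Pi.zero_apply]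
    positivity
  · rw [integral_const_mul, gg_integral T (4 * Δ) (by linarith)]

/-- the recipe for the product -/
noncomputable def Qm (s : Finset ι) (b : ι → ℝ) (t : ℝ) : ℂ := ∑ j ∈ s, rr s b j * em (b j) t

end Pool.Agent.N30.SM
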