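import Pool.Agent.N30.SM.Bh

set_option autoImplicit false

/-! The recipe in Gaussian windows for the product of shifted zeta functions with one conjugate. -/

open Complex MeasureTheory Set Filter Topology

namespace Pool.Agent.N30.SM

open Pool.Agent.W188.QS Pool.Agent.N30.MZ Pool.Agent.N30.OD Pool.Agent.N30.HM
open Pool.Agent.W131.QSJJ (dd dd_nonneg dd_zero dd_cast norm_cp series In_le2)
open Pool.Agent.W885.QS (norm_zeta_le_two gg_integrable gg_integral gg_pos GG_norm fp_re fp_im fp_cont GG_cont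
  zeta_cont zeta_bd bound_int bound_compl tail_pt)

variable {ι : Type} [DecidableEq ι]

omit [DecidableEq ι] in
lemma Fz_fp_bd (s : Finset ι) (b : ι → ℝ) (t : ℝ) : ‖Fz s b (fp t)‖ ≤ 2 ^ s.card := by
  apply Fz_bd
  intro j _
  apply Pool.Agent.W188.Ray.norm_zeta_le_two
  rw [Complex.add_re, fp_re]
  simp
  norm_num

omit [DecidableEq ι] in
lemma Fz_fp_cont (s : Finset ι) (b : ι → ℝ) : Continuous fun t : ℝ => Fz s b (fp t) := by
  rw [continuous_iff_continuousAt]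
  intro t
  have h1 : ∀ j ∈ s, fp t + (b j : ℂ) * I ≠ 1 := by
    intro j _ h
    have := congrArg Complex.re h
    rw [Complex.add_re, fp_re] at this
    simp at this
  exact ContinuousAt.comp (f := fp) (Fz_diff s b h1).continuousAt fp_cont.continuousAt

lemma em_contOn (β : ℝ) {a c : ℝ} (ha : 0 < a) : ContinuousOn (em β) (Icc a c) := by
  intro t ht
  have ht0 : 0 < t := lt_of_lt_of_le ha ht.1
  have hp := Real.pi_pos
  unfold em
  apply ContinuousAt.continuousWithinAt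
  apply ContinuousAt.cpow
  · fun_prop
  · exact continuousAt_const
  · left
    rw [Complex.ofReal_re]
    positivity

/-- **the recipe in windows** -/
theorem window_s {s : Finset ι} {b : ι → ℝ} (hs : 2 ≤ s.card) (hb : Set.InjOn b s) : ∃ C δ B T₀ : ℝ, 0 ≤ C ∧ 0 < δ ∧ δ ≤ 1 / 8 ∧
    20 ≤ B ∧ 100 ≤ T₀ ∧ ∀ T Δ : ℝ, T₀ ≤ T → T ^ (1 - δ) ≤ Δ → B * Δ * √(Real.log T) ≤ T →
    ‖MS s b T Δ - ∫ t in (T / 2)..(3 * T / 2), Qm s b t * ((gg T Δ t : ℝ) : ℂ)‖ ≤
      C * (Δ * T ^ (-δ) + Δ / T * Δ * Real.log T ^ (s.card - 1)) := by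
  obtain ⟨B1, T1, hB1, hT1, hsh⟩ := shift_s s b
  obtain ⟨K2, δ2, B2, T2, hK2, hδ2, hδ28, hB2, hJ⟩ := Jc hs hb
  obtain ⟨C3, hX3, -⟩ := Pool.Agent.W253.QS.qs_i3
  obtain ⟨E, hE⟩ : ∃ E, E = Real.exp (49 / 4) := ⟨_, rfl⟩
  have hE0 : 0 < E := by rw [hE]; exact Real.exp_pos _
  obtain ⟨M, hM⟩ : ∃ M, M = 2 ^ s.card * |C3| * E * (384 * Real.exp 2) := ⟨_, rfl⟩
  have hM0 : 0 ≤ M := by rw [hM]; positivity
  obtain ⟨M2, hM2⟩ : ∃ M2, M2 = MB s b := ⟨_, rfl⟩
  have hM21 : 1 ≤ M2 := by rw [hM2]; exact MB_pos s b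
  refine ⟨7 + K2 + (M + M2) * (√Real.pi * 4), δ2, max (max B1 B2) 20, max T1 T2, by positivity, hδ2, hδ28,
    le_max_right _ _, hT1.trans (le_max_left _ _), fun T Δ hT hΔ hBT => ?_⟩
  have hTT1 : T1 ≤ T := (le_max_left _ _).trans hT
  have hTT2 : T2 ≤ T := (le_max_right _ _).trans hT
  have hT100 : 100 ≤ T := hT1.trans hTT1
  have hT0 : 0 < T := by linarith
  have hΔ1 : 1 ≤ Δ := by
    refine le_trans ?_ hΔ
    exact Real.one_le_rpow (by linarith) (by linarith)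
  have hΔ0 : 0 < Δ := by linarith
  have hBB : ∀ b : ℝ, b ≤ max (max B1 B2) 20 → b * Δ * √(Real.log T) ≤ T := by
    intro b hb
    refine le_trans ?_ hBT
    apply mul_le_mul_of_nonneg_right _ (Real.sqrt_nonneg _)
    exact mul_le_mul_of_nonneg_right hb hΔ0.le
  have hL1 : 1 ≤ Real.log T := by
    rw [Real.le_log_iff_exp_le hT0]
    have := Real.exp_one_lt_d9
    linarith
  have h1 := hsh T Δ hTT1 hΔ1 (hBB B1 ((le_max_left _ _).trans (le_max_left _ _)))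
  have h2 := hJ T Δ hTT2 hΔ (hBB B2 ((le_max_right _ _).trans (le_max_left _ _)))
  obtain ⟨F, hF⟩ : ∃ F : ℝ → ℂ, F = fun t => Fz s b (fp t) * XX (fp t) * GG T Δ (fp t) := ⟨_, rfl⟩
  have e1 : ∫ t in (T / 2)..(3 * T / 2), HS s b T Δ (fp t) = ∫ t in (T / 2)..(3 * T / 2), F t := by rw [hF]; rfl
  have hXm : Continuous fun t : ℝ => XX (fp t) := by
    rw [continuous_iff_continuousAt]
    intro t
    have hg : ∀ m : ℕ, fp t ≠ -(m : ℂ) := by
      intro m h
      have := congrArg Complex.re h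
      rw [fp_re] at this
      simp at this
      have h2 : (0:ℝ) ≤ m := Nat.cast_nonneg m
      linarith
    have h1 : ContinuousAt XX (fp t) := by
      unfold XX
      have h3 : ContinuousAt Complex.Gamma (fp t) := (Complex.differentiableAt_Gamma _ hg).continuousAt
      have h4 : ContinuousAt (fun s : ℂ => (2 * (Real.pi : ℂ)) ^ (-s)) (fp t) := by
        apply ContinuousAt.const_cpow
        · fun_prop
        · left
          have := Real.pi_ne_zero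
          simp [this]
      fun_prop
    exact ContinuousAt.comp (f := fp) h1 fp_cont.continuousAt
  have hFc : Continuous F := by
    rw [hF]
    exact ((Fz_fp_cont s b).mul hXm).mul (GG_cont T Δ)
  have hFb : ∀ t, ‖F t‖ ≤ 2 ^ s.card * |C3| * E * ((1 + |t|) ^ 4 * gg T Δ t) := by
    intro t
    rw [hF]
    simp only
    rw [norm_mul, norm_mul]
    have h3 := Fz_fp_bd s b t
    have h4 : ‖XX (fp t)‖ ≤ |C3| * (1 + |t|) ^ 4 := (hX3 t).trans (mul_le_mul_of_nonneg_right (le_abs_self _) (by positivity))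
    have h5 := GG_norm T Δ t hΔ1
    rw [← hE] at h5
    calc _ ≤ 2 ^ s.card * (|C3| * (1 + |t|) ^ 4) * (E * gg T Δ t) :=
          mul_le_mul (mul_le_mul h3 h4 (norm_nonneg _) (by positivity)) h5 (norm_nonneg _) (by positivity)
      _ = _ := by ring
  have htailp : ∀ t ∉ Ioc (T / 2) (3 * T / 2), ‖F t‖ ≤ M * T ^ (-(2 : ℝ)) * gg T (4 * Δ) t := by
    intro t ht
    have h3 : T / 2 ≤ |t - T| := by
      rw [mem_Ioc, not_and_or, not_lt, not_le] at ht
      rcases ht with h | h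
      · rw [abs_of_nonpos (by linarith)]; linarith
      · rw [abs_of_nonneg (by linarith)]; linarith
    have h4 := tail_pt (B := max (max B1 B2) 20) (le_max_right _ _) hL1 (by linarith) hΔ1 hBT (t := t) (by linarith)
    have h5 := gg_tail (B := max (max B1 B2) 20) (le_max_right _ _) hL1 (by linarith) hΔ1 hBT (t := t) h3
    calc ‖F t‖ ≤ _ := hFb t
      _ ≤ 2 ^ s.card * |C3| * E * (384 * Real.exp 2 * gg T (2 * Δ) t) := mul_le_mul_of_nonneg_left h4 (by positivity)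
      _ = M * gg T (2 * Δ) t := by rw [hM]; ring
      _ ≤ M * (T ^ (-(2 : ℝ)) * gg T (4 * Δ) t) := mul_le_mul_of_nonneg_left h5 hM0
      _ = _ := by ring
  have hMT0 : 0 ≤ M * T ^ (-(2 : ℝ)) := by positivity
  have htail : ‖∫ t in (Ioc (T / 2) (3 * T / 2))ᶜ, F t‖ ≤ M * T ^ (-(2 : ℝ)) * (√Real.pi * (4 * Δ)) :=
    bound_compl _ _ _ T (4 * Δ) _ (by linarith) hMT0 htailp
  have hFi : Integrable F := by
    have hon : IntegrableOn F (Ioc (T / 2) (3 * T / 2)) := (hFc.integrableOn_Icc).mono_set Ioc_subset_Icc_self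
    have hoff : IntegrableOn F (Ioc (T / 2) (3 * T / 2))ᶜ := by
      refine Integrable.mono' ((gg_integrable T (4 * Δ) (by linarith)).const_mul (M * T ^ (-(2 : ℝ)))).integrableOn hFc.aestronglyMeasurable ?_
      exact (ae_restrict_iff' measurableSet_Ioc.compl).mpr (Eventually.of_forall fun t ht => htailp t ht)
    have := hon.union hoff
    rwa [union_compl_self, integrableOn_univ] at this
  have hsplit : (∫ t : ℝ, F t) = (∫ t in (T / 2)..(3 * T / 2), F t) + ∫ t in (Ioc (T / 2) (3 * T / 2))ᶜ, F t := by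
    rw [intervalIntegral.integral_of_le (by linarith)]
    exact (integral_add_compl measurableSet_Ioc hFi).symm
  have hJ' : (∫ t : ℝ, Fz s b (fp t) * XX (fp t) * GG T Δ (fp t)) = ∫ t : ℝ, F t := by rw [hF]
  rw [e1] at h1
  rw [hJ', hsplit] at h2
  -- the main term
  obtain ⟨Q1, hQ1⟩ : ∃ Q1 : ℂ, Q1 = 2 * Real.pi * ∑ j ∈ s, rr s b j * ∫ u in Ioi (1 : ℝ), (u : ℂ) ^ (-((b j : ℂ) * I)) * ((ge T Δ u : ℝ) : ℂ) :=
    ⟨_, rfl⟩
  obtain ⟨Q2, hQ2⟩ : ∃ Q2 : ℂ, Q2 = ∫ t in (T / 2)..(3 * T / 2), Qm s b t * ((gg T Δ t : ℝ) : ℂ) := ⟨_, rfl⟩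
  have hemi : ∀ β : ℝ, IntervalIntegrable (fun t => em β t * ((gg T Δ t : ℝ) : ℂ)) volume (T / 2) (3 * T / 2) := by
    intro β
    apply ContinuousOn.intervalIntegrable
    rw [uIcc_of_le (by linarith)]
    apply (em_contOn β (by linarith)).mul
    apply Continuous.continuousOn
    unfold gg
    fun_prop
  have hQ2' : Q2 = ∑ j ∈ s, rr s b j * ∫ t in (T / 2)..(3 * T / 2), em (b j) t * ((gg T Δ t : ℝ) : ℂ) := by
    rw [hQ2]
    have e3 : (fun t => Qm s b t * ((gg T Δ t : ℝ) : ℂ)) = fun t => ∑ j ∈ s, rr s b j * (em (b j) t * ((gg T Δ t : ℝ) : ℂ)) := by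
      funext t
      unfold Qm
      rw [Finset.sum_mul]
      exact Finset.sum_congr rfl fun j _ => by ring
    rw [e3, intervalIntegral.integral_finsetSum fun j _ => (hemi (b j)).const_mul _]
    apply Finset.sum_congr rfl
    intro j _
    rw [intervalIntegral.integral_const_mul]
  have hQQ : ‖Q1 - Q2‖ ≤ M2 * (T ^ (-(2 : ℝ)) * (√Real.pi * (4 * Δ))) := by
    rw [hQ1, hQ2', Finset.mul_sum, ← Finset.sum_sub_distrib]
    refine (norm_sum_le _ _).trans ?_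
    calc _ ≤ ∑ j ∈ s, ‖rr s b j‖ * (T ^ (-(2 : ℝ)) * (√Real.pi * (4 * Δ))) := by
          apply Finset.sum_le_sum
          intro j _
          have e4 : 2 * (Real.pi : ℂ) * (rr s b j * ∫ u in Ioi (1 : ℝ), (u : ℂ) ^ (-((b j : ℂ) * I)) * ((ge T Δ u : ℝ) : ℂ)) -
              rr s b j * ∫ t in (T / 2)..(3 * T / 2), em (b j) t * ((gg T Δ t : ℝ) : ℂ) =
              rr s b j * (2 * Real.pi * (∫ u in Ioi (1 : ℝ), (u : ℂ) ^ (-((b j : ℂ) * I)) * ((ge T Δ u : ℝ) : ℂ)) -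
              ∫ t in (T / 2)..(3 * T / 2), em (b j) t * ((gg T Δ t : ℝ) : ℂ)) := by ring
          rw [e4, norm_mul]
          exact mul_le_mul_of_nonneg_left (main_t (b j) (B := max (max B1 B2) 20) (le_max_right _ _) hT100 hΔ1 hBT) (norm_nonneg _)
      _ = (∑ j ∈ s, ‖rr s b j‖) * (T ^ (-(2 : ℝ)) * (√Real.pi * (4 * Δ))) := by rw [Finset.sum_mul]
      _ ≤ _ := by
          apply mul_le_mul_of_nonneg_right _ (by positivity)
          rw [hM2]
          exact MB_r s b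
  rw [← hQ1] at h2
  rw [← hQ2]
  obtain ⟨W, hW⟩ : ∃ W, W = ∫ t in (T / 2)..(3 * T / 2), F t := ⟨_, rfl⟩
  obtain ⟨V, hV⟩ : ∃ V, V = ∫ t in (Ioc (T / 2) (3 * T / 2))ᶜ, F t := ⟨_, rfl⟩
  rw [← hW] at h1
  rw [← hW, ← hV] at h2
  rw [← hV] at htail
  have e3 : MS s b T Δ - Q2 = (MS s b T Δ - W) + (W + V - Q1) - V + (Q1 - Q2) := by ring
  rw [e3]
  obtain ⟨R, hR⟩ : ∃ R, R = Δ * T ^ (-δ2) + Δ / T * Δ * Real.log T ^ (s.card - 1) := ⟨_, rfl⟩
  rw [← hR] at h2 ⊢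
  refine (norm_add_le _ _).trans ((add_le_add ((norm_sub_le _ _).trans (add_le_add ((norm_add_le _ _).trans (add_le_add h1 h2)) htail)) hQQ).trans ?_)
  have p1 : T ^ (-(3 : ℝ)) ≤ 1 := Real.rpow_le_one_of_one_le_of_nonpos (by linarith) (by norm_num)
  have p2 : T ^ (-(2 : ℝ)) ≤ T ^ (-δ2) := Real.rpow_le_rpow_of_exponent_le (by linarith) (by linarith)
  have p3 : (1 : ℝ) ≤ Δ * T ^ (-δ2) := by
    have h3 : (1:ℝ) ≤ T ^ (1 - δ2 + -δ2) := Real.one_le_rpow (by linarith) (by linarith)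
    rw [Real.rpow_add hT0] at h3
    exact h3.trans (mul_le_mul_of_nonneg_right hΔ (by positivity))
  have hRR : Δ * T ^ (-δ2) ≤ R := by
    rw [hR]
    have : 0 ≤ Δ / T * Δ * Real.log T ^ (s.card - 1) := by positivity
    linarith
  have p4 : Δ * T ^ (-(2 : ℝ)) ≤ R := (mul_le_mul_of_nonneg_left p2 hΔ0.le).trans hRR
  have p5 : (M + M2) * (√Real.pi * 4) * (Δ * T ^ (-(2 : ℝ))) ≤ (M + M2) * (√Real.pi * 4) * R :=
    mul_le_mul_of_nonneg_left p4 (by positivity)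
  calc 7 * T ^ (-(3 : ℝ)) + K2 * R + M * T ^ (-(2 : ℝ)) * (√Real.pi * (4 * Δ)) + M2 * (T ^ (-(2 : ℝ)) * (√Real.pi * (4 * Δ))) =
      7 * T ^ (-(3 : ℝ)) + K2 * R + (M + M2) * (√Real.pi * 4) * (Δ * T ^ (-(2 : ℝ))) := by ring
    _ ≤ 7 * R + K2 * R + (M + M2) * (√Real.pi * 4) * R := by linarith
    _ = _ := by ring

end Pool.Agent.N30.SM
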