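import Pool.Agent.N30.SM.Bi

set_option autoImplicit false

/-! From Gaussian windows to the sharp integral, for functions small in mean near the ends. -/

open Complex MeasureTheory Set Filter Topology Polynomial

namespace Pool.Agent.N30.SM

open Pool.Agent.W188.QS Pool.Agent.N30.MZ Pool.Agent.N30.OD Pool.Agent.N30.HM

/-- the sharp integral from the window average -/
lemma cutd {f : ℝ → ℂ} (hf : Measurable f) {M X Δ r : ℝ} (hX : 0 < X) (hΔ : 0 < Δ) (hr : 0 ≤ r) (hrX : r ≤ X / 4)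
    (hM : ∀ t ∈ Ioo (X / 2) (3 * X), ‖f t‖ ≤ M) :
    ‖(∫ t in X..(2 * X), f t) - ((1 / (√Real.pi * Δ) : ℝ) : ℂ) *
      ∫ τ in X..(2 * X), (∫ t in (τ / 2)..(3 * τ / 2), f t * ((gg τ Δ t : ℝ) : ℂ))‖ ≤
      (∫ t in Ed X r, ‖f t‖) + Real.exp (-(r / Δ) ^ 2) * ∫ t in Ioo (X / 2) (3 * X), ‖f t‖ := by
  have e0 : 3 * (2 * X) / 2 = 3 * X := by ring
  obtain ⟨-, f3⟩ := fubc hf (M := M) hX (v := 2 * X) (by linarith) hΔ (by rw [e0]; exact hM)
  rw [e0] at f3
  have hM0 : 0 ≤ M := (norm_nonneg _).trans (hM X ⟨by linarith, by linarith⟩)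
  have hsp : 0 < √Real.pi * Δ := by
    have := Real.sqrt_pos.2 Real.pi_pos
    positivity
  have e1 : ((1 / (√Real.pi * Δ) : ℝ) : ℂ) * ((√Real.pi * Δ : ℝ) : ℂ) = 1 := by
    rw [← Complex.ofReal_mul, one_div, inv_mul_cancel₀ hsp.ne', Complex.ofReal_one]
  rw [f3, ← mul_assoc, e1, one_mul]
  obtain ⟨E, hE⟩ : ∃ E, E = Real.exp (-(r / Δ) ^ 2) := ⟨_, rfl⟩
  have hE0 : 0 < E := by rw [hE]; exact Real.exp_pos _
  rw [← hE]
  have hEdm : MeasurableSet (Ed X r) := measurableSet_Ioo.union measurableSet_Ioo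
  -- pointwise
  have hpt : ∀ t, |(Ioc X (2 * X)).indicator (fun _ => (1 : ℝ)) t - PC X (2 * X) Δ t| ≤
      (Ed X r).indicator (fun _ => (1 : ℝ)) t + E := by
    intro t
    obtain ⟨p1, p2, p3, p4, p5, p6⟩ := Pool.Agent.W864.QS.qs_pc X (2 * X) Δ r t hX (by linarith) (by linarith) hΔ hr hrX
    rw [← hE] at p5 p6
    have i2 : 0 ≤ (Ed X r).indicator (fun _ => (1 : ℝ)) t := indicator_nonneg (fun _ _ => by norm_num) t
    by_cases hEt : t ∈ Ed X r
    · rw [indicator_of_mem hEt]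
      have : |(Ioc X (2 * X)).indicator (fun _ => (1 : ℝ)) t - PC X (2 * X) Δ t| ≤ 1 := by
        rw [abs_le]
        by_cases h : t ∈ Ioc X (2 * X)
        · rw [indicator_of_mem h]; constructor <;> linarith
        · rw [indicator_of_notMem h]; constructor <;> linarith
      linarith
    · rw [indicator_of_notMem hEt, zero_add]
      have hE1 : ¬ (X - r < t ∧ t < X + r) := fun h => hEt (Or.inl h)
      have hE2 : ¬ (2 * X - r < t ∧ t < 2 * X + r) := fun h => hEt (Or.inr h)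
      by_cases h : t ∈ Ioc X (2 * X)
      · rw [indicator_of_mem h]
        have g1 : X + r ≤ t := by
          by_contra hc
          rw [not_le] at hc
          by_cases hr0 : r = 0
          · subst hr0
            linarith [h.1]
          · exact hE1 ⟨by have := h.1; have : 0 < r := lt_of_le_of_ne hr (Ne.symm hr0); linarith, hc⟩
        by_cases hr0 : r = 0
        · have e1 : E = 1 := by rw [hE, hr0]; simp
          rw [e1, abs_le]
          constructor <;> linarith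
        · have hr1 : 0 < r := lt_of_le_of_ne hr (Ne.symm hr0)
          have g2 : t ≤ 2 * X - r := by
            by_contra hc
            rw [not_le] at hc
            exact hE2 ⟨hc, by linarith [h.2]⟩
          rw [abs_le]
          have := p5 g1 g2
          constructor <;> linarith
      · rw [indicator_of_notMem h, zero_sub, abs_neg, abs_of_nonneg p1]
        have g1 : t ≤ X ∨ 2 * X < t := by
          by_contra hc
          rw [not_or, not_le, not_lt] at hc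
          exact h hc
        have g2 : t ≤ X - r ∨ 2 * X + r ≤ t := by
          rcases g1 with g | g
          · left
            by_contra hc
            rw [not_le] at hc
            by_cases hr0 : r = 0
            · subst hr0; linarith
            · have hr1 : 0 < r := lt_of_le_of_ne hr (Ne.symm hr0)
              exact hE1 ⟨hc, by linarith⟩
          · right
            by_contra hc
            rw [not_le] at hc
            exact hE2 ⟨by linarith, hc⟩
        exact p6 g2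
  obtain ⟨S, hS⟩ : ∃ S, S = Ioo (X / 2) (3 * X) := ⟨_, rfl⟩
  have hSm : MeasurableSet S := by rw [hS]; exact measurableSet_Ioo
  have hSfin : volume S < ⊤ := by rw [hS, Real.volume_Ioo]; exact ENNReal.ofReal_lt_top
  have hfinM : IsFiniteMeasure (volume.restrict S) := ⟨by rwa [Measure.restrict_apply_univ]⟩
  rw [← hS] at hM ⊢
  have hsubS : Ioc X (2 * X) ⊆ S := by
    rw [hS]; intro t ht; exact ⟨by linarith [ht.1], by linarith [ht.2]⟩
  have hPCm : Measurable (fun t => PC X (2 * X) Δ t) := by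
    have e : (fun t => PC X (2 * X) Δ t) = fun t => 1 / (√Real.pi * Δ) * ∫ τ in Ioc X (2 * X), (fun p : ℝ × ℝ => if p.1 / 2 < p.2 ∧ p.2 < 3 * p.1 / 2 then gg p.1 Δ p.2 else 0) (τ, t) := by
      funext t
      unfold PC
      rw [intervalIntegral.integral_of_le (by linarith)]
    rw [e]
    have hFm : Measurable (fun p : ℝ × ℝ => if p.1 / 2 < p.2 ∧ p.2 < 3 * p.1 / 2 then gg p.1 Δ p.2 else 0) := by
      refine Measurable.ite ?_ ?_ measurable_const
      · exact (measurableSet_lt (measurable_fst.div_const 2) measurable_snd).inter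
          (measurableSet_lt measurable_snd ((measurable_const.mul measurable_fst).div_const 2))
      · unfold gg
        have : Continuous fun p : ℝ × ℝ => Real.exp (-((p.2 - p.1) / Δ) ^ 2) := by fun_prop
        exact this.measurable
    exact (hFm.stronglyMeasurable.integral_prod_left' (μ := volume.restrict (Ioc X (2 * X)))).measurable.const_mul _
  have hI1 : IntegrableOn f S := by
    apply Measure.integrableOn_of_bounded hSfin.ne hf.aestronglyMeasurable (M := M)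
    rw [ae_restrict_iff' hSm]
    exact Eventually.of_forall hM
  have hI2 : IntegrableOn (fun t => f t * (((Ioc X (2 * X)).indicator (fun _ => (1 : ℝ)) t : ℝ) : ℂ)) S := by
    apply Measure.integrableOn_of_bounded hSfin.ne _ (M := M)
    · rw [ae_restrict_iff' hSm]
      refine Eventually.of_forall fun t ht => ?_
      rw [norm_mul, Complex.norm_real]
      have h2 : ‖(Ioc X (2 * X)).indicator (fun _ => (1 : ℝ)) t‖ ≤ 1 := by
        refine (norm_indicator_le_norm_self _ _).trans ?_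
        simp
      calc _ ≤ M * 1 := mul_le_mul (hM t ht) h2 (norm_nonneg _) hM0
        _ = M := mul_one M
    · exact (hf.mul (Complex.measurable_ofReal.comp (measurable_const.indicator measurableSet_Ioc))).aestronglyMeasurable
  have hI3 : IntegrableOn (fun t => f t * ((PC X (2 * X) Δ t : ℝ) : ℂ)) S := by
    apply Measure.integrableOn_of_bounded hSfin.ne _ (M := M)
    · rw [ae_restrict_iff' hSm]
      refine Eventually.of_forall fun t ht => ?_
      rw [norm_mul, Complex.norm_real]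
      have h2 : ‖PC X (2 * X) Δ t‖ ≤ 1 := by
        obtain ⟨p1, p2, -, -, -, -⟩ := Pool.Agent.W864.QS.qs_pc X (2 * X) Δ r t hX (by linarith) (by linarith) hΔ hr hrX
        rw [Real.norm_of_nonneg p1]
        exact p2
      calc _ ≤ M * 1 := mul_le_mul (hM t ht) h2 (norm_nonneg _) hM0
        _ = M := mul_one M
    · exact (hf.mul (Complex.measurable_ofReal.comp hPCm)).aestronglyMeasurable
  have e2 : ∫ t in X..(2 * X), f t = ∫ t in S, f t * (((Ioc X (2 * X)).indicator (fun _ => (1 : ℝ)) t : ℝ) : ℂ) := by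
    rw [intervalIntegral.integral_of_le (by linarith)]
    have e3 : (fun t => f t * (((Ioc X (2 * X)).indicator (fun _ => (1 : ℝ)) t : ℝ) : ℂ)) = (Ioc X (2 * X)).indicator f := by
      funext t
      by_cases ht : t ∈ Ioc X (2 * X)
      · rw [indicator_of_mem ht, indicator_of_mem ht]; simp
      · rw [indicator_of_notMem ht, indicator_of_notMem ht]; simp
    rw [e3, setIntegral_indicator measurableSet_Ioc, inter_eq_self_of_subset_right hsubS]
  rw [e2, ← integral_sub hI2 hI3]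
  have hEdS : Ed X r ⊆ S := by
    rw [hS]
    rintro t (h | h)
    · exact ⟨by linarith [h.1], by linarith [h.2]⟩
    · exact ⟨by linarith [h.1], by linarith [h.2]⟩
  have hIE : IntegrableOn (fun t => (Ed X r).indicator (fun t => ‖f t‖) t) S := by
    apply Integrable.indicator hI1.norm hEdm
  have e5 : ∫ t in S, (Ed X r).indicator (fun t => ‖f t‖) t = ∫ t in Ed X r, ‖f t‖ := by
    rw [setIntegral_indicator hEdm, inter_eq_self_of_subset_right hEdS]
  calc ‖∫ t in S, (f t * (((Ioc X (2 * X)).indicator (fun _ => (1 : ℝ)) t : ℝ) : ℂ) - f t * ((PC X (2 * X) Δ t : ℝ) : ℂ))‖ ≤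
      ∫ t in S, ((Ed X r).indicator (fun t => ‖f t‖) t + E * ‖f t‖) := by
        apply norm_integral_le_of_norm_le (hIE.add (hI1.norm.const_mul E))
        rw [ae_restrict_iff' hSm]
        refine Eventually.of_forall fun t ht => ?_
        rw [← mul_sub, norm_mul, ← Complex.ofReal_sub, Complex.norm_real, Real.norm_eq_abs]
        refine (mul_le_mul_of_nonneg_left (hpt t) (norm_nonneg _)).trans (le_of_eq ?_)
        change _ = (Ed X r).indicator (fun t => ‖f t‖) t + E * ‖f t‖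
        by_cases h : t ∈ Ed X r
        · rw [indicator_of_mem h, indicator_of_mem h]; ring
        · rw [indicator_of_notMem h, indicator_of_notMem h]; ring
    _ = _ := by
        rw [integral_add hIE (hI1.norm.const_mul E), integral_const_mul, e5]


/-- a dyadic block -/
theorem step_e {f : ℝ → ℂ} (hf : Measurable f) (hb : ∀ X : ℝ, 200 ≤ X → ∃ M : ℝ, ∀ t ∈ Ioo (X / 2) (3 * X), ‖f t‖ ≤ M)
    {C δ θ T₀ : ℝ} (hC : 0 ≤ C) (hδ : 0 < δ) (hδ8 : δ ≤ 1 / 8) (hθ : 0 < θ) (hθ4 : θ ≤ 1 / 4)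
    (hE : ∀ᶠ X : ℝ in atTop, ∫ t in Ed X (X ^ (1 - δ / 2)), ‖f t‖ ≤ X ^ (1 - θ))
    (hI : ∀ᶠ X : ℝ in atTop, ∫ t in Ioo (X / 2) (3 * X), ‖f t‖ ≤ X ^ (2 : ℝ))
    (hw : ∀ T Δ : ℝ, T₀ ≤ T → T ^ (1 - δ) ≤ Δ → Δ ≤ 2 * T ^ (1 - δ) →
      ‖∫ t in (T / 2)..(3 * T / 2), f t * ((gg T Δ t : ℝ) : ℂ)‖ ≤ C * (Δ * T ^ (-θ))) :
    ∀ᶠ X : ℝ in atTop, ‖∫ t in X..(2 * X), f t‖ ≤ X ^ (1 - θ / 2) := by
  have l3 := (isLittleO_log_rpow_atTop hδ).bound (by norm_num : (0:ℝ) < 1 / 8)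
  have l4 : ∀ᶠ X : ℝ in atTop, 2 + C ≤ X ^ (θ / 2) :=
    (tendsto_rpow_atTop (by positivity : 0 < θ / 2)).eventually_ge_atTop _
  have l5 : ∀ᶠ X : ℝ in atTop, (4 : ℝ) ≤ X ^ (δ / 2) := (tendsto_rpow_atTop (by positivity : 0 < δ / 2)).eventually_ge_atTop _
  filter_upwards [l3, l4, l5, hE, hI, eventually_ge_atTop (max 200 T₀)] with X h3 h4 h5 hEX hIX hX
  have hX200 : 200 ≤ X := (le_max_left _ _).trans hX
  have hXT : T₀ ≤ X := (le_max_right _ _).trans hX
  have hX0 : 0 < X := by linarith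
  have hL1 : 1 ≤ Real.log X := by
    rw [Real.le_log_iff_exp_le hX0]
    have := Real.exp_one_lt_d9
    linarith
  obtain ⟨Δ, hΔ⟩ : ∃ Δ, Δ = (2 * X) ^ (1 - δ) := ⟨_, rfl⟩
  have hΔ0 : 0 < Δ := by rw [hΔ]; positivity
  obtain ⟨r, hr⟩ : ∃ r, r = X ^ (1 - δ / 2) := ⟨_, rfl⟩
  have hr0 : 0 ≤ r := by rw [hr]; positivity
  have hrX : r ≤ X / 4 := by
    have e1 : X ^ (1 - δ / 2) * X ^ (δ / 2) = X := by rw [← Real.rpow_add hX0]; norm_num
    rw [← hr] at e1
    nlinarith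
  obtain ⟨M, hM⟩ := hb X hX200
  have q1 := cutd hf hX0 hΔ0 hr0 hrX hM
  rw [← hr] at hEX
  have hsp0 : 0 < √Real.pi := Real.sqrt_pos.2 Real.pi_pos
  have hsp1 : 1 ≤ √Real.pi := by
    rw [Real.one_le_sqrt]
    have := Real.pi_gt_three
    linarith
  have hΔ2 : Δ ≤ 2 * X ^ (1 - δ) := by
    rw [hΔ, Real.mul_rpow (by norm_num) hX0.le]
    apply mul_le_mul_of_nonneg_right _ (by positivity)
    calc (2:ℝ) ^ (1 - δ) ≤ 2 ^ (1 : ℝ) := Real.rpow_le_rpow_of_exponent_le (by norm_num) (by linarith)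
      _ = 2 := Real.rpow_one 2
  have hwin : ∀ τ ∈ Icc X (2 * X), τ ^ (1 - δ) ≤ Δ ∧ Δ ≤ 2 * τ ^ (1 - δ) := by
    intro τ hτ
    have hτ0 : 0 < τ := by linarith [hτ.1]
    constructor
    · rw [hΔ]
      exact Real.rpow_le_rpow hτ0.le hτ.2 (by linarith)
    · refine hΔ2.trans ?_
      apply mul_le_mul_of_nonneg_left _ (by norm_num)
      exact Real.rpow_le_rpow hX0.le hτ.1 (by linarith)
  -- tail
  have h9 : Real.exp (-(r / Δ) ^ 2) ≤ X ^ (-(2 : ℝ)) := by
    have h8 : 2 * Real.log X ≤ (r / Δ) ^ 2 := by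
      rw [Real.norm_of_nonneg (by linarith), Real.norm_of_nonneg (by positivity)] at h3
      have h11 : 1 / 2 * X ^ (δ / 2) ≤ r / Δ := by
        rw [le_div_iff₀ hΔ0]
        calc 1 / 2 * X ^ (δ / 2) * Δ ≤ 1 / 2 * X ^ (δ / 2) * (2 * X ^ (1 - δ)) := mul_le_mul_of_nonneg_left hΔ2 (by positivity)
          _ = X ^ (δ / 2) * X ^ (1 - δ) := by ring
          _ = r := by rw [hr, ← Real.rpow_add hX0]; congr 1; ring
      calc 2 * Real.log X ≤ 1 / 4 * X ^ δ := by linarith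
        _ = (1 / 2 * X ^ (δ / 2)) ^ 2 := by
            rw [mul_pow, ← Real.rpow_natCast (X ^ (δ / 2)), ← Real.rpow_mul hX0.le]
            congr 1
            · norm_num
            · congr 1
              push_cast
              ring
        _ ≤ (r / Δ) ^ 2 := pow_le_pow_left₀ (by positivity) h11 2
    rw [Real.rpow_def_of_pos hX0]
    apply Real.exp_le_exp.2
    linarith
  have h10 : Real.exp (-(r / Δ) ^ 2) * ∫ t in Ioo (X / 2) (3 * X), ‖f t‖ ≤ 1 := by
    have h11 : 0 ≤ ∫ t in Ioo (X / 2) (3 * X), ‖f t‖ := integral_nonneg fun t => norm_nonneg _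
    calc _ ≤ X ^ (-(2 : ℝ)) * X ^ (2 : ℝ) := mul_le_mul h9 hIX h11 (by positivity)
      _ = 1 := by rw [← Real.rpow_add hX0]; norm_num
  -- window average
  have h6 : ‖((1 / (√Real.pi * Δ) : ℝ) : ℂ) * ∫ τ in X..(2 * X), (∫ t in (τ / 2)..(3 * τ / 2), f t * ((gg τ Δ t : ℝ) : ℂ))‖ ≤ C * X ^ (1 - θ) := by
    have h7 : ∀ τ ∈ uIoc X (2 * X), ‖∫ t in (τ / 2)..(3 * τ / 2), f t * ((gg τ Δ t : ℝ) : ℂ)‖ ≤ C * (Δ * X ^ (-θ)) := by
      intro τ hτ
      rw [uIoc_of_le (by linarith)] at hτ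
      have hτ' : τ ∈ Icc X (2 * X) := ⟨hτ.1.le, hτ.2⟩
      obtain ⟨w1, w2⟩ := hwin τ hτ'
      refine (hw τ Δ (hXT.trans hτ'.1) w1 w2).trans ?_
      apply mul_le_mul_of_nonneg_left _ hC
      apply mul_le_mul_of_nonneg_left _ hΔ0.le
      exact Real.rpow_le_rpow_of_nonpos hX0 hτ'.1 (by linarith)
    have h8 := intervalIntegral.norm_integral_le_of_norm_le_const h7
    rw [show |2 * X - X| = X by rw [two_mul, add_sub_cancel_right, abs_of_pos hX0]] at h8
    rw [norm_mul, Complex.norm_real, Real.norm_of_nonneg (by positivity)]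
    calc _ ≤ 1 / (√Real.pi * Δ) * (C * (Δ * X ^ (-θ)) * X) := mul_le_mul_of_nonneg_left h8 (by positivity)
      _ = C * (X ^ (-θ) * X) / √Real.pi := by field_simp
      _ ≤ C * (X ^ (-θ) * X) := div_le_self (by positivity) hsp1
      _ = C * X ^ (1 - θ) := by
          congr 1
          nth_rewrite 2 [← Real.rpow_one X]
          rw [← Real.rpow_add hX0]
          congr 1
          ring
  obtain ⟨I1, hI1⟩ : ∃ I1, I1 = ∫ t in X..(2 * X), f t := ⟨_, rfl⟩
  obtain ⟨I2, hI2⟩ : ∃ I2, I2 = ((1 / (√Real.pi * Δ) : ℝ) : ℂ) * ∫ τ in X..(2 * X), (∫ t in (τ / 2)..(3 * τ / 2), f t * ((gg τ Δ t : ℝ) : ℂ)) := ⟨_, rfl⟩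
  rw [← hI1, ← hI2] at q1
  rw [← hI2] at h6
  rw [← hI1]
  have hone : 1 ≤ X ^ (1 - θ) := Real.one_le_rpow (by linarith) (by linarith)
  have h7 : ‖I1‖ ≤ (2 + C) * X ^ (1 - θ) := by
    calc ‖I1‖ = ‖(I1 - I2) + I2‖ := by rw [sub_add_cancel]
      _ ≤ ‖I1 - I2‖ + ‖I2‖ := norm_add_le _ _
      _ ≤ (X ^ (1 - θ) + 1) + C * X ^ (1 - θ) := add_le_add (q1.trans (add_le_add hEX h10)) h6
      _ ≤ _ := by linarith
  refine h7.trans ?_
  calc (2 + C) * X ^ (1 - θ) ≤ X ^ (θ / 2) * X ^ (1 - θ) := mul_le_mul_of_nonneg_right h4 (by positivity)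
    _ = _ := by rw [← Real.rpow_add hX0]; congr 1; ring

/-- the integral over `[1, T]` -/
theorem sharp_e {f : ℝ → ℂ} (hf : Measurable f) (hb : ∀ X : ℝ, 200 ≤ X → ∃ M : ℝ, ∀ t ∈ Ioo (X / 2) (3 * X), ‖f t‖ ≤ M)
    (hi : ∀ a b : ℝ, 1 ≤ a → 1 ≤ b → IntervalIntegrable f volume a b)
    {C δ θ T₀ : ℝ} (hC : 0 ≤ C) (hδ : 0 < δ) (hδ8 : δ ≤ 1 / 8) (hθ : 0 < θ) (hθ4 : θ ≤ 1 / 4)
    (hE : ∀ᶠ X : ℝ in atTop, ∫ t in Ed X (X ^ (1 - δ / 2)), ‖f t‖ ≤ X ^ (1 - θ))
    (hI : ∀ᶠ X : ℝ in atTop, ∫ t in Ioo (X / 2) (3 * X), ‖f t‖ ≤ X ^ (2 : ℝ))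
    (hw : ∀ T Δ : ℝ, T₀ ≤ T → T ^ (1 - δ) ≤ Δ → Δ ≤ 2 * T ^ (1 - δ) →
      ‖∫ t in (T / 2)..(3 * T / 2), f t * ((gg T Δ t : ℝ) : ℂ)‖ ≤ C * (Δ * T ^ (-θ))) :
    ∃ K X₁ : ℝ, 0 ≤ K ∧ 1 ≤ X₁ ∧ ∀ T : ℝ, X₁ ≤ T → ‖∫ t in (1 : ℝ)..T, f t‖ ≤ K * T ^ (1 - θ / 2) := by
  obtain ⟨X₀, hX₀⟩ := eventually_atTop.1 (step_e hf hb hC hδ hδ8 hθ hθ4 hE hI hw)
  obtain ⟨X1, hX1⟩ : ∃ X1, X1 = max X₀ 1 := ⟨_, rfl⟩
  have h11 : 1 ≤ X1 := by rw [hX1]; exact le_max_right _ _
  have h01 : X₀ ≤ X1 := by rw [hX1]; exact le_max_left _ _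
  obtain ⟨K, hK⟩ : ∃ K, K = ∫ t in (1:ℝ)..(2 * X1), ‖f t‖ := ⟨_, rfl⟩
  have hK0 : 0 ≤ K := by
    rw [hK]
    exact intervalIntegral.integral_nonneg (by linarith) fun t _ => norm_nonneg _
  have hrp : ∀ X : ℝ, X1 ≤ X → X ^ (1 - θ / 2) ≤ 3 / 4 * (2 * X) ^ (1 - θ / 2) := by
    intro X hX
    have hX0 : 0 < X := by linarith
    rw [Real.mul_rpow (by norm_num) hX0.le, ← mul_assoc]
    apply le_mul_of_one_le_left (by positivity)
    have h1 : (2:ℝ) ^ (3 / 4 : ℝ) ≤ 2 ^ (1 - θ / 2) := Real.rpow_le_rpow_of_exponent_le (by norm_num) (by linarith)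
    have h2 : (4 / 3 : ℝ) ≤ 2 ^ (3 / 4 : ℝ) := by
      have h3 : ((4 / 3 : ℝ) ^ (4 : ℕ)) ≤ ((2:ℝ) ^ (3 / 4 : ℝ)) ^ (4 : ℕ) := by
        rw [← Real.rpow_natCast ((2:ℝ) ^ (3 / 4 : ℝ)), ← Real.rpow_mul (by norm_num)]
        norm_num
      exact le_of_pow_le_pow_left₀ (by norm_num) (by positivity) h3
    linarith
  have hd := dyad (h := fun X => X ^ (1 - θ / 2)) (D := fun T => ‖∫ t in (1 : ℝ)..T, f t‖)
    (θ := 3 / 4) (X₀ := X1) (K := K) (by norm_num) (by norm_num) (by linarith) (fun X hX => by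
      have hX0 : 0 < X := by linarith
      exact ⟨by positivity, hrp X hX⟩) (fun T' h1 h2 => by
      rw [abs_norm, hK]
      refine (intervalIntegral.norm_integral_le_integral_norm (by linarith)).trans ?_
      apply intervalIntegral.integral_mono_interval le_rfl (by linarith) h2
      · exact Eventually.of_forall fun t => norm_nonneg _
      · exact (hi 1 (2 * X1) le_rfl (by linarith)).norm) (fun X hX => by
      have g0 := hX₀ X (h01.trans hX)
      have hX1' : 1 ≤ X := h11.trans hX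
      have e1 : (∫ t in (1:ℝ)..(2 * X), f t) - ∫ t in (1:ℝ)..X, f t = ∫ t in X..(2 * X), f t := by
        rw [← intervalIntegral.integral_add_adjacent_intervals (hi 1 X le_rfl hX1') (hi X (2 * X) hX1' (by linarith))]
        ring
      refine (abs_norm_sub_norm_le _ _).trans ?_
      rw [e1]
      exact g0)
  refine ⟨K + 4, X1, by linarith, h11, fun T hT => ?_⟩
  have h1 := hd T hT
  rw [abs_norm] at h1
  have hT1 : 1 ≤ T := h11.trans hT
  have h2 : 1 ≤ T ^ (1 - θ / 2) := Real.one_le_rpow hT1 (by linarith)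
  have h3 : K * 1 ≤ K * T ^ (1 - θ / 2) := mul_le_mul_of_nonneg_left h2 hK0
  rw [add_mul]
  have e : T ^ (1 - θ / 2) / (1 - 3 / 4) = 4 * T ^ (1 - θ / 2) := by ring
  rw [e] at h1
  linarith

end Pool.Agent.N30.SM
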