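import Pool.Agent.N30.SM.Bj

set_option autoImplicit false

/-! The product of shifted zeta functions with one conjugate, and its recipe. -/

open Complex MeasureTheory Set Filter Topology

namespace Pool.Agent.N30.SM

open Pool.Agent.W188.QS Pool.Agent.N30.MZ Pool.Agent.N30.OD Pool.Agent.N30.HM

/-- the product of `m` shifted zeta functions and one conjugate -/
noncomputable def Zm {m : ℕ} (a : Fin m → ℝ) (t : ℝ) : ℂ :=
  (∏ j, riemannZeta (1 / 2 + ((t + a j : ℝ) : ℂ) * I)) * (starRingEnd ℂ) (riemannZeta (1 / 2 + (t : ℂ) * I))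

/-- the recipe -/
noncomputable def Qr {m : ℕ} (a : Fin m → ℝ) (t : ℝ) : ℂ :=
  (∏ j, riemannZeta (1 + (a j : ℂ) * I)) + ∑ j, ((t / (2 * Real.pi) : ℝ) : ℂ) ^ (-((a j : ℂ) * I)) *
    (riemannZeta (1 - (a j : ℂ) * I) * ∏ i ∈ Finset.univ.erase j, riemannZeta (1 + ((a i - a j : ℝ) : ℂ) * I))

/-- the shifts with `0` added -/
def ob {m : ℕ} (a : Fin m → ℝ) : Option (Fin m) → ℝ := fun o => o.elim 0 a

lemma ob_inj {m : ℕ} {a : Fin m → ℝ} (ha : Function.Injective a) (h0 : ∀ j, a j ≠ 0) :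
    Set.InjOn (ob a) ((Finset.univ : Finset (Option (Fin m))) : Set (Option (Fin m))) := by
  intro x _ y _ h
  rcases x with _ | x <;> rcases y with _ | y
  · rfl
  · exact absurd h.symm (h0 y)
  · exact absurd h (h0 x)
  · rw [ha h]

lemma Zm_eq {m : ℕ} (a : Fin m → ℝ) {t : ℝ} (ht : 1 ≤ t) : Fz Finset.univ (ob a) (cp t) * XX (cp t) = Zm a t := by
  have h1 := a_line.2.2.1 t ht
  unfold Zm Fz
  have e1 : (1 / 2 + (t : ℂ) * I) = cp t := rfl
  rw [e1, h1, Fintype.prod_option]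
  have e2 : cp t + ((ob a none : ℝ) : ℂ) * I = cp t := by
    change cp t + ((0 : ℝ) : ℂ) * I = cp t
    simp
  have e3 : ∀ j : Fin m, cp t + ((ob a (some j) : ℝ) : ℂ) * I = 1 / 2 + ((t + a j : ℝ) : ℂ) * I := by
    intro j
    change cp t + ((a j : ℝ) : ℂ) * I = _
    unfold cp
    push_cast
    ring
  rw [e2]
  simp only [e3]
  ring

lemma Qm_eq {m : ℕ} (a : Fin m → ℝ) (t : ℝ) : Qm Finset.univ (ob a) t = Qr a t := by
  unfold Qm Qr
  rw [Fintype.sum_option]
  have herase : ∀ (f : Option (Fin m) → ℂ), ∏ i ∈ Finset.univ.erase (none : Option (Fin m)), f i = ∏ j : Fin m, f (some j) := by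
    intro f
    have e : Finset.univ.erase (none : Option (Fin m)) = Finset.univ.image some := by
      ext x
      rcases x with _ | x <;> simp
    rw [e, Finset.prod_image (fun x _ y _ h => Option.some_injective _ h)]
  have herase2 : ∀ (f : Option (Fin m) → ℂ) (j : Fin m), ∏ i ∈ Finset.univ.erase (some j : Option (Fin m)), f i =
      f none * ∏ i ∈ Finset.univ.erase j, f (some i) := by
    intro f j
    have e : Finset.univ.erase (some j : Option (Fin m)) = insert none ((Finset.univ.erase j).image some) := by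
      ext x
      rcases x with _ | x
      · simp
      · simp
    rw [e, Finset.prod_insert (by simp), Finset.prod_image (fun x _ y _ h => Option.some_injective _ h)]
  congr 1
  · unfold rr
    rw [herase]
    have e1 : em (ob a none) t = 1 := by
      unfold em
      change ((t / (2 * Real.pi) : ℝ) : ℂ) ^ (-(((0 : ℝ) : ℂ) * I)) = 1
      simp
    rw [e1, mul_one]
    apply Finset.prod_congr rfl
    intro j _
    change riemannZeta (1 + ((a j - 0 : ℝ) : ℂ) * I) = _
    rw [sub_zero]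
  · apply Finset.sum_congr rfl
    intro j _
    unfold rr em
    rw [herase2, mul_comm]
    congr 1
    congr 1
    change riemannZeta (1 + ((0 - a j : ℝ) : ℂ) * I) = _
    congr 1
    push_cast
    ring

lemma zs_cont (c : ℝ) : Continuous fun t : ℝ => riemannZeta (1 / 2 + ((t + c : ℝ) : ℂ) * I) :=
  zz_cont.comp (continuous_id.add continuous_const)

lemma Zm_cont {m : ℕ} (a : Fin m → ℝ) : Continuous (Zm a) := by
  unfold Zm
  apply Continuous.mul
  · exact continuous_finsetProd _ fun j _ => zs_cont (a j)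
  · exact Complex.continuous_conj.comp zz_cont

lemma Qr_meas {m : ℕ} (a : Fin m → ℝ) : Measurable (Qr a) := by
  have : Qr a = Qm Finset.univ (ob a) := by funext t; exact (Qm_eq a t).symm
  rw [this]
  unfold Qm
  apply Finset.measurable_fun_sum
  intro j _
  exact (em_meas _).const_mul _

lemma Qr_bd {m : ℕ} (a : Fin m → ℝ) {t : ℝ} (ht : 0 < t) : ‖Qr a t‖ ≤ MB Finset.univ (ob a) := by
  rw [← Qm_eq]
  unfold Qm
  refine (norm_sum_le _ _).trans (le_trans (le_of_eq ?_) (MB_r _ _))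
  apply Finset.sum_congr rfl
  intro j _
  rw [norm_mul, em_norm _ ht, mul_one]

lemma Qr_cont {m : ℕ} (a : Fin m → ℝ) {x y : ℝ} (hx : 0 < x) : ContinuousOn (Qr a) (Icc x y) := by
  have : Qr a = Qm Finset.univ (ob a) := by funext t; exact (Qm_eq a t).symm
  rw [this]
  unfold Qm
  exact continuousOn_finsetSum _ fun j _ => (em_contOn _ hx).const_mul _

/-- **the recipe in windows** -/
theorem window_Z {m : ℕ} (hm : 1 ≤ m) {a : Fin m → ℝ} (ha : Function.Injective a) (h0 : ∀ j, a j ≠ 0) :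
    ∃ C δ B T₀ : ℝ, 0 ≤ C ∧ 0 < δ ∧ δ ≤ 1 / 8 ∧ 20 ≤ B ∧ 100 ≤ T₀ ∧ ∀ T Δ : ℝ, T₀ ≤ T → T ^ (1 - δ) ≤ Δ →
    B * Δ * √(Real.log T) ≤ T →
    ‖∫ t in (T / 2)..(3 * T / 2), (Zm a t - Qr a t) * ((gg T Δ t : ℝ) : ℂ)‖ ≤ C * (Δ * T ^ (-δ) + Δ / T * Δ * Real.log T ^ m) := by
  have hcard : (Finset.univ : Finset (Option (Fin m))).card = m + 1 := by
    rw [Finset.card_univ, Fintype.card_option, Fintype.card_fin]
  obtain ⟨C, δ, B, T₀, hC, hδ, hδ8, hB, hT₀, h⟩ := window_s (s := Finset.univ) (b := ob a) (by rw [hcard]; omega) (ob_inj ha h0)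
  refine ⟨C, δ, B, T₀, hC, hδ, hδ8, hB, hT₀, fun T Δ hT hΔ hBT => ?_⟩
  have h1 := h T Δ hT hΔ hBT
  rw [hcard, Nat.add_sub_cancel] at h1
  have hT0 : 100 ≤ T := hT₀.trans hT
  refine le_trans (le_of_eq ?_) h1
  congr 1
  unfold MS
  have hgc : Continuous fun t : ℝ => ((gg T Δ t : ℝ) : ℂ) := Complex.continuous_ofReal.comp (Pool.Agent.N30.MZ.gg_cont T Δ)
  have e1 : ∫ t in (T / 2)..(3 * T / 2), Fz Finset.univ (ob a) (cp t) * XX (cp t) * ((gg T Δ t : ℝ) : ℂ) =
      ∫ t in (T / 2)..(3 * T / 2), Zm a t * ((gg T Δ t : ℝ) : ℂ) := by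
    apply intervalIntegral.integral_congr
    intro t ht
    rw [uIcc_of_le (by linarith)] at ht
    simp only
    rw [Zm_eq a (by linarith [ht.1])]
  have e2 : ∫ t in (T / 2)..(3 * T / 2), Qm Finset.univ (ob a) t * ((gg T Δ t : ℝ) : ℂ) =
      ∫ t in (T / 2)..(3 * T / 2), Qr a t * ((gg T Δ t : ℝ) : ℂ) := by
    simp only [Qm_eq]
  rw [e1, e2, ← intervalIntegral.integral_sub]
  · apply intervalIntegral.integral_congr
    intro t _
    simp only
    ring
  · exact ((Zm_cont a).mul hgc).intervalIntegrable _ _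
  · apply ContinuousOn.intervalIntegrable
    rw [uIcc_of_le (by linarith)]
    exact (Qr_cont a (by linarith)).mul hgc.continuousOn

end Pool.Agent.N30.SM
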