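import Pool.Agent.N30.SM.Bk

set_option autoImplicit false

/-! The product of two shifted zeta functions and one conjugate: sharp cut-off. -/

open Complex MeasureTheory Set Filter Topology

namespace Pool.Agent.N30.SM

open Pool.Agent.W188.QS Pool.Agent.N30.MZ Pool.Agent.N30.OD Pool.Agent.N30.HM

lemma three_le {x y z : ℝ} (hx : 0 ≤ x) (hy : 0 ≤ y) (hz : 0 ≤ z) : x * y * z ≤ x ^ 3 + y ^ 3 + z ^ 3 := by
  nlinarith [mul_nonneg hx hy, mul_nonneg hy hz, mul_nonneg hx hz, sq_nonneg (x - y), sq_nonneg (y - z), sq_nonneg (x - z),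
    mul_nonneg hx (sq_nonneg (x - y)), mul_nonneg hy (sq_nonneg (x - y)), mul_nonneg hy (sq_nonneg (y - z)),
    mul_nonneg hz (sq_nonneg (y - z)), mul_nonneg hx (sq_nonneg (x - z)), mul_nonneg hz (sq_nonneg (x - z)),
    mul_nonneg (add_nonneg (add_nonneg hx hy) hz) (add_nonneg (add_nonneg (sq_nonneg (x - y)) (sq_nonneg (y - z))) (sq_nonneg (x - z))),
    pow_nonneg hx 3, pow_nonneg hy 3, pow_nonneg hz 3]

lemma Z2_le (a : Fin 2 → ℝ) (t : ℝ) : ‖Zm a t‖ ≤ Zp 3 (t + a 0) + Zp 3 (t + a 1) + Zp 3 (t + 0) := by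
  unfold Zm Zp
  rw [Fin.prod_univ_two, norm_mul, norm_mul, RCLike.norm_conj, add_zero]
  have e1 : ∀ c : ℝ, riemannZeta (1 / 2 + ((t + c : ℝ) : ℂ) * I) = zz (t + c) := fun c => rfl
  have e2 : riemannZeta (1 / 2 + (t : ℂ) * I) = zz t := rfl
  rw [e1, e1, e2]
  exact three_le (norm_nonneg _) (norm_nonneg _) (norm_nonneg _)

lemma f_le (a : Fin 2 → ℝ) {t : ℝ} (ht : 0 < t) : ‖Zm a t - Qr a t‖ ≤
    Zp 3 (t + a 0) + Zp 3 (t + a 1) + Zp 3 (t + 0) + MB Finset.univ (ob a) :=
  (norm_sub_le _ _).trans (add_le_add (Z2_le a t) (Qr_bd a ht))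

/-- the translated edges -/
lemma edge_tr (c : ℝ) {X r r' : ℝ} (hX : 2000 ≤ X) (hr : 0 ≤ r) (hrr : r + |c| ≤ r') (hr' : r' ≤ X / 4) :
    ∫ t in Ed X r, Zp 3 (t + c) ≤ ∫ t in Ed X r', Zp 3 t := by
  have hc := abs_le.1 (le_refl |c|)
  have hcc : ∀ x : ℝ, Continuous (fun t => Zp 3 (t + x)) := fun x => (Zp_cont 3).comp (continuous_id.add continuous_const)
  have hdj : ∀ ρ : ℝ, ρ ≤ X / 4 → Disjoint (Ioo (X - ρ) (X + ρ)) (Ioo (2 * X - ρ) (2 * X + ρ)) := by
    intro ρ hρ
    rw [Set.disjoint_left]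
    intro t h1 h2
    linarith [h1.2, h2.1]
  have hio : ∀ (x u v : ℝ), IntegrableOn (fun t => Zp 3 (t + x)) (Ioo u v) := fun x u v =>
    ((hcc x).integrableOn_Icc (a := u) (b := v)).mono_set Ioo_subset_Icc_self
  have hio0 : ∀ (u v : ℝ), IntegrableOn (Zp 3) (Ioo u v) := fun u v =>
    ((Zp_cont 3).integrableOn_Icc (a := u) (b := v)).mono_set Ioo_subset_Icc_self
  unfold Ed
  have hrX : r ≤ X / 4 := by linarith [abs_nonneg c]
  rw [setIntegral_union (hdj r hrX) measurableSet_Ioo (hio c _ _) (hio c _ _),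
    setIntegral_union (hdj r' hr') measurableSet_Ioo (hio0 _ _) (hio0 _ _)]
  have key : ∀ y : ℝ, ∫ t in Ioo (y - r) (y + r), Zp 3 (t + c) ≤ ∫ t in Ioo (y - r') (y + r'), Zp 3 t := by
    intro y
    rw [← integral_Ioc_eq_integral_Ioo, ← intervalIntegral.integral_of_le (by linarith), intervalIntegral.integral_comp_add_right (fun t => Zp 3 t),
      intervalIntegral.integral_of_le (by linarith), integral_Ioc_eq_integral_Ioo]
    apply setIntegral_mono_set (hio0 _ _) (Eventually.of_forall fun t => Zp_nonneg 3 t)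
    apply Eventually.of_forall
    intro t ht
    exact ⟨by linarith [ht.1], by linarith [ht.2]⟩
  exact add_le_add (key X) (key (2 * X))

lemma Zp3_le (t : ℝ) : Zp 3 t ≤ Zp 4 t + 2 := by
  have := Zp_interp (k := 3) le_rfl t (e := 1) one_pos le_rfl
  norm_num at this
  exact this

/-- the crude bound on a dyadic block -/
lemma block_tr (c : ℝ) : ∀ᶠ X : ℝ in atTop, ∫ t in Ioo (X / 2) (3 * X), Zp 3 (t + c) ≤ 1 / 8 * X ^ (2 : ℝ) := by
  have l1 := (isLittleO_log_rpow_rpow_atTop 4 (by norm_num : (0:ℝ) < 1)).bound (by norm_num : (0:ℝ) < 1 / 1000)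
  filter_upwards [l1, eventually_ge_atTop (max 2000 (4 * |c|))] with X h1 hX
  have hX2 : 2000 ≤ X := (le_max_left _ _).trans hX
  have hXc : 4 * |c| ≤ X := (le_max_right _ _).trans hX
  have hX0 : 0 < X := by linarith
  have hc := abs_le.1 (le_refl |c|)
  have hcc : Continuous (fun t => Zp 3 (t + c)) := (Zp_cont 3).comp (continuous_id.add continuous_const)
  rw [← integral_Ioc_eq_integral_Ioo, ← intervalIntegral.integral_of_le (by linarith), intervalIntegral.integral_comp_add_right (fun t => Zp 3 t)]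
  have h2 : ∫ t in (X / 2 + c)..(3 * X + c), Zp 3 t ≤ ∫ t in (0 : ℝ)..(4 * X), Zp 3 t := by
    apply intervalIntegral.integral_mono_interval (by linarith) (by linarith) (by linarith)
    · exact Eventually.of_forall fun t => Zp_nonneg 3 t
    · exact (Zp_cont 3).intervalIntegrable _ _
  have h3 : ∫ t in (0 : ℝ)..(4 * X), Zp 3 t ≤ ∫ t in (0 : ℝ)..(4 * X), (Zp 4 t + 2) := by
    apply intervalIntegral.integral_mono_on (by linarith) ((Zp_cont 3).intervalIntegrable _ _)
      (((Zp_cont 4).add continuous_const).intervalIntegrable _ _)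
    intro t _
    exact Zp3_le t
  have h4 : ∫ t in (0 : ℝ)..(4 * X), (Zp 4 t + 2) = (∫ t in (0 : ℝ)..(4 * X), Zp 4 t) + 8 * X := by
    rw [intervalIntegral.integral_add ((Zp_cont 4).intervalIntegrable _ _) (by simp), intervalIntegral.integral_const, smul_eq_mul]
    ring
  have h5 : ∫ t in (0:ℝ)..(4 * X), Zp 4 t ≤ 4 / 5 * (4 * X * Real.log (4 * X) ^ 4) := by
    have := Pool.Agent.TH158.FM.fourth_all (4 * X) (by linarith)
    have e1 : ∀ t : ℝ, ‖riemannZeta (Pool.Agent.TH158.FM.pt (1 / 2) t)‖ ^ 4 = Zp 4 t := by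
      intro t
      unfold Zp zz cp Pool.Agent.TH158.FM.pt
      push_cast
      rfl
    simp only [e1] at this
    exact this
  have hlog : Real.log (4 * X) ≤ 2 * Real.log X := by
    rw [Real.log_mul (by norm_num) hX0.ne']
    have : Real.log 4 ≤ Real.log X := Real.log_le_log (by norm_num) (by linarith)
    linarith
  have h6 : Real.log (4 * X) ^ 4 ≤ 16 * Real.log X ^ 4 := by
    calc _ ≤ (2 * Real.log X) ^ 4 := pow_le_pow_left₀ (Real.log_nonneg (by linarith)) hlog 4
      _ = _ := by ring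
  have h7 : Real.log X ^ 4 ≤ 1 / 1000 * X := by
    rw [Real.norm_of_nonneg (Real.rpow_nonneg (Real.log_nonneg (by linarith)) _), Real.norm_of_nonneg (by positivity), Real.rpow_one] at h1
    have e1 : Real.log X ^ (4 : ℝ) = Real.log X ^ 4 := by
      rw [show (4 : ℝ) = ((4 : ℕ) : ℝ) by norm_num, Real.rpow_natCast]
    rw [e1] at h1
    exact h1
  have e2 : X ^ (2 : ℝ) = X ^ 2 := by
    rw [show (2 : ℝ) = ((2 : ℕ) : ℝ) by norm_num, Real.rpow_natCast]
  rw [e2]
  have h8 : 4 / 5 * (4 * X * Real.log (4 * X) ^ 4) ≤ 4 / 5 * (4 * X * (16 * (1 / 1000 * X))) := by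
    apply mul_le_mul_of_nonneg_left _ (by norm_num)
    apply mul_le_mul_of_nonneg_left _ (by linarith)
    linarith
  nlinarith

/-- **sharp cut-off for two shifted zeta functions and one conjugate** -/
theorem sharp_Z {a : Fin 2 → ℝ} (ha : Function.Injective a) (h0 : ∀ j, a j ≠ 0) :
    ∃ K θ : ℝ, 0 ≤ K ∧ 0 < θ ∧ ∀ T : ℝ, 1 ≤ T → ‖∫ t in (0 : ℝ)..T, (Zm a t - Qr a t)‖ ≤ K * T ^ (1 - θ) := by
  obtain ⟨C, δ, B, T₀, hC, hδ, hδ8, hB, hT₀, hw⟩ := window_Z (by norm_num) ha h0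
  obtain ⟨M, hM⟩ : ∃ M, M = MB Finset.univ (ob a) := ⟨_, rfl⟩
  have hM1 : 1 ≤ M := by rw [hM]; exact MB_pos _ _
  obtain ⟨f, hf⟩ : ∃ f : ℝ → ℂ, f = fun t => Zm a t - Qr a t := ⟨_, rfl⟩
  have hfm : Measurable f := by rw [hf]; exact (Zm_cont a).measurable.sub (Qr_meas a)
  have hfb : ∀ X : ℝ, 0 < X → ∀ Y : ℝ, ∃ M' : ℝ, ∀ t ∈ Icc 0 Y, 0 < t → ‖f t‖ ≤ M' := by
    intro X hX Y
    obtain ⟨M1, hM1'⟩ := isCompact_Icc.exists_bound_of_continuousOn (Zm_cont a).continuousOn (s := Icc 0 Y)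
    refine ⟨M1 + M, fun t ht ht0 => ?_⟩
    rw [hf, hM]
    exact (norm_sub_le _ _).trans (add_le_add (hM1' t ht) (Qr_bd a ht0))
  have hfi : ∀ x y : ℝ, 0 ≤ x → 0 ≤ y → IntervalIntegrable f volume x y := by
    have key : ∀ x y : ℝ, 0 ≤ x → x ≤ y → IntervalIntegrable f volume x y := by
      intro x y hx hxy
      rw [intervalIntegrable_iff_integrableOn_Ioc_of_le hxy]
      obtain ⟨M', hM'⟩ := hfb 1 one_pos y
      apply Measure.integrableOn_of_bounded (M := M') (by rw [Real.volume_Ioc]; exact ENNReal.ofReal_ne_top) hfm.aestronglyMeasurable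
      filter_upwards [ae_restrict_mem measurableSet_Ioc] with t ht
      exact hM' t ⟨by linarith [ht.1], ht.2⟩ (by linarith [ht.1])
    intro x y hx hy
    rcases le_total x y with h | h
    · exact key x y hx h
    · exact (key y x hy h).symm
  obtain ⟨θ, hθd⟩ : ∃ θ, θ = δ / 128 := ⟨_, rfl⟩
  have hθ : 0 < θ := by rw [hθd]; positivity
  have hθ4 : θ ≤ 1 / 4 := by rw [hθd]; linarith
  have hcont3 : ∀ c : ℝ, Continuous fun t : ℝ => Zp 3 (t + c) := fun c => (Zp_cont 3).comp (continuous_id.add continuous_const)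
  -- edges
  have hE : ∀ᶠ X : ℝ in atTop, ∫ t in Ed X (X ^ (1 - δ / 2)), ‖f t‖ ≤ X ^ (1 - θ) := by
    have l1 := edges (k := 3) le_rfl (δ := δ / 4) (by positivity) (by linarith)
    obtain ⟨c, hc⟩ : ∃ c, c = |a 0| + |a 1| := ⟨_, rfl⟩
    have hc0 : 0 ≤ c := by rw [hc]; positivity
    have l2 : ∀ᶠ X : ℝ in atTop, 2 * (1 + c) ≤ X ^ (δ / 4) := (tendsto_rpow_atTop (by positivity : 0 < δ / 4)).eventually_ge_atTop _
    have l3 : ∀ᶠ X : ℝ in atTop, 3 + 4 * M ≤ X ^ (δ / 128) := (tendsto_rpow_atTop (by positivity : 0 < δ / 128)).eventually_ge_atTop _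
    filter_upwards [l1, l2, l3, eventually_ge_atTop 2000] with X h1 h2 h3 hX
    have hX0 : 0 < X := by linarith
    obtain ⟨r, hr⟩ : ∃ r, r = X ^ (1 - δ / 2) := ⟨_, rfl⟩
    obtain ⟨r', hr'⟩ : ∃ r', r' = X ^ (1 - δ / 4) := ⟨_, rfl⟩
    have hr1 : 1 ≤ r := by rw [hr]; exact Real.one_le_rpow (by linarith) (by linarith)
    have hrr : r + c ≤ r' := by
      have e1 : r' = X ^ (δ / 4) * r := by rw [hr', hr, ← Real.rpow_add hX0]; congr 1; ring
      rw [e1]
      have h4 : 2 * (1 + c) * r ≤ X ^ (δ / 4) * r := mul_le_mul_of_nonneg_right h2 (by linarith)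
      nlinarith
    rw [← hr'] at h1
    rw [← hr]
    have hEdm : ∀ ρ : ℝ, MeasurableSet (Ed X ρ) := fun ρ => measurableSet_Ioo.union measurableSet_Ioo
    have hsub : ∀ ρ : ℝ, ρ ≤ X / 4 → Ed X ρ ⊆ Ioc 100 (3 * X) := by
      rintro ρ hρ t (h | h)
      · exact ⟨by linarith [h.1], by linarith [h.2]⟩
      · exact ⟨by linarith [h.1], by linarith [h.2]⟩
    have hrX : r ≤ X / 4 := by linarith [h1.1]
    rw [mo_real 3 (hEdm r') ((hsub r' h1.1).trans fun t h => h.1)] at h1
    have i1 : ∀ x : ℝ, |x| ≤ c → ∫ t in Ed X r, Zp 3 (t + x) ≤ X ^ (1 - δ / 64) := by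
      intro x hx
      refine (edge_tr x hX (by linarith) (by linarith) h1.1).trans (h1.2.trans (le_of_eq ?_))
      congr 1
      ring
    have hZi : ∀ x : ℝ, IntegrableOn (fun t => Zp 3 (t + x)) (Ed X r) := fun x => ((hcont3 x).integrableOn_Ioc (a := 100) (b := 3 * X)).mono_set (hsub r hrX)
    have hcs : IntegrableOn (fun _ : ℝ => M) (Ed X r) := by
      rw [integrableOn_const_iff (by simp)]
      right
      refine lt_of_le_of_lt (measure_mono (hsub r hrX)) ?_
      rw [Real.volume_Ioc]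
      exact ENNReal.ofReal_lt_top
    have hvol : (volume.restrict (Ed X r)).real univ ≤ 4 * r := by
      rw [measureReal_restrict_apply MeasurableSet.univ, univ_inter]
      unfold Ed
      refine (measureReal_union_le _ _).trans ?_
      rw [Real.volume_real_Ioo_of_le (by linarith), Real.volume_real_Ioo_of_le (by linarith)]
      linarith
    have i2 : ∫ t in Ed X r, ‖f t‖ ≤ ∫ t in Ed X r, (Zp 3 (t + a 0) + Zp 3 (t + a 1) + Zp 3 (t + 0) + M) := by
      apply integral_mono_of_nonneg (Eventually.of_forall fun t => norm_nonneg _) ((((hZi _).add (hZi _)).add (hZi _)).add hcs)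
      filter_upwards [ae_restrict_mem (hEdm r)] with t ht
      rw [hf, hM]
      exact f_le a (by linarith [(hsub r hrX ht).1])
    refine i2.trans ?_
    have s1 : IntegrableOn (fun t => Zp 3 (t + a 0) + Zp 3 (t + a 1)) (Ed X r) := (hZi _).add (hZi _)
    have s2 : IntegrableOn (fun t => Zp 3 (t + a 0) + Zp 3 (t + a 1) + Zp 3 (t + 0)) (Ed X r) := s1.add (hZi _)
    rw [integral_add s2 hcs, integral_add s1 (hZi _), integral_add (hZi _) (hZi _), integral_const, smul_eq_mul]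
    have j0 := i1 (a 0) (by rw [hc]; linarith [abs_nonneg (a 1)])
    have j1 := i1 (a 1) (by rw [hc]; linarith [abs_nonneg (a 0)])
    have j2 := i1 0 (by rw [abs_zero]; exact hc0)
    have j3 : (volume.restrict (Ed X r)).real univ * M ≤ 4 * M * X ^ (1 - δ / 64) := by
      have h5 : r ≤ X ^ (1 - δ / 64) := by
        rw [hr]
        exact Real.rpow_le_rpow_of_exponent_le (by linarith) (by linarith)
      calc _ ≤ (4 * r) * M := mul_le_mul_of_nonneg_right hvol (by linarith)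
        _ = 4 * M * r := by ring
        _ ≤ _ := mul_le_mul_of_nonneg_left h5 (by linarith)
    calc _ ≤ (3 + 4 * M) * X ^ (1 - δ / 64) := by linarith
      _ ≤ X ^ (δ / 128) * X ^ (1 - δ / 64) := mul_le_mul_of_nonneg_right h3 (by positivity)
      _ = X ^ (1 - θ) := by
          rw [← Real.rpow_add hX0, hθd]
          congr 1
          ring
  -- crude bound
  have hI : ∀ᶠ X : ℝ in atTop, ∫ t in Ioo (X / 2) (3 * X), ‖f t‖ ≤ X ^ (2 : ℝ) := by
    filter_upwards [block_tr (a 0), block_tr (a 1), block_tr 0, eventually_ge_atTop (max 2000 (6 * M))] with X h1 h2 h3 hX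
    have hX2 : 2000 ≤ X := (le_max_left _ _).trans hX
    have hXM : 6 * M ≤ X := (le_max_right _ _).trans hX
    have hX0 : 0 < X := by linarith
    have hZi : ∀ x : ℝ, IntegrableOn (fun t => Zp 3 (t + x)) (Ioo (X / 2) (3 * X)) := fun x =>
      ((hcont3 x).integrableOn_Icc (a := X / 2) (b := 3 * X)).mono_set Ioo_subset_Icc_self
    have hcs : IntegrableOn (fun _ : ℝ => M) (Ioo (X / 2) (3 * X)) := by
      rw [integrableOn_const_iff (by simp)]
      right
      rw [Real.volume_Ioo]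
      exact ENNReal.ofReal_lt_top
    have i2 : ∫ t in Ioo (X / 2) (3 * X), ‖f t‖ ≤ ∫ t in Ioo (X / 2) (3 * X), (Zp 3 (t + a 0) + Zp 3 (t + a 1) + Zp 3 (t + 0) + M) := by
      apply integral_mono_of_nonneg (Eventually.of_forall fun t => norm_nonneg _) ((((hZi _).add (hZi _)).add (hZi _)).add hcs)
      filter_upwards [ae_restrict_mem measurableSet_Ioo] with t ht
      rw [hf, hM]
      exact f_le a (by linarith [ht.1])
    refine i2.trans ?_
    have s1 : IntegrableOn (fun t => Zp 3 (t + a 0) + Zp 3 (t + a 1)) (Ioo (X / 2) (3 * X)) := (hZi _).add (hZi _)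
    have s2 : IntegrableOn (fun t => Zp 3 (t + a 0) + Zp 3 (t + a 1) + Zp 3 (t + 0)) (Ioo (X / 2) (3 * X)) := s1.add (hZi _)
    rw [integral_add s2 hcs, integral_add s1 (hZi _), integral_add (hZi _) (hZi _),
      integral_const, smul_eq_mul, measureReal_restrict_apply MeasurableSet.univ, univ_inter, Real.volume_real_Ioo_of_le (by linarith)]
    have e2 : X ^ (2 : ℝ) = X ^ 2 := by
      rw [show (2 : ℝ) = ((2 : ℕ) : ℝ) by norm_num, Real.rpow_natCast]
    rw [e2] at h1 h2 h3 ⊢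
    nlinarith
  -- windows
  obtain ⟨T1, hT1⟩ : ∃ T1 : ℝ, ∀ T : ℝ, T1 ≤ T → Real.log T ^ (4 : ℝ) ≤ T ^ (δ / 2) := by
    have l1 := (isLittleO_log_rpow_rpow_atTop 4 (by positivity : (0:ℝ) < δ / 2)).bound (by norm_num : (0:ℝ) < 1)
    obtain ⟨T1, hT1⟩ := eventually_atTop.1 l1
    refine ⟨max T1 1, fun T hT => ?_⟩
    have h1 := hT1 T ((le_max_left _ _).trans hT)
    have hT0 : 1 ≤ T := (le_max_right _ _).trans hT
    have hl : 0 ≤ Real.log T := Real.log_nonneg hT0
    rw [Real.norm_of_nonneg (by positivity), Real.norm_of_nonneg (by positivity), one_mul] at h1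
    exact h1
  obtain ⟨T2, hT2⟩ := eventually_atTop.1 ((tendsto_rpow_atTop (by positivity : 0 < δ / 2)).eventually_ge_atTop (2 * B))
  have hw' : ∀ T Δ : ℝ, max (max T₀ T1) T2 ≤ T → T ^ (1 - δ) ≤ Δ → Δ ≤ 2 * T ^ (1 - δ) →
      ‖∫ t in (T / 2)..(3 * T / 2), f t * ((gg T Δ t : ℝ) : ℂ)‖ ≤ 3 * C * (Δ * T ^ (-θ)) := by
    intro T Δ hT hΔ hΔ2
    have hTT0 : T₀ ≤ T := ((le_max_left _ _).trans (le_max_left _ _)).trans hT
    have hTT1 : T1 ≤ T := ((le_max_right _ _).trans (le_max_left _ _)).trans hT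
    have hTT2 : T2 ≤ T := (le_max_right _ _).trans hT
    have hT100 : 100 ≤ T := hT₀.trans hTT0
    have hT0 : 0 < T := by linarith
    have hΔ0 : 0 < Δ := lt_of_lt_of_le (by positivity) hΔ
    have hL1 : 1 ≤ Real.log T := by
      rw [Real.le_log_iff_exp_le hT0]
      have := Real.exp_one_lt_d9
      linarith
    have hL4 := hT1 T hTT1
    rw [show (4 : ℝ) = ((4 : ℕ) : ℝ) by norm_num, Real.rpow_natCast] at hL4
    have hL2 : Real.log T ^ 2 ≤ T ^ (δ / 2) := (pow_le_pow_right₀ hL1 (by norm_num)).trans hL4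
    have hsq : √(Real.log T) ≤ T ^ (δ / 2) := by
      have h2 : √(Real.log T) ≤ Real.log T := by
        rw [Real.sqrt_le_left (by linarith)]
        nlinarith
      have h3 : Real.log T ≤ Real.log T ^ 2 := by nlinarith
      linarith
    have hBT : B * Δ * √(Real.log T) ≤ T := by
      calc B * Δ * √(Real.log T) ≤ B * (2 * T ^ (1 - δ)) * T ^ (δ / 2) :=
            mul_le_mul (mul_le_mul_of_nonneg_left hΔ2 (by linarith)) hsq (Real.sqrt_nonneg _) (by positivity)
        _ = (2 * B) * (T ^ (1 - δ) * T ^ (δ / 2)) := by ring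
        _ ≤ T ^ (δ / 2) * (T ^ (1 - δ) * T ^ (δ / 2)) := mul_le_mul_of_nonneg_right (hT2 T hTT2) (by positivity)
        _ = T := by
            rw [← Real.rpow_add hT0, ← Real.rpow_add hT0]
            have : δ / 2 + (1 - δ + δ / 2) = 1 := by ring
            rw [this, Real.rpow_one]
    have h2 := hw T Δ hTT0 hΔ hBT
    rw [hf]
    refine h2.trans ?_
    have h3 : Δ * T ^ (-δ) ≤ Δ * T ^ (-θ) := by
      apply mul_le_mul_of_nonneg_left _ hΔ0.le
      exact Real.rpow_le_rpow_of_exponent_le (by linarith) (by rw [hθd]; linarith)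
    have h4 : Δ / T * Δ * Real.log T ^ 2 ≤ 2 * (Δ * T ^ (-θ)) := by
      have h5 : Δ / T ≤ 2 * T ^ (-δ) := by
        rw [div_le_iff₀ hT0]
        refine hΔ2.trans (le_of_eq ?_)
        nth_rewrite 3 [← Real.rpow_one T]
        rw [mul_assoc, ← Real.rpow_add hT0]
        congr 2
        ring
      calc Δ / T * Δ * Real.log T ^ 2 ≤ (2 * T ^ (-δ)) * Δ * T ^ (δ / 2) :=
            mul_le_mul (mul_le_mul_of_nonneg_right h5 hΔ0.le) hL2 (by positivity) (by positivity)
        _ = 2 * (Δ * (T ^ (-δ) * T ^ (δ / 2))) := by ring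
        _ = 2 * (Δ * T ^ (-(δ / 2))) := by rw [← Real.rpow_add hT0]; congr 3; ring
        _ ≤ _ := by
            apply mul_le_mul_of_nonneg_left _ (by norm_num)
            apply mul_le_mul_of_nonneg_left _ hΔ0.le
            exact Real.rpow_le_rpow_of_exponent_le (by linarith) (by rw [hθd]; linarith)
    calc C * (Δ * T ^ (-δ) + Δ / T * Δ * Real.log T ^ 2) ≤ C * (Δ * T ^ (-θ) + 2 * (Δ * T ^ (-θ))) :=
          mul_le_mul_of_nonneg_left (add_le_add h3 h4) hC
      _ = _ := by ring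
  obtain ⟨K, X₁, hK, hX₁, hfin⟩ := sharp_e hfm (fun X hX => by
    obtain ⟨M', hM'⟩ := hfb 1 one_pos (3 * X)
    exact ⟨M', fun t ht => hM' t ⟨by linarith [ht.1], ht.2.le⟩ (by linarith [ht.1])⟩)
    (fun x y hx hy => hfi x y (by linarith) (by linarith)) (by positivity : 0 ≤ 3 * C) hδ hδ8 hθ hθ4 hE hI hw'
  -- conclusion
  obtain ⟨N, hN⟩ : ∃ N, N = ∫ t in (0:ℝ)..X₁, ‖f t‖ := ⟨_, rfl⟩
  have hN0 : 0 ≤ N := by
    rw [hN]
    exact intervalIntegral.integral_nonneg (by linarith) fun t _ => norm_nonneg _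
  refine ⟨K + N, θ / 2, by positivity, by positivity, fun T hT => ?_⟩
  have hone : 1 ≤ T ^ (1 - θ / 2) := Real.one_le_rpow hT (by linarith)
  have ef : ∫ t in (0 : ℝ)..T, (Zm a t - Qr a t) = ∫ t in (0 : ℝ)..T, f t := by rw [hf]
  rw [ef]
  rcases le_total X₁ T with h | h
  · have h1 := hfin T h
    have h2 : ∫ t in (0 : ℝ)..T, f t = (∫ t in (0 : ℝ)..1, f t) + ∫ t in (1 : ℝ)..T, f t :=
      (intervalIntegral.integral_add_adjacent_intervals (hfi 0 1 le_rfl (by norm_num)) (hfi 1 T (by norm_num) (by linarith))).symm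
    rw [h2]
    have h3 : ‖∫ t in (0 : ℝ)..1, f t‖ ≤ N := by
      refine (intervalIntegral.norm_integral_le_integral_norm (by norm_num)).trans ?_
      rw [hN]
      apply intervalIntegral.integral_mono_interval le_rfl (by norm_num) hX₁
      · exact Eventually.of_forall fun t => norm_nonneg _
      · exact (hfi 0 X₁ le_rfl (by linarith)).norm
    have h4 : N * 1 ≤ N * T ^ (1 - θ / 2) := mul_le_mul_of_nonneg_left hone hN0
    refine (norm_add_le _ _).trans ?_
    rw [add_mul]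
    linarith
  · have h3 : ‖∫ t in (0 : ℝ)..T, f t‖ ≤ N := by
      refine (intervalIntegral.norm_integral_le_integral_norm (by linarith)).trans ?_
      rw [hN]
      apply intervalIntegral.integral_mono_interval le_rfl (by linarith) h
      · exact Eventually.of_forall fun t => norm_nonneg _
      · exact (hfi 0 X₁ le_rfl (by linarith)).norm
    have h4 : N * 1 ≤ N * T ^ (1 - θ / 2) := mul_le_mul_of_nonneg_left hone hN0
    have h5 : 0 ≤ K * T ^ (1 - θ / 2) := by positivity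
    rw [add_mul]
    linarith

end Pool.Agent.N30.SM
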